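import Pool.Agent.H459R3.KS.Ker

/-!
The convolution estimate for the weights.
-/

set_option autoImplicit false

open MeasureTheory Set Filter Topology
open scoped InnerProductSpace Real

namespace H459R3.KS

lemma ae_coord (i : Fin 3) : ∀ᵐ η : E, η i ≠ 0 := by
  have h1 := Measure.quasiMeasurePreserving_eval (fun _ : Fin 3 => (volume : Measure ℝ)) i
  have h2 := (PiLp.volume_preserving_ofLp (Fin 3)).quasiMeasurePreserving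
  have h3 := h1.comp h2
  have h4 : ∀ᵐ r : ℝ, r ≠ 0 := by
    rw [ae_iff]
    simp
  exact h3.ae h4

lemma ae_ne (ξ : E) : ∀ᵐ η : E, η ≠ ξ := by
  rw [ae_iff]
  simp

lemma ae_sub_left {p : E → Prop} (ξ : E) (h : ∀ᵐ η : E, p η) : ∀ᵐ η : E, p (ξ - η) := by
  have h1 : Measure.QuasiMeasurePreserving (fun η : E => ξ - η) volume volume :=
    (Measure.measurePreserving_sub_left volume ξ).quasiMeasurePreserving
  exact h1.ae h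

lemma abs_coord_le (η : E) (i : Fin 3) : |η i| ≤ ‖η‖ := by
  have := PiLp.norm_apply_le η i
  simpa using this

/-- The one-sided majorant. -/
noncomputable def G (μ : ℝ) (ξ η : E) : ℝ :=
  (H (η 0) + H (ξ 0 - η 0)) * k1 μ (η 1) * k1 μ (η 2)

lemma G_nonneg (μ : ℝ) (ξ η : E) : 0 ≤ G μ ξ η := by
  unfold G
  have := H_nonneg (η 0)
  have := H_nonneg (ξ 0 - η 0)
  have := k1_nonneg μ (η 1)
  have := k1_nonneg μ (η 2)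
  positivity

lemma integrable_G {μ : ℝ} (hμ : 0 < μ) (ξ : E) : Integrable (G μ ξ) := by
  refine integrable_prod3 (f := ![fun r => H r + H (ξ 0 - r), k1 μ, k1 μ]) fun i => ?_
  fin_cases i
  · exact integrable_H.add (integrable_H.comp_sub_left (ξ 0))
  · exact integrable_k1 hμ
  · exact integrable_k1 hμ

lemma integral_G {μ : ℝ} (hμ : 0 < μ) (ξ : E) : ∫ η, G μ ξ η = 128 * π ^ 2 / μ := by
  have h : ∫ η : E, (H (η 0) + H (ξ 0 - η 0)) * k1 μ (η 1) * k1 μ (η 2) =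
      (∫ r, (H r + H (ξ 0 - r))) * (∫ r, k1 μ r) * ∫ r, k1 μ r :=
    integral_prod3 ![fun r => H r + H (ξ 0 - r), k1 μ, k1 μ]
  have h1 : ∫ r, (H r + H (ξ 0 - r)) = 2 * π := by
    rw [integral_add integrable_H (integrable_H.comp_sub_left (ξ 0)), integral_sub_left_eq_self,
      integral_H]
    ring
  unfold G
  rw [h, h1, integral_k1 hμ]
  have e1 : √π ^ 2 = π := Real.sq_sqrt Real.pi_pos.le
  have e2 : √μ ^ 2 = μ := Real.sq_sqrt hμ.le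
  have e3 : √μ ≠ 0 := by positivity
  have e4 : 2 * π * (8 * √π / √μ) * (8 * √π / √μ) = 128 * π * √π ^ 2 / √μ ^ 2 := by
    field_simp
    ring
  rw [e4, e1, e2]
  ring

lemma sqrt_add_half {a b c : ℝ} (ha : 0 ≤ a) (hab : a ≤ b) (hc : c ≤ a + b) :
    √c + √a / 2 ≤ √a + √b := by
  have hb : 0 ≤ b := ha.trans hab
  have h1 : √c ≤ √b + √a / 2 := by
    apply Real.sqrt_le_iff.2
    refine ⟨by positivity, ?_⟩
    have e1 := Real.sq_sqrt ha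
    have e2 := Real.sq_sqrt hb
    have h2 : √a ≤ √b := Real.sqrt_le_sqrt hab
    nlinarith [Real.sqrt_nonneg a, Real.sqrt_nonneg b]
  linarith

lemma exp_part {μ : ℝ} (hμ : 0 ≤ μ) {η ζ ξ : E} (h : ξ = η + ζ) (hle : ‖η‖ ≤ ‖ζ‖) :
    Real.exp (-(μ * √‖η‖)) * Real.exp (-(μ * √‖ζ‖)) ≤
      Real.exp (-(μ * √‖ξ‖)) *
        (Real.exp (-(μ / 4) * |η 1| ^ (1 / 2 : ℝ)) * Real.exp (-(μ / 4) * |η 2| ^ (1 / 2 : ℝ))) := by
  rw [← Real.exp_add, ← Real.exp_add, ← Real.exp_add]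
  apply Real.exp_le_exp.2
  have h1 := sqrt_add_half (norm_nonneg η) hle (h ▸ norm_add_le η ζ)
  have h2 : |η 1| ^ (1 / 2 : ℝ) ≤ √‖η‖ := by
    rw [← Real.sqrt_eq_rpow]; exact Real.sqrt_le_sqrt (abs_coord_le η 1)
  have h3 : |η 2| ^ (1 / 2 : ℝ) ≤ √‖η‖ := by
    rw [← Real.sqrt_eq_rpow]; exact Real.sqrt_le_sqrt (abs_coord_le η 2)
  nlinarith [mul_le_mul_of_nonneg_left h1 hμ, mul_le_mul_of_nonneg_left h2 hμ,
    mul_le_mul_of_nonneg_left h3 hμ]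

lemma pow_part {η ζ ξ : E} (h : ξ = η + ζ) (hle : ‖η‖ ≤ ‖ζ‖) (h1 : η 1 ≠ 0) (h2 : η 2 ≠ 0)
    (hξ : ξ ≠ 0) :
    1 / (‖η‖ * ‖ζ‖) ≤ √2 * ‖ξ‖ ^ (-(1 / 2) : ℝ) *
      (|η 1| ^ (-(3 / 4) : ℝ) * |η 2| ^ (-(3 / 4) : ℝ)) := by
  have p1 : 0 < |η 1| := abs_pos.2 h1
  have p2 : 0 < |η 2| := abs_pos.2 h2
  have pη : 0 < ‖η‖ := p1.trans_le (abs_coord_le η 1)
  have pζ : 0 < ‖ζ‖ := pη.trans_le hle
  have pξ : 0 < ‖ξ‖ := norm_pos_iff.2 hξ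
  have h3 : ‖ξ‖ / 2 ≤ ‖ζ‖ := by
    have := norm_add_le η ζ
    rw [← h] at this
    linarith
  have h4 : √‖η‖ * √(‖ξ‖ / 2) ≤ ‖ζ‖ := by
    calc √‖η‖ * √(‖ξ‖ / 2) ≤ √‖ζ‖ * √‖ζ‖ := by gcongr
      _ = ‖ζ‖ := Real.mul_self_sqrt pζ.le
  have h5 : 1 / (‖η‖ * ‖ζ‖) ≤ 1 / (‖η‖ * (√‖η‖ * √(‖ξ‖ / 2))) := by
    apply one_div_le_one_div_of_le (by positivity)
    gcongr
  refine h5.trans ?_
  have e1 : |η 1| ^ (-(3 / 4) : ℝ) ≥ ‖η‖ ^ (-(3 / 4) : ℝ) :=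
    Real.rpow_le_rpow_of_nonpos p1 (abs_coord_le η 1) (by norm_num)
  have e2 : |η 2| ^ (-(3 / 4) : ℝ) ≥ ‖η‖ ^ (-(3 / 4) : ℝ) :=
    Real.rpow_le_rpow_of_nonpos p2 (abs_coord_le η 2) (by norm_num)
  have e3 : ‖η‖ ^ (-(3 / 4) : ℝ) * ‖η‖ ^ (-(3 / 4) : ℝ) = 1 / (‖η‖ * √‖η‖) := by
    rw [← Real.rpow_add pη, Real.sqrt_eq_rpow]
    nth_rewrite 2 [← Real.rpow_one ‖η‖]
    rw [← Real.rpow_add pη, one_div, ← Real.rpow_neg pη.le]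
    norm_num
  have e4 : √2 * ‖ξ‖ ^ (-(1 / 2) : ℝ) = 1 / √(‖ξ‖ / 2) := by
    rw [Real.rpow_neg pξ.le, ← Real.sqrt_eq_rpow, Real.sqrt_div pξ.le]
    field_simp
  calc 1 / (‖η‖ * (√‖η‖ * √(‖ξ‖ / 2))) = 1 / √(‖ξ‖ / 2) * (1 / (‖η‖ * √‖η‖)) := by
        field_simp
    _ = √2 * ‖ξ‖ ^ (-(1 / 2) : ℝ) * (‖η‖ ^ (-(3 / 4) : ℝ) * ‖η‖ ^ (-(3 / 4) : ℝ)) := by
        rw [e3, e4]
    _ ≤ _ := by gcongr

lemma half_bound {μ : ℝ} (hμ : 0 ≤ μ) {η ζ ξ : E} (h : ξ = η + ζ) (hle : ‖η‖ ≤ ‖ζ‖)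
    (h1 : η 1 ≠ 0) (h2 : η 2 ≠ 0) (hξ : ξ ≠ 0) :
    W μ η * W μ ζ * (1 / (‖η‖ * ‖ζ‖)) ≤
      2 * √2 * (‖ξ‖ ^ (-(1 / 2) : ℝ) * W μ ξ) * G μ ξ η := by
  have hH := H_mul_le (ξ 0) (η 0)
  have hζ : ζ 0 = ξ 0 - η 0 := by rw [h]; simp
  rw [← hζ] at hH
  have hE := exp_part hμ h hle
  have hP := pow_part h hle h1 h2 hξ
  have q1 := H_nonneg (η 0)
  have q2 := H_nonneg (ζ 0)
  have q3 := H_nonneg (ξ 0)
  unfold W G k1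
  rw [← hζ]
  calc H (η 0) * Real.exp (-(μ * √‖η‖)) * (H (ζ 0) * Real.exp (-(μ * √‖ζ‖))) * (1 / (‖η‖ * ‖ζ‖))
      = (H (η 0) * H (ζ 0)) * (Real.exp (-(μ * √‖η‖)) * Real.exp (-(μ * √‖ζ‖)))
        * (1 / (‖η‖ * ‖ζ‖)) := by ring
    _ ≤ (2 * H (ξ 0) * (H (η 0) + H (ζ 0))) * (Real.exp (-(μ * √‖ξ‖)) *
        (Real.exp (-(μ / 4) * |η 1| ^ (1 / 2 : ℝ)) * Real.exp (-(μ / 4) * |η 2| ^ (1 / 2 : ℝ))))
        * (√2 * ‖ξ‖ ^ (-(1 / 2) : ℝ) *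
      (|η 1| ^ (-(3 / 4) : ℝ) * |η 2| ^ (-(3 / 4) : ℝ))) := by gcongr
    _ = _ := by ring

/-- The majorant of the nonlinear interaction. -/
noncomputable def F (μ : ℝ) (ξ η : E) : ℝ :=
  ‖ξ‖ ^ 2 / (2 * ‖η‖ * ‖ξ - η‖) * (W μ η * W μ (ξ - η))

lemma F_nonneg (μ : ℝ) (ξ η : E) : 0 ≤ F μ ξ η := by
  unfold F
  have := W_nonneg μ η
  have := W_nonneg μ (ξ - η)
  positivity

lemma measurable_F (μ : ℝ) : Measurable (fun p : E × E => F μ p.1 p.2) := by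
  unfold F
  have := (continuous_W μ).measurable
  fun_prop

lemma F_le {μ : ℝ} (hμ : 0 ≤ μ) (ξ : E) : ∀ᵐ η : E, F μ ξ η ≤
    √2 * (‖ξ‖ ^ (3 / 2 : ℝ) * W μ ξ) * (G μ ξ η + G μ ξ (ξ - η)) := by
  by_cases hξ : ξ = 0
  · refine Eventually.of_forall fun η => ?_
    have : F μ ξ η = 0 := by simp [F, hξ]
    rw [this]
    have := G_nonneg μ ξ η
    have := G_nonneg μ ξ (ξ - η)
    have := W_nonneg μ ξ
    positivity
  filter_upwards [ae_coord 1, ae_coord 2, ae_sub_left ξ (ae_coord 1), ae_sub_left ξ (ae_coord 2)]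
    with η h1 h2 h3 h4
  have pξ : 0 < ‖ξ‖ := norm_pos_iff.2 hξ
  have e1 : ‖ξ‖ ^ 2 * ‖ξ‖ ^ (-(1 / 2) : ℝ) = ‖ξ‖ ^ (3 / 2 : ℝ) := by
    rw [← Real.rpow_natCast, ← Real.rpow_add pξ]; norm_num
  have g1 := G_nonneg μ ξ η
  have g2 := G_nonneg μ ξ (ξ - η)
  have w0 := W_nonneg μ ξ
  have key : W μ η * W μ (ξ - η) * (1 / (‖η‖ * ‖ξ - η‖)) ≤
      2 * √2 * (‖ξ‖ ^ (-(1 / 2) : ℝ) * W μ ξ) * (G μ ξ η + G μ ξ (ξ - η)) := by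
    rcases le_total ‖η‖ ‖ξ - η‖ with hle | hle
    · refine (half_bound hμ (by simp) hle h1 h2 hξ).trans ?_
      gcongr
      linarith
    · have := half_bound hμ (ξ := ξ) (η := ξ - η) (ζ := η) (by simp) hle h3 h4 hξ
      calc W μ η * W μ (ξ - η) * (1 / (‖η‖ * ‖ξ - η‖))
          = W μ (ξ - η) * W μ η * (1 / (‖ξ - η‖ * ‖η‖)) := by ring
        _ ≤ _ := this
        _ ≤ _ := by gcongr; linarith
  calc F μ ξ η = ‖ξ‖ ^ 2 / 2 * (W μ η * W μ (ξ - η) * (1 / (‖η‖ * ‖ξ - η‖))) := by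
        unfold F; ring
    _ ≤ ‖ξ‖ ^ 2 / 2 * (2 * √2 * (‖ξ‖ ^ (-(1 / 2) : ℝ) * W μ ξ) * (G μ ξ η + G μ ξ (ξ - η))) := by
        gcongr
    _ = √2 * ((‖ξ‖ ^ 2 * ‖ξ‖ ^ (-(1 / 2) : ℝ)) * W μ ξ) * (G μ ξ η + G μ ξ (ξ - η)) := by ring
    _ = _ := by rw [e1]

lemma integrable_F {μ : ℝ} (hμ : 0 < μ) (ξ : E) : Integrable (F μ ξ) := by
  have h := ((integrable_G hμ ξ).add ((integrable_G hμ ξ).comp_sub_left ξ)).const_mul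
    (√2 * (‖ξ‖ ^ (3 / 2 : ℝ) * W μ ξ))
  refine h.mono' ?_ ?_
  · exact ((measurable_F μ).comp (measurable_const.prodMk measurable_id)).aestronglyMeasurable
  · filter_upwards [F_le hμ.le ξ] with η hη
    rw [Real.norm_of_nonneg (F_nonneg μ ξ η)]
    exact hη

/-- The constant of the convolution estimate. -/
noncomputable def CF : ℝ := √2 * (256 * π ^ 2)

lemma CF_pos : 0 < CF := by unfold CF; positivity

lemma integral_F_le {μ : ℝ} (hμ : 0 < μ) (ξ : E) :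
    ∫ η, F μ ξ η ≤ CF * (‖ξ‖ ^ (3 / 2 : ℝ) * W μ ξ) / μ := by
  have h := ((integrable_G hμ ξ).add ((integrable_G hμ ξ).comp_sub_left ξ)).const_mul
    (√2 * (‖ξ‖ ^ (3 / 2 : ℝ) * W μ ξ))
  have h1 := integral_mono_ae (integrable_F hμ ξ) h (F_le hμ.le ξ)
  refine h1.trans (le_of_eq ?_)
  rw [integral_const_mul]
  simp only [Pi.add_apply]
  rw [integral_add (integrable_G hμ ξ) ((integrable_G hμ ξ).comp_sub_left ξ),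
    integral_sub_left_eq_self (G μ ξ), integral_G hμ ξ]
  unfold CF
  ring

attribute [irreducible] G F CF

end H459R3.KS
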