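import Pool.Agent.H459R3.KS.Riesz2

/-!
The Gaussian filament.
-/

set_option autoImplicit false

open MeasureTheory Set Filter Topology
open scoped InnerProductSpace Real FourierTransform

namespace H459R3.KS

/-- Profile in frequency. -/
noncomputable def gw (a δ : ℝ) (ξ : E) : ℝ :=
  a * Real.exp (-π * ξ 0 ^ 2) * Real.exp (-(π * δ ^ 2) * ξ 1 ^ 2) * Real.exp (-(π * δ ^ 2) * ξ 2 ^ 2)

/-- Profile in space: a Gaussian filament of thickness `δ`. -/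
noncomputable def gx (a δ : ℝ) (x : E) : ℝ :=
  (a * Real.exp (-π * x 0 ^ 2)) * (δ⁻¹ * Real.exp (-(π / δ ^ 2) * x 1 ^ 2)) *
    (δ⁻¹ * Real.exp (-(π / δ ^ 2) * x 2 ^ 2))

lemma integral_prod3C (f : Fin 3 → ℝ → ℂ) :
    ∫ η : E, f 0 (η 0) * f 1 (η 1) * f 2 (η 2) = (∫ r, f 0 r) * (∫ r, f 1 r) * ∫ r, f 2 r := by
  have h := integral_fintype_prod_volume_eq_prod (ι := Fin 3) (E := fun _ => ℝ) f
  rw [Fin.prod_univ_three] at h
  rw [← h, ← (PiLp.volume_preserving_ofLp (Fin 3)).integral_comp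
    (MeasurableEquiv.toLp 2 (Fin 3 → ℝ)).symm.measurableEmbedding]
  congr with η
  simp [Fin.prod_univ_three]

lemma gauss1 {c : ℝ} (hc : 0 < c) (x : ℝ) :
    ∫ r : ℝ, ((Real.exp (-(π * c ^ 2) * r ^ 2) : ℝ) : ℂ) * Complex.exp (2 * π * Complex.I * ((r * x : ℝ) : ℂ)) =
      ((c⁻¹ * Real.exp (-(π / c ^ 2) * x ^ 2) : ℝ) : ℂ) := by
  have h := fourierIntegral_gaussian (b := ((π * c ^ 2 : ℝ) : ℂ)) (by
    rw [Complex.ofReal_re]; positivity) ((2 * π * x : ℝ) : ℂ)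
  have e1 : ∫ r : ℝ, ((Real.exp (-(π * c ^ 2) * r ^ 2) : ℝ) : ℂ) *
      Complex.exp (2 * π * Complex.I * ((r * x : ℝ) : ℂ)) =
      ∫ r : ℝ, Complex.exp (Complex.I * ((2 * π * x : ℝ) : ℂ) * r) *
        Complex.exp (-((π * c ^ 2 : ℝ) : ℂ) * (r : ℂ) ^ 2) := by
    congr with r
    rw [mul_comm]
    push_cast
    congr 1
    · congr 1; ring
  rw [e1, h]
  have hpi := Real.pi_pos
  have e2 : ((π : ℂ) / ((π * c ^ 2 : ℝ) : ℂ)) ^ (1 / 2 : ℂ) = ((c⁻¹ : ℝ) : ℂ) := by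
    have e3 : ((π : ℂ) / ((π * c ^ 2 : ℝ) : ℂ)) = (((c⁻¹) ^ 2 : ℝ) : ℂ) := by
      rw [← Complex.ofReal_div]
      congr 1
      field_simp
    have e4 : (1 / 2 : ℂ) = ((1 / 2 : ℝ) : ℂ) := by push_cast; ring
    rw [e3, e4, ← Complex.ofReal_cpow (by positivity), ← Real.sqrt_eq_rpow,
      Real.sqrt_sq (by positivity)]
  rw [e2]
  push_cast
  congr 2
  have hc' : (c : ℂ) ≠ 0 := by exact_mod_cast hc.ne'
  have hp' : (π : ℂ) ≠ 0 := by exact_mod_cast hpi.ne'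
  field_simp
  ring

lemma Ft_gw (a : ℝ) {δ : ℝ} (hδ : 0 < δ) (x : E) : Ft (gw a δ) x = ((gx a δ x : ℝ) : ℂ) := by
  have h1 : Ft (gw a δ) x = ∫ ξ : E,
      ((a : ℂ) * (((Real.exp (-(π * 1 ^ 2) * ξ 0 ^ 2) : ℝ) : ℂ) *
        Complex.exp (2 * π * Complex.I * ((ξ 0 * x 0 : ℝ) : ℂ)))) *
      (((Real.exp (-(π * δ ^ 2) * ξ 1 ^ 2) : ℝ) : ℂ) *
        Complex.exp (2 * π * Complex.I * ((ξ 1 * x 1 : ℝ) : ℂ))) *
      (((Real.exp (-(π * δ ^ 2) * ξ 2 ^ 2) : ℝ) : ℂ) *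
        Complex.exp (2 * π * Complex.I * ((ξ 2 * x 2 : ℝ) : ℂ))) := by
    unfold Ft
    congr with ξ
    have e1 : ee x ξ = Complex.exp (2 * π * Complex.I * ((ξ 0 * x 0 : ℝ) : ℂ)) *
        Complex.exp (2 * π * Complex.I * ((ξ 1 * x 1 : ℝ) : ℂ)) *
        Complex.exp (2 * π * Complex.I * ((ξ 2 * x 2 : ℝ) : ℂ)) := by
      rw [← Complex.exp_add, ← Complex.exp_add]
      unfold ee
      congr 1
      simp only [PiLp.inner_apply, RCLike.inner_apply, conj_trivial, Fin.sum_univ_three]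
      push_cast
      ring
    rw [e1]
    unfold gw
    have e2 : -(π * 1 ^ 2) * ξ 0 ^ 2 = -π * ξ 0 ^ 2 := by ring
    rw [e2]
    push_cast
    ring
  rw [h1]
  refine Eq.trans (integral_prod3C ![fun r => (a : ℂ) * (((Real.exp (-(π * 1 ^ 2) * r ^ 2) : ℝ) : ℂ) *
        Complex.exp (2 * π * Complex.I * ((r * x 0 : ℝ) : ℂ))),
      fun r => (((Real.exp (-(π * δ ^ 2) * r ^ 2) : ℝ) : ℂ) *
        Complex.exp (2 * π * Complex.I * ((r * x 1 : ℝ) : ℂ))),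
      fun r => (((Real.exp (-(π * δ ^ 2) * r ^ 2) : ℝ) : ℂ) *
        Complex.exp (2 * π * Complex.I * ((r * x 2 : ℝ) : ℂ)))]) ?_
  simp only [Matrix.cons_val_zero, Matrix.cons_val_one, Matrix.cons_val]
  rw [integral_const_mul, gauss1 one_pos, gauss1 hδ, gauss1 hδ]
  unfold gx
  push_cast
  simp only [inv_one, one_mul, one_pow, div_one]

lemma gw_even (a δ : ℝ) (ξ : E) : gw a δ (-ξ) = gw a δ ξ := by
  unfold gw
  simp

lemma gw_meas (a δ : ℝ) : Measurable (gw a δ) := by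
  unfold gw
  fun_prop

lemma norm_sq_three (ξ : E) : ‖ξ‖ ^ 2 = ξ 0 ^ 2 + ξ 1 ^ 2 + ξ 2 ^ 2 := by
  rw [EuclideanSpace.norm_sq_eq, Fin.sum_univ_three]
  simp

lemma gw_bound {a δ : ℝ} (ha : 0 ≤ a) (hδ : 0 < δ) (hδ2 : δ ≤ 1 / 2) (ξ : E) :
    |gw a δ ξ| ≤ (Real.exp 1 * a) * W (√δ) ξ := by
  have hpi := Real.pi_gt_three
  have h0 : 0 ≤ gw a δ ξ := by unfold gw; positivity
  rw [abs_of_nonneg h0]
  have e1 : gw a δ ξ = a * Real.exp (-(π * ξ 0 ^ 2 + π * δ ^ 2 * ξ 1 ^ 2 + π * δ ^ 2 * ξ 2 ^ 2)) := by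
    unfold gw
    rw [mul_assoc, mul_assoc, ← Real.exp_add, ← Real.exp_add]
    congr 2
    ring
  have h1 : Real.exp (-ξ 0 ^ 2) ≤ H (ξ 0) := by
    unfold H
    rw [Real.exp_neg, ← one_div]
    apply one_div_le_one_div_of_le (by positivity)
    linarith [Real.add_one_le_exp (ξ 0 ^ 2)]
  have h2 : √δ * √‖ξ‖ ≤ 1 + δ ^ 2 * ‖ξ‖ ^ 2 := by
    rw [← Real.sqrt_mul hδ.le]
    set y := δ * ‖ξ‖ with hy
    have hy0 : 0 ≤ y := by positivity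
    have : √y ≤ 1 + y ^ 2 := by
      rw [Real.sqrt_le_left (by positivity)]
      nlinarith [sq_nonneg (y - 1), sq_nonneg (y ^ 2), sq_nonneg y]
    calc √y ≤ 1 + y ^ 2 := this
      _ = 1 + δ ^ 2 * ‖ξ‖ ^ 2 := by rw [hy]; ring
  have h3 : -(π * ξ 0 ^ 2 + π * δ ^ 2 * ξ 1 ^ 2 + π * δ ^ 2 * ξ 2 ^ 2) ≤
      1 + -ξ 0 ^ 2 + -(√δ * √‖ξ‖) := by
    rw [norm_sq_three] at h2
    have hδ4 : δ ^ 2 ≤ 1 / 4 := by nlinarith
    nlinarith [mul_nonneg (sq_nonneg (ξ 0)) (by nlinarith : (0 : ℝ) ≤ π - δ ^ 2 - 1),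
      mul_nonneg (mul_nonneg (sq_nonneg δ) (sq_nonneg (ξ 1))) (by linarith : (0 : ℝ) ≤ π - 1),
      mul_nonneg (mul_nonneg (sq_nonneg δ) (sq_nonneg (ξ 2))) (by linarith : (0 : ℝ) ≤ π - 1)]
  rw [e1]
  calc a * Real.exp (-(π * ξ 0 ^ 2 + π * δ ^ 2 * ξ 1 ^ 2 + π * δ ^ 2 * ξ 2 ^ 2))
      ≤ a * Real.exp (1 + -ξ 0 ^ 2 + -(√δ * √‖ξ‖)) :=
        mul_le_mul_of_nonneg_left (Real.exp_le_exp.2 h3) ha
    _ = a * (Real.exp 1 * Real.exp (-ξ 0 ^ 2) * Real.exp (-(√δ * √‖ξ‖))) := by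
        rw [Real.exp_add, Real.exp_add]
    _ ≤ a * (Real.exp 1 * H (ξ 0) * Real.exp (-(√δ * √‖ξ‖))) := by
        apply mul_le_mul_of_nonneg_left _ ha
        apply mul_le_mul_of_nonneg_right _ (Real.exp_pos _).le
        exact mul_le_mul_of_nonneg_left h1 (Real.exp_pos _).le
    _ = _ := by unfold W; ring

/-- The amplitude. -/
noncomputable def amp : ℝ := 1 / (8 * (Real.exp 1 * Real.exp 1) * C0)

lemma amp_pos : 0 < amp := by unfold amp; have := C0_pos; positivity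

lemma gw_data {δ : ℝ} (hδ : 0 < δ) (hδ2 : δ ≤ 1 / 2) :
    Data (√δ) (Real.exp 1 * amp) (gw amp δ) where
  mu := Real.sqrt_pos.2 hδ
  a0 := mul_nonneg (Real.exp_pos 1).le amp_pos.le
  small := by
    unfold amp
    have := C0_pos
    have he := Real.exp_pos 1
    apply le_of_eq
    field_simp
    norm_num
  meas := gw_meas _ _
  even := gw_even _ _
  bd := gw_bound amp_pos.le hδ hδ2

lemma gx_nonneg {a δ : ℝ} (ha : 0 ≤ a) (hδ : 0 < δ) (x : E) : 0 ≤ gx a δ x := by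
  unfold gx; positivity

lemma integrable_g1 {δ : ℝ} (hδ : 0 < δ) :
    Integrable fun r : ℝ => δ⁻¹ * Real.exp (-(π / δ ^ 2) * r ^ 2) :=
  (integrable_exp_neg_mul_sq (by positivity)).const_mul _

lemma integral_g1 {δ : ℝ} (hδ : 0 < δ) : ∫ r : ℝ, δ⁻¹ * Real.exp (-(π / δ ^ 2) * r ^ 2) = 1 := by
  rw [integral_const_mul, integral_gaussian]
  have hpi := Real.pi_pos
  have : π / (π / δ ^ 2) = δ ^ 2 := by field_simp
  rw [this, Real.sqrt_sq hδ.le]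
  exact inv_mul_cancel₀ hδ.ne'

lemma integrable_gx (a : ℝ) {δ : ℝ} (hδ : 0 < δ) : Integrable (gx a δ) := by
  refine integrable_prod3 (f := ![fun r => a * Real.exp (-π * r ^ 2),
    fun r => δ⁻¹ * Real.exp (-(π / δ ^ 2) * r ^ 2),
    fun r => δ⁻¹ * Real.exp (-(π / δ ^ 2) * r ^ 2)]) fun i => ?_
  fin_cases i
  · exact (integrable_exp_neg_mul_sq Real.pi_pos).const_mul _
  · exact integrable_g1 hδ
  · exact integrable_g1 hδ

lemma integral_gx (a : ℝ) {δ : ℝ} (hδ : 0 < δ) : ∫ x, gx a δ x = a := by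
  have h := integral_prod3 ![fun r => a * Real.exp (-π * r ^ 2),
    fun r => δ⁻¹ * Real.exp (-(π / δ ^ 2) * r ^ 2),
    fun r => δ⁻¹ * Real.exp (-(π / δ ^ 2) * r ^ 2)]
  have h1 : ∫ x, gx a δ x = (∫ r : ℝ, a * Real.exp (-π * r ^ 2)) *
      (∫ r : ℝ, δ⁻¹ * Real.exp (-(π / δ ^ 2) * r ^ 2)) *
      ∫ r : ℝ, δ⁻¹ * Real.exp (-(π / δ ^ 2) * r ^ 2) := h
  rw [h1, integral_g1 hδ, integral_const_mul, integral_gaussian, div_self Real.pi_ne_zero]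
  simp

lemma gx_continuous (a δ : ℝ) : Continuous (gx a δ) := by
  unfold gx; fun_prop

lemma gx_le_gauss {a δ : ℝ} (ha : 0 ≤ a) (hδ : 0 < δ) (hδ2 : δ ≤ 1 / 2) (x : E) :
    gx a δ x ≤ a * δ⁻¹ * δ⁻¹ * Real.exp (-π * ‖x‖ ^ 2) := by
  have hpi := Real.pi_pos
  have h1 : π ≤ π / δ ^ 2 := by
    rw [le_div_iff₀ (by positivity)]
    nlinarith [mul_le_mul_of_nonneg_left (by nlinarith : δ ^ 2 ≤ 1) hpi.le]
  have e : gx a δ x = a * δ⁻¹ * δ⁻¹ *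
      Real.exp (-π * x 0 ^ 2 + -(π / δ ^ 2) * x 1 ^ 2 + -(π / δ ^ 2) * x 2 ^ 2) := by
    unfold gx
    rw [Real.exp_add, Real.exp_add]
    ring
  rw [e]
  apply mul_le_mul_of_nonneg_left _ (by positivity)
  apply Real.exp_le_exp.2
  rw [norm_sq_three]
  nlinarith [mul_le_mul_of_nonneg_right h1 (sq_nonneg (x 1)),
    mul_le_mul_of_nonneg_right h1 (sq_nonneg (x 2))]

lemma gx_moment {a δ : ℝ} (ha : 0 ≤ a) (hδ : 0 < δ) (hδ2 : δ ≤ 1 / 2) :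
    Integrable fun x : E => ‖x‖ ^ 2 * gx a δ x := by
  have hpi := Real.pi_pos
  have h := (integrable_gauss (by positivity : 0 < π / 2)).const_mul (2 / π * (a * δ⁻¹ * δ⁻¹))
  refine Integrable.mono' h ?_ (Eventually.of_forall fun x => ?_)
  · exact ((by fun_prop : Continuous fun x : E => ‖x‖ ^ 2).mul (gx_continuous a δ)).aestronglyMeasurable
  rw [Real.norm_of_nonneg (mul_nonneg (by positivity) (gx_nonneg ha hδ x))]
  have h1 := gx_le_gauss ha hδ hδ2 x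
  have e1 : Real.exp (-π * ‖x‖ ^ 2) = Real.exp (-(π / 2) * ‖x‖ ^ 2) * Real.exp (-(π / 2) * ‖x‖ ^ 2) := by
    rw [← Real.exp_add]; congr 1; ring
  have e2 : ‖x‖ ^ 2 * Real.exp (-(π / 2) * ‖x‖ ^ 2) ≤ 2 / π := by
    have e3 : Real.exp (-(π / 2) * ‖x‖ ^ 2) * Real.exp ((π / 2) * ‖x‖ ^ 2) = 1 := by
      rw [← Real.exp_add]; simp
    have e4 := Real.add_one_le_exp ((π / 2) * ‖x‖ ^ 2)
    have e5 : ‖x‖ ^ 2 ≤ 2 / π * Real.exp ((π / 2) * ‖x‖ ^ 2) := by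
      calc ‖x‖ ^ 2 = 2 / π * ((π / 2) * ‖x‖ ^ 2) := by field_simp
        _ ≤ 2 / π * Real.exp ((π / 2) * ‖x‖ ^ 2) :=
            mul_le_mul_of_nonneg_left (by linarith) (by positivity)
    calc ‖x‖ ^ 2 * Real.exp (-(π / 2) * ‖x‖ ^ 2)
        ≤ (2 / π * Real.exp ((π / 2) * ‖x‖ ^ 2)) * Real.exp (-(π / 2) * ‖x‖ ^ 2) :=
          mul_le_mul_of_nonneg_right e5 (Real.exp_pos _).le
      _ = 2 / π * (Real.exp (-(π / 2) * ‖x‖ ^ 2) * Real.exp ((π / 2) * ‖x‖ ^ 2)) := by ring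
      _ = 2 / π := by rw [e3, mul_one]
  calc ‖x‖ ^ 2 * gx a δ x ≤ ‖x‖ ^ 2 * (a * δ⁻¹ * δ⁻¹ * Real.exp (-π * ‖x‖ ^ 2)) :=
        mul_le_mul_of_nonneg_left h1 (by positivity)
    _ = (‖x‖ ^ 2 * Real.exp (-(π / 2) * ‖x‖ ^ 2)) * (a * δ⁻¹ * δ⁻¹) *
        Real.exp (-(π / 2) * ‖x‖ ^ 2) := by rw [e1]; ring
    _ ≤ (2 / π) * (a * δ⁻¹ * δ⁻¹) * Real.exp (-(π / 2) * ‖x‖ ^ 2) := by
        apply mul_le_mul_of_nonneg_right _ (Real.exp_pos _).le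
        exact mul_le_mul_of_nonneg_right e2 (by positivity)

lemma gx_le_const {a δ : ℝ} (ha : 0 ≤ a) (hδ : 0 < δ) (hδ2 : δ ≤ 1 / 2) (x : E) :
    gx a δ x ≤ a * δ⁻¹ * δ⁻¹ := by
  refine (gx_le_gauss ha hδ hδ2 x).trans ?_
  have : Real.exp (-π * ‖x‖ ^ 2) ≤ 1 := by
    apply Real.exp_le_one_iff.2
    have : 0 ≤ π * ‖x‖ ^ 2 := by positivity
    linarith
  calc a * δ⁻¹ * δ⁻¹ * Real.exp (-π * ‖x‖ ^ 2) ≤ a * δ⁻¹ * δ⁻¹ * 1 :=
        mul_le_mul_of_nonneg_left this (by positivity)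
    _ = _ := mul_one _

end H459R3.KS
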