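import Pool.Agent.H459R3.KS.Datum

/-!
The interaction energy of the Gaussian filament.
-/

set_option autoImplicit false

open MeasureTheory Set Filter Topology
open scoped InnerProductSpace Real FourierTransform

namespace H459R3.KS

lemma inv_le_aux {r h : ℝ} (hr0 : 0 ≤ r) (hh : r ≤ 1 → 1 / r ^ 2 ≤ h) (h0 : 0 ≤ h) :
    1 / r ≤ 1 + h := by
  rcases hr0.eq_or_lt with h1 | h1
  · rw [← h1]; simp; linarith
  rcases le_total r 1 with h2 | h2
  · have h3 := hh h2
    have h4 : 1 / r ≤ 1 / r ^ 2 := by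
      apply one_div_le_one_div_of_le (by positivity)
      nlinarith
    linarith
  · have : 1 / r ≤ 1 := by rw [div_le_one h1]; exact h2
    linarith

lemma pot1_integrable {n : E → ℝ} (hn : Integrable n) {M : ℝ} (hM : ∀ y, |n y| ≤ M) :
    ∃ B, 0 ≤ B ∧ ∀ x, Integrable (fun y => n y / ‖x - y‖) ∧ |∫ y, n y / ‖x - y‖| ≤ B := by
  obtain ⟨hh, hhi, hh0, hhb⟩ := inv_sq_bound
  have hM0 : 0 ≤ M := (abs_nonneg _).trans (hM 0)
  have hI1 : 0 ≤ ∫ z, hh z := integral_nonneg hh0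
  have hI2 : 0 ≤ ∫ y, |n y| := integral_nonneg fun y => abs_nonneg _
  refine ⟨M * (∫ z, hh z) + ∫ y, |n y|, by positivity, fun x => ?_⟩
  have i1 : Integrable fun y => M * hh (x - y) + |n y| :=
    ((hhi.comp_sub_left x).const_mul M).add hn.abs
  have hb : ∀ᵐ y : E, ‖n y / ‖x - y‖‖ ≤ M * hh (x - y) + |n y| := by
    filter_upwards [ae_sub_left x hhb] with y hy
    have h1 := inv_le_aux (norm_nonneg (x - y)) hy (hh0 _)
    rw [Real.norm_eq_abs, abs_div, abs_of_nonneg (norm_nonneg (x - y))]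
    calc |n y| / ‖x - y‖ = |n y| * (1 / ‖x - y‖) := by ring
      _ ≤ |n y| * (1 + hh (x - y)) := mul_le_mul_of_nonneg_left h1 (abs_nonneg _)
      _ = |n y| + |n y| * hh (x - y) := by ring
      _ ≤ |n y| + M * hh (x - y) := by
          have := mul_le_mul_of_nonneg_right (hM y) (hh0 (x - y))
          linarith
      _ = _ := by ring
  constructor
  · refine Integrable.mono' i1 ?_ hb
    exact (hn.aestronglyMeasurable.aemeasurable.div
      (by fun_prop : Measurable fun y : E => ‖x - y‖).aemeasurable).aestronglyMeasurable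
  · rw [← Real.norm_eq_abs]
    refine (norm_integral_le_of_norm_le i1 hb).trans (le_of_eq ?_)
    rw [integral_add ((hhi.comp_sub_left x).const_mul M) hn.abs, integral_const_mul,
      integral_sub_left_eq_self]

lemma log_bound {δ : ℝ} (hδ : 0 < δ) {x : ℝ} (hx : x ∈ Icc (-(1 / 2) : ℝ) 0) :
    Real.log (1 / (8 * δ)) ≤
      ∫ r, (Icc (-(1 / 2) : ℝ) (1 / 2)).indicator (fun r => 1 / (|x - r| + 4 * δ)) r := by
  have hcont : Continuous fun r : ℝ => 1 / (|x - r| + 4 * δ) :=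
    continuous_const.div (by fun_prop) fun r => by positivity
  have hi : IntegrableOn (fun r : ℝ => 1 / (|x - r| + 4 * δ)) (Icc (-(1 / 2) : ℝ) (1 / 2)) :=
    hcont.integrableOn_Icc
  rw [integral_indicator measurableSet_Icc]
  have h1 : ∫ r in Icc x (x + 1 / 2), 1 / (|x - r| + 4 * δ) ≤
      ∫ r in Icc (-(1 / 2) : ℝ) (1 / 2), 1 / (|x - r| + 4 * δ) := by
    refine setIntegral_mono_set hi ?_ ?_
    · exact Eventually.of_forall fun r => by positivity
    · exact (Icc_subset_Icc hx.1 (by linarith [hx.2])).eventuallyLE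
  refine le_trans ?_ h1
  rw [integral_Icc_eq_integral_Ioc, ← intervalIntegral.integral_of_le (by linarith)]
  have h2 : ∫ r in x..(x + 1 / 2), 1 / (|x - r| + 4 * δ) =
      Real.log (x + 1 / 2 - x + 4 * δ) - Real.log (x - x + 4 * δ) := by
    refine intervalIntegral.integral_eq_sub_of_hasDerivAt (f := fun r => Real.log (r - x + 4 * δ))
      (fun r hr => ?_) (hcont.intervalIntegrable _ _)
    rw [uIcc_of_le (by linarith)] at hr
    have h3 : 0 < r - x + 4 * δ := by linarith [hr.1]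
    have h4 : HasDerivAt (fun r : ℝ => r - x + 4 * δ) 1 r :=
      ((hasDerivAt_id r).sub_const x).add_const (4 * δ)
    have h5 := h4.log h3.ne'
    convert! h5 using 1
    rw [abs_sub_comm, abs_of_nonneg (by linarith [hr.1] : 0 ≤ r - x)]
  rw [h2]
  have e1 : x + 1 / 2 - x + 4 * δ = 1 / 2 + 4 * δ := by ring
  have e2 : x - x + 4 * δ = 4 * δ := by ring
  rw [e1, e2, ← Real.log_div (by positivity) (by positivity)]
  apply Real.log_le_log (by positivity)
  rw [div_le_div_iff₀ (by positivity) (by positivity)]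
  nlinarith

/-- Indicator of an interval. -/
noncomputable def ci (s t r : ℝ) : ℝ := (Icc s t).indicator (fun _ => (1 : ℝ)) r

lemma ci_nonneg (s t r : ℝ) : 0 ≤ ci s t r := indicator_nonneg (fun _ _ => zero_le_one) r

lemma ci_integrable (s t : ℝ) : Integrable (ci s t) :=
  (integrable_indicator_iff measurableSet_Icc).2 (continuous_const.integrableOn_Icc)

lemma ci_integral {s t : ℝ} (h : s ≤ t) : ∫ r, ci s t r = t - s := by
  unfold ci
  rw [integral_indicator measurableSet_Icc, setIntegral_const, Measure.real, Real.volume_Icc,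
    ENNReal.toReal_ofReal (by linarith)]
  simp

lemma gx_core {a δ : ℝ} (ha : 0 ≤ a) (hδ : 0 < δ) {x : E} (h0 : |x 0| ≤ 1 / 2) (h1 : |x 1| ≤ δ)
    (h2 : |x 2| ≤ δ) :
    a * δ⁻¹ * δ⁻¹ * Real.exp (-(9 * π / 4)) ≤ gx a δ x := by
  have hpi := Real.pi_pos
  have e : gx a δ x = a * δ⁻¹ * δ⁻¹ *
      Real.exp (-π * x 0 ^ 2 + -(π / δ ^ 2) * x 1 ^ 2 + -(π / δ ^ 2) * x 2 ^ 2) := by
    unfold gx
    rw [Real.exp_add, Real.exp_add]
    ring
  rw [e]
  apply mul_le_mul_of_nonneg_left _ (by positivity)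
  apply Real.exp_le_exp.2
  have s0 : x 0 ^ 2 ≤ 1 / 4 := by
    have := sq_le_sq' (by linarith [abs_nonneg (x 0)]) h0
    rw [sq_abs] at this; linarith
  have s1 : x 1 ^ 2 ≤ δ ^ 2 := by
    have := sq_le_sq' (by linarith [abs_nonneg (x 1)]) h1
    rwa [sq_abs] at this
  have s2 : x 2 ^ 2 ≤ δ ^ 2 := by
    have := sq_le_sq' (by linarith [abs_nonneg (x 2)]) h2
    rwa [sq_abs] at this
  have t1 : π / δ ^ 2 * x 1 ^ 2 ≤ π := by
    rw [div_mul_eq_mul_div, div_le_iff₀ (by positivity)]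
    exact mul_le_mul_of_nonneg_left s1 hpi.le
  have t2 : π / δ ^ 2 * x 2 ^ 2 ≤ π := by
    rw [div_mul_eq_mul_div, div_le_iff₀ (by positivity)]
    exact mul_le_mul_of_nonneg_left s2 hpi.le
  have t0 : π * x 0 ^ 2 ≤ π * (1 / 4) := mul_le_mul_of_nonneg_left s0 hpi.le
  linarith

lemma norm_le_three (z : E) : ‖z‖ ≤ |z 0| + |z 1| + |z 2| := by
  rw [← abs_of_nonneg (norm_nonneg z)]
  apply abs_le_of_sq_le_sq _ (by positivity)
  rw [norm_sq_three, ← sq_abs (z 0), ← sq_abs (z 1), ← sq_abs (z 2)]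
  nlinarith [mul_nonneg (abs_nonneg (z 0)) (abs_nonneg (z 1)),
    mul_nonneg (abs_nonneg (z 0)) (abs_nonneg (z 2)), mul_nonneg (abs_nonneg (z 1)) (abs_nonneg (z 2))]

/-- The core of the filament. -/
noncomputable def core (s δ : ℝ) (x : E) : ℝ := ci (-(1 / 2)) s (x 0) * ci (-δ) δ (x 1) * ci (-δ) δ (x 2)

lemma core_nonneg (s δ : ℝ) (x : E) : 0 ≤ core s δ x :=
  mul_nonneg (mul_nonneg (ci_nonneg _ _ _) (ci_nonneg _ _ _)) (ci_nonneg _ _ _)

lemma core_integrable (s δ : ℝ) : Integrable (core s δ) := by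
  refine integrable_prod3 (f := ![ci (-(1 / 2)) s, ci (-δ) δ, ci (-δ) δ]) fun i => ?_
  fin_cases i <;> exact ci_integrable _ _

lemma core_integral {s δ : ℝ} (hs : -(1 / 2) ≤ s) (hδ : 0 < δ) :
    ∫ x, core s δ x = (s + 1 / 2) * (2 * δ) * (2 * δ) := by
  have h : ∫ x, core s δ x = (∫ r, ci (-(1 / 2)) s r) * (∫ r, ci (-δ) δ r) * ∫ r, ci (-δ) δ r :=
    integral_prod3 ![ci (-(1 / 2)) s, ci (-δ) δ, ci (-δ) δ]
  rw [h, ci_integral hs, ci_integral (by linarith)]
  ring

lemma inner_lower {a δ : ℝ} (ha : 0 < a) (hδ : 0 < δ) (hδ2 : δ ≤ 1 / 2) {x : E}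
    (h0 : x 0 ∈ Icc (-(1 / 2) : ℝ) 0) (h1 : |x 1| ≤ δ) (h2 : |x 2| ≤ δ)
    (hint : Integrable fun y => gx a δ y / ‖x - y‖) :
    (a * δ⁻¹ * δ⁻¹ * Real.exp (-(9 * π / 4))) * (Real.log (1 / (8 * δ)) * (2 * δ) * (2 * δ)) ≤
      ∫ y, gx a δ y / ‖x - y‖ := by
  set κ := a * δ⁻¹ * δ⁻¹ * Real.exp (-(9 * π / 4)) with hκ
  have hκ0 : 0 ≤ κ := by positivity
  set f0 : ℝ → ℝ := (Icc (-(1 / 2) : ℝ) (1 / 2)).indicator (fun r => 1 / (|x 0 - r| + 4 * δ)) with hf0
  have hcont : Continuous fun r : ℝ => 1 / (|x 0 - r| + 4 * δ) :=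
    continuous_const.div (by fun_prop) fun r => by positivity
  have if0 : Integrable f0 := (integrable_indicator_iff measurableSet_Icc).2 hcont.integrableOn_Icc
  have il : Integrable fun y : E => f0 (y 0) * ci (-δ) δ (y 1) * ci (-δ) δ (y 2) := by
    refine integrable_prod3 (f := ![f0, ci (-δ) δ, ci (-δ) δ]) fun i => ?_
    fin_cases i
    · exact if0
    · exact ci_integrable _ _
    · exact ci_integrable _ _
  have vl : ∫ y : E, f0 (y 0) * ci (-δ) δ (y 1) * ci (-δ) δ (y 2) =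
      (∫ r, f0 r) * (2 * δ) * (2 * δ) := by
    have h : ∫ y : E, f0 (y 0) * ci (-δ) δ (y 1) * ci (-δ) δ (y 2) =
      (∫ r, f0 r) * (∫ r, ci (-δ) δ r) * ∫ r, ci (-δ) δ r :=
      integral_prod3 ![f0, ci (-δ) δ, ci (-δ) δ]
    rw [h, ci_integral (by linarith)]
    ring
  have hpt : ∀ᵐ y : E, κ * (f0 (y 0) * ci (-δ) δ (y 1) * ci (-δ) δ (y 2)) ≤ gx a δ y / ‖x - y‖ := by
    filter_upwards [ae_ne x] with y hy
    have hr : 0 < ‖x - y‖ := norm_pos_iff.2 (sub_ne_zero.2 hy.symm)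
    have hg0 := gx_nonneg ha.le hδ y
    by_cases c0 : y 0 ∈ Icc (-(1 / 2) : ℝ) (1 / 2)
    swap
    · have : f0 (y 0) = 0 := indicator_of_notMem c0 _
      rw [this]; simp; positivity
    by_cases c1 : y 1 ∈ Icc (-δ) δ
    swap
    · have : ci (-δ) δ (y 1) = 0 := indicator_of_notMem c1 _
      rw [this]; simp; positivity
    by_cases c2 : y 2 ∈ Icc (-δ) δ
    swap
    · have : ci (-δ) δ (y 2) = 0 := indicator_of_notMem c2 _
      rw [this]; simp; positivity
    have v0 : f0 (y 0) = 1 / (|x 0 - y 0| + 4 * δ) := indicator_of_mem c0 _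
    have v1 : ci (-δ) δ (y 1) = 1 := indicator_of_mem c1 _
    have v2 : ci (-δ) δ (y 2) = 1 := indicator_of_mem c2 _
    rw [v0, v1, v2, mul_one, mul_one, mul_one_div]
    have hk : κ ≤ gx a δ y :=
      gx_core ha.le hδ (abs_le.2 c0) (abs_le.2 c1) (abs_le.2 c2)
    have hd : ‖x - y‖ ≤ |x 0 - y 0| + 4 * δ := by
      have h3 := norm_le_three (x - y)
      have e0 : (x - y) 0 = x 0 - y 0 := rfl
      have e1 : (x - y) 1 = x 1 - y 1 := rfl
      have e2 : (x - y) 2 = x 2 - y 2 := rfl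
      rw [e0, e1, e2] at h3
      have h4 : |x 1 - y 1| ≤ 2 * δ := by
        have := abs_sub (x 1) (y 1)
        have := abs_le.2 c1
        linarith
      have h5 : |x 2 - y 2| ≤ 2 * δ := by
        have := abs_sub (x 2) (y 2)
        have := abs_le.2 c2
        linarith
      linarith
    exact div_le_div₀ hg0 hk hr hd
  calc κ * (Real.log (1 / (8 * δ)) * (2 * δ) * (2 * δ))
      ≤ κ * ((∫ r, f0 r) * (2 * δ) * (2 * δ)) := by
        apply mul_le_mul_of_nonneg_left _ hκ0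
        apply mul_le_mul_of_nonneg_right _ (by positivity)
        apply mul_le_mul_of_nonneg_right _ (by positivity)
        exact log_bound hδ h0
    _ = ∫ y : E, κ * (f0 (y 0) * ci (-δ) δ (y 1) * ci (-δ) δ (y 2)) := by
        rw [integral_const_mul, vl]
    _ ≤ ∫ y, gx a δ y / ‖x - y‖ := integral_mono_ae (il.const_mul κ) hint hpt

lemma energy_lower {a δ : ℝ} (ha : 0 < a) (hδ : 0 < δ) (hδ2 : δ ≤ 1 / 8) :
    8 * a ^ 2 * Real.exp (-(9 * π / 2)) * Real.log (1 / (8 * δ)) ≤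
      ∫ x, ∫ y, gx a δ x * gx a δ y / ‖x - y‖ ^ (3 - 2) := by
  have hδ3 : δ ≤ 1 / 2 := by linarith
  have hM : ∀ y, |gx a δ y| ≤ a * δ⁻¹ * δ⁻¹ := fun y => by
    rw [abs_of_nonneg (gx_nonneg ha.le hδ y)]; exact gx_le_const ha.le hδ hδ3 y
  obtain ⟨B, hB, hpot⟩ := pot1_integrable (integrable_gx a hδ) hM
  set κ := a * δ⁻¹ * δ⁻¹ * Real.exp (-(9 * π / 4)) with hκ
  have hκ0 : 0 ≤ κ := by positivity
  have hL : 0 ≤ Real.log (1 / (8 * δ)) := by
    apply Real.log_nonneg
    rw [le_div_iff₀ (by positivity)]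
    linarith
  have e1 : ∀ x, ∫ y, gx a δ x * gx a δ y / ‖x - y‖ ^ (3 - 2) =
      gx a δ x * ∫ y, gx a δ y / ‖x - y‖ := by
    intro x
    rw [← integral_const_mul]
    congr with y
    norm_num
    ring
  simp_rw [e1]
  have hPi : Integrable fun x => gx a δ x * ∫ y, gx a δ y / ‖x - y‖ := by
    refine (integrable_gx a hδ).mul_bdd (c := B) ?_ ?_
    · have hm : StronglyMeasurable (Function.uncurry fun (x y : E) => gx a δ y / ‖x - y‖) := by
        have m1 : Measurable fun p : E × E => gx a δ p.2 :=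
          (gx_continuous a δ).measurable.comp measurable_snd
        exact (m1.div (by fun_prop : Measurable fun p : E × E => ‖p.1 - p.2‖)).stronglyMeasurable
      exact (hm.integral_prod_right (ν := volume)).aestronglyMeasurable
    · exact Eventually.of_forall fun x => by rw [Real.norm_eq_abs]; exact (hpot x).2
  have hlow : ∀ x, (κ * (κ * (Real.log (1 / (8 * δ)) * (2 * δ) * (2 * δ)))) * core 0 δ x ≤
      gx a δ x * ∫ y, gx a δ y / ‖x - y‖ := by
    intro x
    have hg0 := gx_nonneg ha.le hδ x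
    have hp0 : 0 ≤ ∫ y, gx a δ y / ‖x - y‖ :=
      integral_nonneg fun y => div_nonneg (gx_nonneg ha.le hδ y) (norm_nonneg _)
    by_cases c0 : x 0 ∈ Icc (-(1 / 2) : ℝ) 0
    swap
    · have : ci (-(1 / 2)) 0 (x 0) = 0 := indicator_of_notMem c0 _
      unfold core
      rw [this]; simp; positivity
    by_cases c1 : x 1 ∈ Icc (-δ) δ
    swap
    · have : ci (-δ) δ (x 1) = 0 := indicator_of_notMem c1 _
      unfold core
      rw [this]; simp; positivity
    by_cases c2 : x 2 ∈ Icc (-δ) δ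
    swap
    · have : ci (-δ) δ (x 2) = 0 := indicator_of_notMem c2 _
      unfold core
      rw [this]; simp; positivity
    have v0 : ci (-(1 / 2)) 0 (x 0) = 1 := indicator_of_mem c0 _
    have v1 : ci (-δ) δ (x 1) = 1 := indicator_of_mem c1 _
    have v2 : ci (-δ) δ (x 2) = 1 := indicator_of_mem c2 _
    unfold core
    rw [v0, v1, v2, mul_one, mul_one, mul_one]
    have h1 := inner_lower ha hδ hδ3 c0 (abs_le.2 c1) (abs_le.2 c2) (hpot x).1
    have h2 : κ ≤ gx a δ x :=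
      gx_core ha.le hδ (abs_le.2 ⟨c0.1, c0.2.trans (by norm_num)⟩) (abs_le.2 c1) (abs_le.2 c2)
    exact mul_le_mul h2 h1 (by positivity) hg0
  have hfin := integral_mono ((core_integrable 0 δ).const_mul
    (κ * (κ * (Real.log (1 / (8 * δ)) * (2 * δ) * (2 * δ))))) hPi hlow
  refine le_trans (le_of_eq ?_) hfin
  rw [integral_const_mul, core_integral (by norm_num) hδ]
  have e2 : κ * δ * δ = a * Real.exp (-(9 * π / 4)) := by
    rw [hκ]
    field_simp
  have e3 : Real.exp (-(9 * π / 2)) = Real.exp (-(9 * π / 4)) * Real.exp (-(9 * π / 4)) := by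
    rw [← Real.exp_add]; congr 1; ring
  calc 8 * a ^ 2 * Real.exp (-(9 * π / 2)) * Real.log (1 / (8 * δ))
      = 8 * (a * Real.exp (-(9 * π / 4))) * (a * Real.exp (-(9 * π / 4))) *
        Real.log (1 / (8 * δ)) := by rw [e3]; ring
    _ = 8 * (κ * δ * δ) * (κ * δ * δ) * Real.log (1 / (8 * δ)) := by rw [e2]
    _ = _ := by ring

end H459R3.KS
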