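import Pool.Agent.H459R3.KS.Energy

/-!
Final assembly for the Keller-Segel system.
-/

set_option autoImplicit false

open MeasureTheory Set Filter Topology
open scoped InnerProductSpace Real FourierTransform

namespace H459R3.KS

lemma vol_ball : (volume (Metric.ball (0 : E) 1)).toReal = π * 4 / 3 := by
  rw [EuclideanSpace.volume_ball_fin_three]
  rw [ENNReal.ofReal_one, one_pow, one_mul, ENNReal.toReal_ofReal (by positivity)]

lemma bb_eq {g : E → ℝ} (hg : Prof g) {n : E → ℝ} (hn : n = fun y => (Ft g y).re)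
    (hni : Integrable n) {M : ℝ} (hM : ∀ y, |n y| ≤ M) (x : E) :
    (-(1 / (((3 : ℕ) : ℝ) * (volume (Metric.ball (0 : E) 1)).toReal))) •
      ∫ y, (n y / ‖x - y‖ ^ 3) • (x - y) = bb g x := by
  have hint : Integrable fun y => (n y / ‖x - y‖ ^ 3) • (x - y) := by
    refine Integrable.mono (pot_integrable hni hM x) ?_ ?_
    · have m1 : AEStronglyMeasurable (fun y : E => n y / ‖x - y‖ ^ 3) volume :=
        (hni.aestronglyMeasurable.aemeasurable.div
          (by fun_prop : Measurable fun y : E => ‖x - y‖ ^ 3).aemeasurable).aestronglyMeasurable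
      exact m1.smul (by fun_prop : Continuous fun y : E => x - y).aestronglyMeasurable
    · refine Eventually.of_forall fun y => ?_
      rw [norm_smul, Real.norm_eq_abs, Real.norm_eq_abs, abs_div, abs_div,
        abs_of_nonneg (by positivity : (0 : ℝ) ≤ ‖x - y‖ ^ 3),
        abs_of_nonneg (by positivity : (0 : ℝ) ≤ ‖x - y‖ ^ 2)]
      rcases eq_or_ne (x - y) 0 with hz | hz
      · rw [hz]; simp
      have hr : 0 < ‖x - y‖ := norm_pos_iff.2 hz
      apply le_of_eq
      field_simp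
  ext i
  have h1 : (∫ y, (n y / ‖x - y‖ ^ 3) • (x - y)) i = ∫ y, n y / ‖x - y‖ ^ 3 * (x - y) i := by
    have := (EuclideanSpace.proj i : E →L[ℝ] ℝ).integral_comp_comm hint
    exact this.symm
  have h2 : ∫ y, n y / ‖x - y‖ ^ 3 * (x - y) i = (-(2 * Complex.I) * Ft (Bi g i) x).re := by
    subst hn
    exact riesz hg hni hM x i
  have h3 : ((-(1 / (((3 : ℕ) : ℝ) * (volume (Metric.ball (0 : E) 1)).toReal))) •
      ∫ y, (n y / ‖x - y‖ ^ 3) • (x - y)) i =
      (-(1 / (((3 : ℕ) : ℝ) * (volume (Metric.ball (0 : E) 1)).toReal))) *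
        (∫ y, (n y / ‖x - y‖ ^ 3) • (x - y)) i := rfl
  have h4 : (bb g x) i = (Complex.I / (2 * π) * Ft (Bi g i) x).re := rfl
  rw [h3, h1, h2, h4, vol_ball, ← Complex.re_ofReal_mul]
  congr 1
  rw [← mul_assoc]
  congr 1
  push_cast
  have hp : (π : ℂ) ≠ 0 := by exact_mod_cast Real.pi_ne_zero
  field_simp
  norm_num

/-- There is a filament whose second moment is initially decreasing and whose solution is
global. -/
theorem main : ∃ n0 : E → ℝ, Continuous n0 ∧ (∀ x, 0 ≤ n0 x) ∧ (∃ C : ℝ, ∀ x, n0 x ≤ C) ∧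
    Integrable n0 ∧ Integrable (fun x => ‖x‖ ^ 2 * n0 x) ∧
    (∫ x, ∫ y, n0 x * n0 y / ‖x - y‖ ^ (3 - 2)) >
        2 * ((3 : ℕ) : ℝ) * (∫ x, n0 x) *
          (((3 : ℕ) : ℝ) * (volume (Metric.ball (0 : E) 1)).toReal) ∧
    ∃ n : ℝ → E → ℝ,
          n 0 = n0 ∧
          ContinuousOn (fun p : ℝ × E => n p.1 p.2)
            (Set.Ici (0 : ℝ) ×ˢ Set.univ) ∧
          ContDiffOn ℝ 2 (fun p : ℝ × E => n p.1 p.2)
            (Set.Ioi (0 : ℝ) ×ˢ Set.univ) ∧
          (∀ t : ℝ, 0 ≤ t → Integrable (n t)) ∧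
          (∀ T : ℝ, 0 < T → ∃ C : ℝ, ∀ t ∈ Set.Icc (0 : ℝ) T, ∀ x, |n t x| ≤ C) ∧
          (∀ t : ℝ, 0 < t → ∀ x : E,
            deriv (fun s => n s x) t =
              (∑ i : Fin 3, iteratedFDeriv ℝ 2 (n t) x
                  ![EuclideanSpace.single i (1 : ℝ), EuclideanSpace.single i (1 : ℝ)])
              - fderiv ℝ (n t) x
                  ((-(1 / (((3 : ℕ) : ℝ) *
                      (volume (Metric.ball (0 : E) 1)).toReal))) •
                    ∫ y, (n t y / ‖x - y‖ ^ 3) • (x - y))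
              + n t x ^ 2) := by
  have ha := amp_pos
  set a := amp with hadef
  set c : ℝ := 8 * a ^ 2 * Real.exp (-(9 * π / 2)) with hc
  have hc0 : 0 < c := by positivity
  set Λ : ℝ := (24 * π * a + 1) / c with hΛ
  have hΛ0 : 0 < Λ := by positivity
  set δ : ℝ := Real.exp (-Λ) / 8 with hδd
  have hδ : 0 < δ := by positivity
  have hδ8 : δ ≤ 1 / 8 := by
    have : Real.exp (-Λ) ≤ 1 := Real.exp_le_one_iff.2 (by linarith)
    rw [hδd]; linarith
  have hδ2 : δ ≤ 1 / 2 := by linarith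
  have hlog : Real.log (1 / (8 * δ)) = Λ := by
    have : 1 / (8 * δ) = Real.exp Λ := by
      rw [hδd, Real.exp_neg]
      field_simp
    rw [this, Real.log_exp]
  have hD : Data (√δ) (Real.exp 1 * a) (gw a δ) := gw_data hδ hδ2
  have hnn0 : nn (gw a δ) 0 = gx a δ := by
    funext x
    unfold nn
    have e1 : sol (gw a δ) 0 = gw a δ := funext fun ξ => sol_zero hD ξ
    rw [e1, Ft_gw a hδ x, Complex.ofReal_re]
  have hpos : ∀ x, 0 ≤ nn (gw a δ) 0 x := fun x => by
    rw [hnn0]; exact gx_nonneg ha.le hδ x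
  refine ⟨gx a δ, gx_continuous a δ, gx_nonneg ha.le hδ, ⟨a * δ⁻¹ * δ⁻¹, gx_le_const ha.le hδ hδ2⟩,
    integrable_gx a hδ, gx_moment ha.le hδ hδ2, ?_, nn (gw a δ), hnn0, nn_continuousOn hD,
    nn_joint hD, fun t ht => nn_integrable hD hpos ht, fun T _ => ?_, fun t ht x => ?_⟩
  · have h1 := energy_lower ha hδ hδ8
    rw [hlog] at h1
    have h2 : c * Λ = 24 * π * a + 1 := by rw [hΛ]; field_simp
    rw [integral_gx a hδ, vol_ball]
    refine lt_of_lt_of_le ?_ h1
    rw [← hc, h2]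
    push_cast
    have : 2 * 3 * a * (3 * (π * 4 / 3)) = 24 * π * a := by ring
    linarith
  · obtain ⟨C, hC⟩ := nn_bounded hD
    exact ⟨C, fun t ht x => hC t ht.1 x⟩
  · obtain ⟨C, hC⟩ := nn_bounded hD
    have h1 := bb_eq (sol_prof hD ht.le) (n := nn (gw a δ) t) rfl (nn_integrable hD hpos ht.le)
      (hC t ht.le) x
    rw [h1]
    exact nn_pde hD ht x

end H459R3.KS
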