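import Pool.Agent.H459R3.KS.Pde

/-!
The density in physical space and its derivatives.
-/

set_option autoImplicit false

open MeasureTheory Set Filter Topology
open scoped InnerProductSpace Real

namespace H459R3.KS

lemma ee_neg (x ξ : E) : ee x (-ξ) = (starRingEnd ℂ) (ee x ξ) := by
  unfold ee
  rw [← Complex.exp_conj, inner_neg_left]
  congr 1
  simp only [map_mul, Complex.conj_ofReal, Complex.conj_I, map_ofNat]
  push_cast
  ring

lemma Ft_even {g : E → ℝ} (h : ∀ ξ, g (-ξ) = g ξ) (x : E) :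
    (starRingEnd ℂ) (Ft g x) = Ft g x := by
  unfold Ft
  rw [← integral_conj, ← integral_neg_eq_self]
  congr with ξ
  rw [map_mul, Complex.conj_ofReal, ee_neg, h, Complex.conj_conj]

lemma Ft_odd {g : E → ℝ} (h : ∀ ξ, g (-ξ) = -g ξ) (x : E) :
    (starRingEnd ℂ) (Ft g x) = -Ft g x := by
  unfold Ft
  rw [← integral_conj, ← integral_neg_eq_self, ← integral_neg]
  congr with ξ
  rw [map_mul, Complex.conj_ofReal, ee_neg, h, Complex.conj_conj]
  push_cast
  ring

lemma Ft_even_re {g : E → ℝ} (h : ∀ ξ, g (-ξ) = g ξ) (x : E) :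
    Ft g x = (((Ft g x).re : ℝ) : ℂ) := (Complex.conj_eq_iff_re.1 (Ft_even h x)).symm

lemma Ft_odd_re {g : E → ℝ} (h : ∀ ξ, g (-ξ) = -g ξ) (x : E) : (Ft g x).re = 0 := by
  have := congrArg Complex.re (Ft_odd h x)
  rw [Complex.conj_re, Complex.neg_re] at this
  linarith

/-- The density. -/
noncomputable def nn (w0 : E → ℝ) (t : ℝ) (x : E) : ℝ := (Ft (sol w0 t) x).re

/-- The gradient of the potential. -/
noncomputable def bb (g : E → ℝ) (x : E) : E :=
  WithLp.toLp 2 fun i => (Complex.I / (2 * π) * Ft (Bi g i) x).re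

variable {μ₀ a : ℝ} {w0 : E → ℝ}

lemma sol_prof (h : Data μ₀ a w0) {t : ℝ} (ht : 0 ≤ t) : Prof (sol w0 t) := by
  have hε : 0 ≤ 2 * Real.exp 1 * a := by have := h.a0; positivity
  exact ⟨(sol_dom h).meas' t, 2 * Real.exp 1 * a, μ₀, hε, h.mu, fun ξ => sol_bd h ht ξ⟩

lemma Ft_x_der {f f' : ℝ → E → ℝ} (hf : Sym1 f f') {t : ℝ} (ht : 0 < t) (x : E) :
    HasFDerivAt (fun x => Ft (f t) x) (∑ i, (EuclideanSpace.proj i : E →L[ℝ] ℝ).smulRight
      (2 * π * Complex.I * Ft (Ai (f t) i) x)) x := by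
  have h1 := Z_der hf (p := (t, x)) ⟨ht, mem_univ _⟩
  have h2 : HasFDerivAt (fun x : E => ((t, x) : ℝ × E)) (ContinuousLinearMap.inr ℝ ℝ E) x :=
    hasFDerivAt_prodMk_right t x
  have h3 := h1.comp x h2
  have h4 : (Z f ∘ fun x : E => ((t, x) : ℝ × E)) = fun x => Ft (f t) x := rfl
  rw [h4] at h3
  convert! h3 using 1
  ext v
  simp only [ContinuousLinearMap.sum_apply, ContinuousLinearMap.smulRight_apply,
    ContinuousLinearMap.comp_apply, ContinuousLinearMap.inr_apply, DZ, ContinuousLinearMap.add_apply,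
    L0_apply, L1_apply, Complex.ofReal_zero, zero_mul, zero_add]
  refine Finset.sum_congr rfl fun i _ => ?_
  rfl

lemma Ft_t_der {f f' : ℝ → E → ℝ} (hf : Sym1 f f') {t : ℝ} (ht : 0 < t) (x : E) :
    HasDerivAt (fun s => Ft (f s) x) (Ft (f' t) x) t := by
  have h1 := Z_der hf (p := (t, x)) ⟨ht, mem_univ _⟩
  have h2 : HasDerivAt (fun s : ℝ => ((s, x) : ℝ × E)) ((1 : ℝ), (0 : E)) t :=
    (hasDerivAt_id t).prodMk (hasDerivAt_const t x)
  have h3 := h1.comp_hasDerivAt t h2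
  have h4 : (Z f ∘ fun s : ℝ => ((s, x) : ℝ × E)) = fun s => Ft (f s) x := rfl
  rw [h4] at h3
  convert! h3 using 1
  simp only [DZ, ContinuousLinearMap.add_apply, ContinuousLinearMap.sum_apply, L0_apply, L1_apply]
  simp
  rfl

lemma nn_joint (h : Data μ₀ a w0) :
    ContDiffOn ℝ 2 (fun p : ℝ × E => nn w0 p.1 p.2) (Ioi 0 ×ˢ univ) :=
  Complex.reCLM.contDiff.comp_contDiffOn (Z_C2 (sol_sym1 h) (w1_sym1 h))

lemma nn_t_der (h : Data μ₀ a w0) {t : ℝ} (ht : 0 < t) (x : E) :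
    deriv (fun s => nn w0 s x) t = (Ft (w1 w0 t) x).re :=
  (Complex.reCLM.hasFDerivAt.comp_hasDerivAt t (Ft_t_der (sol_sym1 h) ht x)).deriv

lemma re_x_der {f f' : ℝ → E → ℝ} (hf : Sym1 f f') {t : ℝ} (ht : 0 < t) (c : ℂ) (x : E) :
    HasFDerivAt (fun x => (c * Ft (f t) x).re)
      (∑ i, (c * (2 * π * Complex.I * Ft (Ai (f t) i) x)).re • (EuclideanSpace.proj i : E →L[ℝ] ℝ)) x := by
  have h1 := (Ft_x_der hf ht x).const_mul c
  have h2 := Complex.reCLM.hasFDerivAt.comp x h1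
  have h3 : (Complex.reCLM ∘ fun x => c * Ft (f t) x) = fun x => (c * Ft (f t) x).re := rfl
  rw [h3] at h2
  convert! h2 using 1
  ext v
  simp only [ContinuousLinearMap.sum_apply, ContinuousLinearMap.smul_apply,
    ContinuousLinearMap.comp_apply, ContinuousLinearMap.smulRight_apply, Finset.smul_sum,
    Complex.reCLM_apply, Complex.re_sum, smul_eq_mul]
  refine Finset.sum_congr rfl fun i _ => ?_
  have e1 : c * ((((EuclideanSpace.proj i : E →L[ℝ] ℝ) v : ℝ) : ℂ) *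
      (2 * π * Complex.I * Ft (Ai (f t) i) x)) = (((EuclideanSpace.proj i : E →L[ℝ] ℝ) v : ℝ) : ℂ) *
      (c * (2 * π * Complex.I * Ft (Ai (f t) i) x)) := by ring
  rw [Complex.real_smul, e1, Complex.re_ofReal_mul, mul_comm]

lemma nn_x_der (h : Data μ₀ a w0) {t : ℝ} (ht : 0 < t) (x : E) :
    HasFDerivAt (nn w0 t) (∑ i, (2 * π * Complex.I * Ft (Ai (sol w0 t) i) x).re •
      (EuclideanSpace.proj i : E →L[ℝ] ℝ)) x := by
  have := re_x_der (sol_sym1 h) ht 1 x
  simp only [one_mul] at this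
  exact this

lemma nn_fderiv (h : Data μ₀ a w0) {t : ℝ} (ht : 0 < t) :
    fderiv ℝ (nn w0 t) = fun x => ∑ i, (2 * π * Complex.I * Ft (Ai (sol w0 t) i) x).re •
      (EuclideanSpace.proj i : E →L[ℝ] ℝ) := by
  funext x
  exact (nn_x_der h ht x).fderiv

lemma nn_second (h : Data μ₀ a w0) {t : ℝ} (ht : 0 < t) (x : E) (j : Fin 3) :
    iteratedFDeriv ℝ 2 (nn w0 t) x ![EuclideanSpace.single j (1 : ℝ), EuclideanSpace.single j (1 : ℝ)] =
      (2 * π * Complex.I * (2 * π * Complex.I * Ft (Ai (Ai (sol w0 t) j) j) x)).re := by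
  rw [iteratedFDeriv_two_apply, nn_fderiv h ht]
  have h1 : ∀ i : Fin 3, HasFDerivAt (fun x => (2 * π * Complex.I * Ft (Ai (sol w0 t) i) x).re •
      (EuclideanSpace.proj i : E →L[ℝ] ℝ)) ((∑ k, (2 * π * Complex.I * (2 * π * Complex.I *
        Ft (Ai (Ai (sol w0 t) i) k) x)).re • (EuclideanSpace.proj k : E →L[ℝ] ℝ)).smulRight
      (EuclideanSpace.proj i : E →L[ℝ] ℝ)) x := by
    intro i
    have h2 := re_x_der ((sol_sym1 h).co i) ht (2 * π * Complex.I) x
    exact h2.smul_const (EuclideanSpace.proj i : E →L[ℝ] ℝ)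
  have h3 := HasFDerivAt.fun_sum (u := Finset.univ) fun i _ => h1 i
  rw [h3.fderiv]
  simp only [Matrix.cons_val_zero, Matrix.cons_val_one, ContinuousLinearMap.sum_apply,
    ContinuousLinearMap.smulRight_apply, ContinuousLinearMap.smul_apply, smul_eq_mul]
  fin_cases j <;> simp [Fin.sum_univ_three]

lemma nn_laplacian (h : Data μ₀ a w0) {t : ℝ} (ht : 0 < t) (x : E) :
    ∑ j : Fin 3, iteratedFDeriv ℝ 2 (nn w0 t) x
      ![EuclideanSpace.single j (1 : ℝ), EuclideanSpace.single j (1 : ℝ)] =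
      (Ft (fun ξ => -lam ξ * sol w0 t ξ) x).re := by
  simp_rw [nn_second h ht x]
  rw [← Complex.re_sum]
  congr 1
  have hp := sol_prof h ht.le
  have hi : ∀ j : Fin 3, Integrable fun ξ => ((Ai (Ai (sol w0 t) j) j ξ : ℝ) : ℂ) * ee x ξ := by
    intro j
    have hpj := (hp.Ai j).Ai j
    obtain ⟨C, μ, hC, hμ, hb⟩ := hpj.bd
    exact Z_integrable hpj.meas hμ hb x
  have e : ∀ j : Fin 3, (2 * π * Complex.I * (2 * π * Complex.I * Ft (Ai (Ai (sol w0 t) j) j) x)) =
      ∫ ξ, (-(4 * π ^ 2) : ℂ) * (((Ai (Ai (sol w0 t) j) j ξ : ℝ) : ℂ) * ee x ξ) := by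
    intro j
    rw [integral_const_mul]
    unfold Ft
    rw [← mul_assoc]
    congr 1
    have := Complex.I_sq
    linear_combination (4 * π ^ 2 : ℂ) * this
  simp_rw [e]
  rw [← integral_finset_sum _ fun j _ => (hi j).const_mul _]
  unfold Ft
  congr with ξ
  unfold Ai lam
  have hn : ‖ξ‖ ^ 2 = ξ 0 ^ 2 + ξ 1 ^ 2 + ξ 2 ^ 2 := by
    rw [EuclideanSpace.norm_sq_eq, Fin.sum_univ_three]
    simp
  beta_reduce
  rw [hn, Fin.sum_univ_three]
  push_cast
  ring

/-- The Keller-Segel equation, with the drift in Fourier form. -/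
lemma nn_pde (h : Data μ₀ a w0) {t : ℝ} (ht : 0 < t) (x : E) :
    deriv (fun s => nn w0 s x) t =
      (∑ j : Fin 3, iteratedFDeriv ℝ 2 (nn w0 t) x
        ![EuclideanSpace.single j (1 : ℝ), EuclideanSpace.single j (1 : ℝ)])
      - fderiv ℝ (nn w0 t) x (bb (sol w0 t) x) + nn w0 t x ^ 2 := by
  have hp := sol_prof h ht.le
  have hev : ∀ ξ, sol w0 t (-ξ) = sol w0 t ξ := fun ξ => sol_even h t ξ
  have hA : ∀ i ξ, Ai (sol w0 t) i (-ξ) = -Ai (sol w0 t) i ξ := by
    intro i ξ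
    unfold Ai
    rw [hev]
    simp
  have hB : ∀ i ξ, Bi (sol w0 t) i (-ξ) = -Bi (sol w0 t) i ξ := by
    intro i ξ
    unfold Bi
    rw [hev, norm_neg]
    simp
    ring
  rw [nn_t_der h ht x, nn_laplacian h ht x, nn_fderiv h ht]
  have h1 : Ft (w1 w0 t) x = Ft (fun ξ => -lam ξ * sol w0 t ξ) x +
      Ft (Q (sol w0 t) (sol w0 t)) x := by
    have s1 := (sol_sym0 h).mul_poly meas_neg_lam lam_poly
    have s2 := (sol_sym0 h).Q (sol_sym0 h)
    obtain ⟨C, μ, hC, hμ, hb⟩ := s1.bd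
    obtain ⟨C', μ', hC', hμ', hb'⟩ := s2.bd
    unfold Ft
    rw [← integral_add (Z_integrable (s1.meas t ht) hμ (hb t ht) x)
      (Z_integrable (s2.meas t ht) hμ' (hb' t ht) x)]
    congr with ξ
    unfold w1 qq
    push_cast
    ring
  rw [h1, Ft_Q hp x, Complex.add_re, Complex.add_re]
  beta_reduce
  have h2 : (Ft (sol w0 t) x ^ 2).re = nn w0 t x ^ 2 := by
    rw [Ft_even_re hev x]
    unfold nn
    rw [← Complex.ofReal_pow, Complex.ofReal_re]
  have h3 : (∑ i, Ft (Bi (sol w0 t) i) x * Ft (Ai (sol w0 t) i) x).re =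
      -(∑ i, (2 * π * Complex.I * Ft (Ai (sol w0 t) i) x).re •
      (EuclideanSpace.proj i : E →L[ℝ] ℝ)) (bb (sol w0 t) x) := by
    rw [Complex.re_sum]
    simp only [ContinuousLinearMap.sum_apply, ContinuousLinearMap.smul_apply, smul_eq_mul]
    rw [← Finset.sum_neg_distrib]
    refine Finset.sum_congr rfl fun i _ => ?_
    have e1 := Ft_odd_re (hA i) x
    have e2 := Ft_odd_re (hB i) x
    have e3 : (EuclideanSpace.proj i : E →L[ℝ] ℝ) (bb (sol w0 t) x) =
        (Complex.I / (2 * π) * Ft (Bi (sol w0 t) i) x).re := rfl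
    have e4 : (Complex.I / (2 * π) * Ft (Bi (sol w0 t) i) x).re =
        -(Ft (Bi (sol w0 t) i) x).im / (2 * π) := by
      have : (Complex.I / (2 * π) : ℂ) = ((1 / (2 * π) : ℝ) : ℂ) * Complex.I := by
        push_cast; ring
      rw [this, mul_assoc, Complex.re_ofReal_mul, Complex.I_mul_re]
      ring
    have e5 : (2 * π * Complex.I * Ft (Ai (sol w0 t) i) x).re =
        -(2 * π) * (Ft (Ai (sol w0 t) i) x).im := by
      have : (2 * π * Complex.I : ℂ) = ((2 * π : ℝ) : ℂ) * Complex.I := by push_cast; ring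
      rw [this, mul_assoc, Complex.re_ofReal_mul, Complex.I_mul_re]
      ring
    rw [e3, e4, e5, Complex.mul_re, e1, e2]
    have hpi : (2 * π) ≠ 0 := by positivity
    field_simp
    ring
  rw [h2, h3]
  ring

end H459R3.KS
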