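import Mathlib

/-!
Keller-Segel in Fourier variables: the symmetrised kernel, the weights and the convolution estimate.
-/

set_option autoImplicit false

open MeasureTheory Set Filter Topology
open scoped InnerProductSpace Real

namespace H459R3.KS

/-- Three dimensional Euclidean space. -/
abbrev E := EuclideanSpace ℝ (Fin 3)

/-- The symmetrised kernel of the nonlinearity. -/
noncomputable def S (ξ η : E) : ℝ :=
  (⟪ξ, η⟫_ℝ * ‖ξ - η‖ ^ 2 + ⟪ξ, ξ - η⟫_ℝ * ‖η‖ ^ 2) / (2 * ‖η‖ ^ 2 * ‖ξ - η‖ ^ 2)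

lemma S_bound (ξ η : E) : |S ξ η| ≤ ‖ξ‖ ^ 2 / (2 * ‖η‖ * ‖ξ - η‖) := by
  unfold S
  by_cases h1 : ‖η‖ = 0
  · simp [h1]
  by_cases h2 : ‖ξ - η‖ = 0
  · simp [h2]
  have h1' : 0 < ‖η‖ := lt_of_le_of_ne (norm_nonneg _) (Ne.symm h1)
  have h2' : 0 < ‖ξ - η‖ := lt_of_le_of_ne (norm_nonneg _) (Ne.symm h2)
  set z := ξ - η with hz
  have hξ : ξ = η + z := by simp [hz]
  have key : ⟪ξ, η⟫_ℝ * ‖z‖ ^ 2 + ⟪ξ, z⟫_ℝ * ‖η‖ ^ 2 = ⟪ξ, ‖z‖ ^ 2 • η + ‖η‖ ^ 2 • z⟫_ℝ := by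
    rw [inner_add_right, inner_smul_right, inner_smul_right]; ring
  have hn : ‖‖z‖ ^ 2 • η + ‖η‖ ^ 2 • z‖ ^ 2 = (‖η‖ * ‖z‖ * ‖ξ‖) ^ 2 := by
    have e1 : ‖ξ‖ ^ 2 = ‖η‖ ^ 2 + 2 * ⟪η, z⟫_ℝ + ‖z‖ ^ 2 := by
      rw [hξ]; exact norm_add_sq_real η z
    have e2 := norm_add_sq_real (‖z‖ ^ 2 • η) (‖η‖ ^ 2 • z)
    rw [e2, norm_smul, norm_smul, inner_smul_left, inner_smul_right, mul_pow, mul_pow, mul_pow,
      mul_pow, e1]
    simp only [norm_pow, norm_norm, conj_trivial]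
    ring
  have hn' : ‖‖z‖ ^ 2 • η + ‖η‖ ^ 2 • z‖ = ‖η‖ * ‖z‖ * ‖ξ‖ := by
    have := (pow_left_inj₀ (norm_nonneg _) (by positivity) two_ne_zero).1 hn
    exact this
  rw [key, abs_div, abs_of_pos (by positivity : (0 : ℝ) < 2 * ‖η‖ ^ 2 * ‖z‖ ^ 2),
    div_le_div_iff₀ (by positivity) (by positivity)]
  have := abs_real_inner_le_norm ξ (‖z‖ ^ 2 • η + ‖η‖ ^ 2 • z)
  rw [hn'] at this
  calc |⟪ξ, ‖z‖ ^ 2 • η + ‖η‖ ^ 2 • z⟫_ℝ| * (2 * ‖η‖ * ‖z‖)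
      ≤ (‖ξ‖ * (‖η‖ * ‖z‖ * ‖ξ‖)) * (2 * ‖η‖ * ‖z‖) := by gcongr
    _ = ‖ξ‖ ^ 2 * (2 * ‖η‖ ^ 2 * ‖z‖ ^ 2) := by ring

lemma S_symm (ξ η : E) : S ξ (ξ - η) = S ξ η := by
  unfold S
  rw [sub_sub_cancel]
  congr 1
  · ring
  · ring

lemma S_neg (ξ η : E) : S (-ξ) (-η) = S ξ η := by
  unfold S
  have : -ξ - -η = -(ξ - η) := by abel
  rw [this, inner_neg_neg, inner_neg_neg, norm_neg, norm_neg]

lemma S_eq {ξ η : E} (h1 : η ≠ 0) (h2 : ξ ≠ η) :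
    S ξ η = (⟪ξ, η⟫_ℝ / ‖η‖ ^ 2 + ⟪ξ, ξ - η⟫_ℝ / ‖ξ - η‖ ^ 2) / 2 := by
  unfold S
  have h1' : ‖η‖ ≠ 0 := norm_ne_zero_iff.2 h1
  have h2' : ‖ξ - η‖ ≠ 0 := norm_ne_zero_iff.2 (sub_ne_zero.2 h2)
  field_simp

lemma measurable_S : Measurable (fun p : E × E => S p.1 p.2) := by
  unfold S
  fun_prop

/-- The Cauchy profile. -/
noncomputable def H (r : ℝ) : ℝ := 1 / (1 + r ^ 2)

lemma H_pos (r : ℝ) : 0 < H r := by unfold H; positivity
lemma H_nonneg (r : ℝ) : 0 ≤ H r := (H_pos r).le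
lemma H_le_one (r : ℝ) : H r ≤ 1 := by
  unfold H
  rw [div_le_one (by positivity)]
  nlinarith [sq_nonneg r]

lemma H_neg (r : ℝ) : H (-r) = H r := by unfold H; simp

@[fun_prop]
lemma continuous_H : Continuous H := by
  unfold H
  exact continuous_const.div (by fun_prop) fun x => by positivity

lemma H_mul_le (r s : ℝ) : H s * H (r - s) ≤ 2 * H r * (H s + H (r - s)) := by
  unfold H
  have h1 : 0 < 1 + s ^ 2 := by positivity
  have h2 : 0 < 1 + (r - s) ^ 2 := by positivity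
  have h3 : 0 < 1 + r ^ 2 := by positivity
  rw [div_add_div _ _ h1.ne' h2.ne', div_mul_div_comm, mul_one_div, div_mul_div_comm,
    div_le_div_iff₀ (by positivity) (by positivity)]
  have : 1 + r ^ 2 ≤ 2 * (1 * (1 + (r - s) ^ 2) + (1 + s ^ 2) * 1) := by
    nlinarith [sq_nonneg (r - 2 * s)]
  have h4 : 0 ≤ (1 + s ^ 2) * (1 + (r - s) ^ 2) := by positivity
  nlinarith [mul_le_mul_of_nonneg_left this h4]

lemma integrable_H : Integrable H := by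
  unfold H
  simpa [one_div] using integrable_inv_one_add_sq

lemma integral_H : ∫ r, H r = π := by
  unfold H
  simp [one_div, integral_univ_inv_one_add_sq]

/-- The weight `W_μ(ξ) = H(ξ₁) exp(-μ √|ξ|)`. -/
noncomputable def W (μ : ℝ) (ξ : E) : ℝ := H (ξ 0) * Real.exp (-(μ * √‖ξ‖))

lemma W_pos (μ : ℝ) (ξ : E) : 0 < W μ ξ := mul_pos (H_pos _) (Real.exp_pos _)
lemma W_nonneg (μ : ℝ) (ξ : E) : 0 ≤ W μ ξ := (W_pos μ ξ).le

lemma continuous_W (μ : ℝ) : Continuous (W μ) := by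
  unfold W
  fun_prop

lemma W_neg (μ : ℝ) (ξ : E) : W μ (-ξ) = W μ ξ := by
  unfold W
  rw [norm_neg]
  congr 1
  exact H_neg _

lemma W_anti {μ ν : ℝ} (h : μ ≤ ν) (ξ : E) : W ν ξ ≤ W μ ξ := by
  unfold W
  have := H_nonneg (ξ 0)
  gcongr

lemma W_le_one {μ : ℝ} (h : 0 ≤ μ) (ξ : E) : W μ ξ ≤ 1 := by
  unfold W
  have h1 : Real.exp (-(μ * √‖ξ‖)) ≤ 1 := Real.exp_le_one_iff.2 (by
    have : 0 ≤ μ * √‖ξ‖ := by positivity
    linarith)
  calc H (ξ 0) * Real.exp (-(μ * √‖ξ‖)) ≤ 1 * 1 :=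
        mul_le_mul (H_le_one _) h1 (Real.exp_pos _).le zero_le_one
    _ = 1 := one_mul 1

/-- One dimensional singular weight. -/
noncomputable def k1 (μ r : ℝ) : ℝ := |r| ^ (-(3 / 4) : ℝ) * Real.exp (-(μ / 4) * |r| ^ (1 / 2 : ℝ))

lemma k1_nonneg (μ r : ℝ) : 0 ≤ k1 μ r := by unfold k1; positivity

lemma integrable_k1 {μ : ℝ} (hμ : 0 < μ) : Integrable (k1 μ) := by
  have h := integrableOn_rpow_mul_exp_neg_mul_rpow (p := 1 / 2) (s := -(3 / 4)) (b := μ / 4)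
    (by norm_num) (by norm_num) (by positivity)
  have h1 : IntegrableOn (k1 μ) (Ioi 0) := by
    refine h.congr_fun (fun x hx => ?_) measurableSet_Ioi
    simp only [k1, abs_of_pos (mem_Ioi.1 hx)]
  have h2 : IntegrableOn (k1 μ) (Iic 0) := by
    have : IntegrableOn (fun x => k1 μ (-x)) (Iic 0) := by
      have h3 := (integrableOn_Ici_iff_integrableOn_Ioi (by simp)).2 h1
      have h4 : IntegrableOn (k1 μ) (Ici (-0)) := by simpa using h3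
      exact h4.comp_neg_Iic
    refine this.congr_fun (fun x _ => ?_) measurableSet_Iic
    simp [k1]
  have := h2.union h1
  rwa [Iic_union_Ioi, integrableOn_univ] at this

lemma integral_k1 {μ : ℝ} (hμ : 0 < μ) : ∫ r, k1 μ r = 8 * √π / √μ := by
  have e : ∫ r, k1 μ r = 2 * ∫ x in Ioi (0 : ℝ),
      x ^ (-(3 / 4) : ℝ) * Real.exp (-(μ / 4) * x ^ (1 / 2 : ℝ)) :=
    integral_comp_abs (f := fun x => x ^ (-(3 / 4) : ℝ) * Real.exp (-(μ / 4) * x ^ (1 / 2 : ℝ)))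
  rw [e, integral_rpow_mul_exp_neg_mul_rpow (by norm_num) (by norm_num) (by positivity)]
  have e1 : ((-(3 / 4) + 1) / (1 / 2) : ℝ) = 1 / 2 := by norm_num
  have e2 : (-(-(3 / 4) + 1) / (1 / 2) : ℝ) = -(1 / 2) := by norm_num
  rw [e1, e2, Real.Gamma_one_half_eq, Real.rpow_neg (by positivity), ← Real.sqrt_eq_rpow,
    Real.sqrt_div' _ (by norm_num)]
  have : √(4 : ℝ) = 2 := by
    rw [show (4 : ℝ) = 2 ^ 2 by norm_num, Real.sqrt_sq (by norm_num)]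
  rw [this]
  have hμ' : √μ ≠ 0 := by positivity
  field_simp
  norm_num

/-- Product integrals over `E`. -/
lemma integrable_prod3 {f : Fin 3 → ℝ → ℝ} (hf : ∀ i, Integrable (f i)) :
    Integrable (fun η : E => f 0 (η 0) * f 1 (η 1) * f 2 (η 2)) := by
  have h := Integrable.fintype_prod (ι := Fin 3) (f := f) hf
  have h2 := (PiLp.volume_preserving_ofLp (Fin 3)).integrable_comp_of_integrable h
  refine h2.congr (Eventually.of_forall fun η => ?_)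
  simp [Fin.prod_univ_three]

lemma integral_prod3 (f : Fin 3 → ℝ → ℝ) :
    ∫ η : E, f 0 (η 0) * f 1 (η 1) * f 2 (η 2) = (∫ r, f 0 r) * (∫ r, f 1 r) * ∫ r, f 2 r := by
  have h := integral_fintype_prod_volume_eq_prod (ι := Fin 3) (E := fun _ => ℝ) f
  rw [Fin.prod_univ_three] at h
  rw [← h, ← (PiLp.volume_preserving_ofLp (Fin 3)).integral_comp
    (MeasurableEquiv.toLp 2 (Fin 3 → ℝ)).symm.measurableEmbedding]
  congr with η
  simp [Fin.prod_univ_three]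

attribute [irreducible] S H W k1

end H459R3.KS
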