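import Pool.Agent.H459R3.KS.Pos

/-!
Integrability of the density.
-/

set_option autoImplicit false

open MeasureTheory Set Filter Topology
open scoped InnerProductSpace Real FourierTransform

namespace H459R3.KS

lemma integrable_gauss {b : ℝ} (hb : 0 < b) : Integrable fun x : E => Real.exp (-b * ‖x‖ ^ 2) := by
  have h := GaussianFourier.integrable_cexp_neg_mul_sq_norm_add (V := E) (b := (b : ℂ))
    (by simpa using hb) 0 0
  have h2 := h.norm
  refine h2.congr (Eventually.of_forall fun x => ?_)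
  simp only [zero_mul, add_zero]
  rw [Complex.norm_exp]
  congr 1
  have : (-(b : ℂ) * (‖x‖ : ℂ) ^ 2) = ((-b * ‖x‖ ^ 2 : ℝ) : ℂ) := by push_cast; ring
  rw [this, Complex.ofReal_re]

/-- The normalising constant of the Fourier transform of the Gaussian. -/
noncomputable def gc (b : ℝ) : ℝ := (π / b) ^ (3 / 2 : ℝ)

lemma gc_pos {b : ℝ} (hb : 0 < b) : 0 < gc b := by unfold gc; positivity

lemma integral_gauss {b : ℝ} (hb : 0 < b) : ∫ x : E, Real.exp (-b * ‖x‖ ^ 2) = gc b := by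
  rw [GaussianFourier.integral_rexp_neg_mul_sq_norm hb]
  unfold gc
  congr 1
  simp

lemma ee_swap (x ξ : E) : ee x ξ = ee ξ x := by
  unfold ee
  rw [real_inner_comm]

lemma fourier_gauss {b : ℝ} (hb : 0 < b) (ξ : E) :
    𝓕 (fun x : E => Complex.exp (-(b : ℂ) * (‖x‖ : ℂ) ^ 2)) ξ =
      ((gc b * Real.exp (-(π ^ 2 / b) * ‖ξ‖ ^ 2) : ℝ) : ℂ) := by
  rw [fourier_gaussian_innerProductSpace (by simpa using hb)]
  unfold gc
  push_cast
  congr 1
  · rw [Complex.ofReal_cpow (by positivity)]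
    push_cast
    congr 1
    simp
  · congr 1
    ring

lemma gauss_ee {b : ℝ} (hb : 0 < b) (ξ : E) :
    ∫ x : E, ((Real.exp (-b * ‖x‖ ^ 2) : ℝ) : ℂ) * ee x ξ =
      ((gc b * Real.exp (-(π ^ 2 / b) * ‖ξ‖ ^ 2) : ℝ) : ℂ) := by
  have h := fourier_gauss hb (-ξ)
  rw [fourier_neg, norm_neg] at h
  rw [← h]
  congr with x
  rw [ee_swap]
  congr 1
  push_cast
  rfl

/-- A nonnegative Fourier transform of an integrable bounded function is integrable. -/
lemma Ft_integrable {g : E → ℝ} (hg : Prof g) (hpos : ∀ x, 0 ≤ (Ft g x).re)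
    (hcont : Continuous fun x => (Ft g x).re) : Integrable fun x => (Ft g x).re := by
  obtain ⟨C, μ, hC, hμ, hb⟩ := hg.bd
  have hgC : ∀ ξ, |g ξ| ≤ C := fun ξ => (hb ξ).trans (by
    have := W_le_one hμ.le ξ
    nlinarith)
  -- the Gaussian means
  have key : ∀ b : ℝ, 0 < b → Integrable (fun x => (Ft g x).re * Real.exp (-b * ‖x‖ ^ 2)) ∧
      ∫ x, (Ft g x).re * Real.exp (-b * ‖x‖ ^ 2) ≤ C := by
    intro b hbpos
    have i0 : Integrable (fun p : E × E => ((Real.exp (-b * ‖p.1‖ ^ 2) : ℝ) : ℂ) *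
        ((g p.2 : ℝ) : ℂ)) (volume.prod volume) :=
      (integrable_gauss hbpos).ofReal.mul_prod hg.integrable.ofReal
    have i1 : Integrable (fun p : E × E => (((Real.exp (-b * ‖p.1‖ ^ 2) : ℝ) : ℂ) *
        ((g p.2 : ℝ) : ℂ)) * ee p.1 p.2) (volume.prod volume) :=
      i0.mul_bdd (c := 1) continuous_ee.aestronglyMeasurable
        (Eventually.of_forall fun p => (norm_ee p.1 p.2).le)
    have e1 : ∀ x, ∫ ξ, (((Real.exp (-b * ‖x‖ ^ 2) : ℝ) : ℂ) * ((g ξ : ℝ) : ℂ)) * ee x ξ =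
        ((Real.exp (-b * ‖x‖ ^ 2) : ℝ) : ℂ) * Ft g x := by
      intro x
      unfold Ft
      rw [← integral_const_mul]
      congr with ξ
      ring
    have i2 : Integrable fun x => ((Real.exp (-b * ‖x‖ ^ 2) : ℝ) : ℂ) * Ft g x := by
      have := i1.integral_prod_left
      refine this.congr (Eventually.of_forall fun x => ?_)
      exact e1 x
    have i3 : Integrable fun x => (Ft g x).re * Real.exp (-b * ‖x‖ ^ 2) := by
      refine i2.re.congr (Eventually.of_forall fun x => ?_)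
      simp only [RCLike.re_to_complex]
      rw [Complex.re_ofReal_mul, mul_comm]
    refine ⟨i3, ?_⟩
    have e2 : ∫ x, ((Real.exp (-b * ‖x‖ ^ 2) : ℝ) : ℂ) * Ft g x =
        ∫ ξ, ((g ξ : ℝ) : ℂ) * ((gc b * Real.exp (-(π ^ 2 / b) * ‖ξ‖ ^ 2) : ℝ) : ℂ) := by
      simp_rw [← e1]
      rw [integral_integral_swap i1]
      congr with ξ
      rw [← gauss_ee hbpos ξ, ← integral_const_mul]
      congr with x
      ring
    have e3 : ∫ x, (Ft g x).re * Real.exp (-b * ‖x‖ ^ 2) =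
        (∫ x, ((Real.exp (-b * ‖x‖ ^ 2) : ℝ) : ℂ) * Ft g x).re := by
      have := integral_re i2
      simp only [RCLike.re_to_complex] at this
      rw [← this]
      congr with x
      rw [Complex.re_ofReal_mul, mul_comm]
    have hb2 : 0 < π ^ 2 / b := by positivity
    rw [e3, e2]
    refine (Complex.re_le_norm _).trans ?_
    have hdom : ∀ ξ, ‖((g ξ : ℝ) : ℂ) * ((gc b * Real.exp (-(π ^ 2 / b) * ‖ξ‖ ^ 2) : ℝ) : ℂ)‖ ≤
        (C * gc b) * Real.exp (-(π ^ 2 / b) * ‖ξ‖ ^ 2) := by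
      intro ξ
      rw [norm_mul, Complex.norm_real, Complex.norm_real, Real.norm_eq_abs,
        Real.norm_of_nonneg (mul_nonneg (gc_pos hbpos).le (Real.exp_pos _).le), mul_assoc]
      exact mul_le_mul_of_nonneg_right (hgC ξ) (mul_nonneg (gc_pos hbpos).le (Real.exp_pos _).le)
    refine (norm_integral_le_of_norm_le ((integrable_gauss hb2).const_mul _)
      (Eventually.of_forall hdom)).trans (le_of_eq ?_)
    rw [integral_const_mul, integral_gauss hb2]
    have : gc b * gc (π ^ 2 / b) = 1 := by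
      unfold gc
      rw [← Real.mul_rpow (by positivity) (by positivity)]
      have : π / b * (π / (π ^ 2 / b)) = 1 := by
        have := Real.pi_pos
        field_simp
      rw [this, Real.one_rpow]
    rw [mul_assoc, this, mul_one]
  -- Fatou
  refine ⟨hcont.aestronglyMeasurable, ?_⟩
  rw [HasFiniteIntegral]
  have e0 : ∀ x, ‖(Ft g x).re‖ₑ = ENNReal.ofReal ((Ft g x).re) := fun x => by
    rw [← ofReal_norm_eq_enorm, Real.norm_of_nonneg (hpos x)]
  simp_rw [e0]
  have hbk : ∀ k : ℕ, (0 : ℝ) < 1 / (k + 1) := fun k => by positivity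
  have hlim : ∀ x : E, Tendsto (fun k : ℕ => ENNReal.ofReal ((Ft g x).re *
      Real.exp (-(1 / ((k : ℝ) + 1)) * ‖x‖ ^ 2))) atTop (𝓝 (ENNReal.ofReal ((Ft g x).re))) := by
    intro x
    have h1 : Tendsto (fun k : ℕ => (Ft g x).re * Real.exp (-(1 / ((k : ℝ) + 1)) * ‖x‖ ^ 2)) atTop
        (𝓝 ((Ft g x).re * Real.exp (-0 * ‖x‖ ^ 2))) := by
      have h2 := tendsto_one_div_add_atTop_nhds_zero_nat (𝕜 := ℝ)
      exact ((Real.continuous_exp.tendsto _).comp ((h2.neg).mul_const _)).const_mul _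
    have h3 := (ENNReal.continuous_ofReal.tendsto _).comp h1
    simpa [Function.comp_def] using h3
  have hF := lintegral_liminf_le' (μ := (volume : Measure E)) (u := atTop)
    (f := fun (k : ℕ) x => ENNReal.ofReal ((Ft g x).re * Real.exp (-(1 / ((k : ℝ) + 1)) * ‖x‖ ^ 2)))
    (fun k => ((key _ (hbk k)).1.aestronglyMeasurable.aemeasurable.ennreal_ofReal))
  have h4 : ∀ x : E, liminf (fun k : ℕ => ENNReal.ofReal ((Ft g x).re *
      Real.exp (-(1 / ((k : ℝ) + 1)) * ‖x‖ ^ 2))) atTop = ENNReal.ofReal ((Ft g x).re) :=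
    fun x => (hlim x).liminf_eq
  simp_rw [h4] at hF
  refine hF.trans_lt ?_
  have h5 : ∀ k : ℕ, ∫⁻ x, ENNReal.ofReal ((Ft g x).re *
      Real.exp (-(1 / ((k : ℝ) + 1)) * ‖x‖ ^ 2)) ≤ ENNReal.ofReal C := by
    intro k
    rw [← ofReal_integral_eq_lintegral_ofReal (key _ (hbk k)).1
      (Eventually.of_forall fun x => mul_nonneg (hpos x) (Real.exp_pos _).le)]
    exact ENNReal.ofReal_le_ofReal (key _ (hbk k)).2
  refine lt_of_le_of_lt ?_ (ENNReal.ofReal_lt_top (r := C))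
  exact liminf_le_of_frequently_le' (Frequently.of_forall h5)

variable {μ₀ a : ℝ} {w0 : E → ℝ}

lemma nn_cont_x (h : Data μ₀ a w0) {t : ℝ} (ht : 0 ≤ t) : Continuous (nn w0 t) := by
  have h1 := nn_continuousOn h
  have h2 : Continuous fun x : E => ((t, x) : ℝ × E) := by fun_prop
  have h3 := h1.comp_continuous h2 (fun x => ⟨ht, mem_univ _⟩)
  exact h3

lemma nn_integrable (h : Data μ₀ a w0) (h0 : ∀ x, 0 ≤ nn w0 0 x) {t : ℝ} (ht : 0 ≤ t) :
    Integrable (nn w0 t) :=
  Ft_integrable (sol_prof h ht) (fun x => nn_nonneg h h0 ht x) (nn_cont_x h ht)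

lemma nn_bounded (h : Data μ₀ a w0) : ∃ C, ∀ t, 0 ≤ t → ∀ x, |nn w0 t x| ≤ C := by
  refine ⟨∫ ξ, 2 * Real.exp 1 * a * W μ₀ ξ, fun t ht x => ?_⟩
  unfold nn Ft
  refine (Complex.abs_re_le_norm _).trans ?_
  refine norm_integral_le_of_norm_le ((integrable_W h.mu).const_mul _)
    (Eventually.of_forall fun ξ => ?_)
  rw [norm_mul, norm_ee, mul_one, Complex.norm_real, Real.norm_eq_abs]
  exact sol_bd h ht ξ

end H459R3.KS
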