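import Pool.Agent.H459R3.KS.Time

/-!
The bilinear operators.
-/

set_option autoImplicit false

open MeasureTheory Set Filter Topology
open scoped InnerProductSpace Real

namespace H459R3.KS

lemma measurable_S_right (ξ : E) : Measurable fun η => S ξ η := by
  unfold S
  fun_prop

lemma measurable_S3 : Measurable fun q : (ℝ × E) × E => S q.1.2 q.2 := by
  unfold S
  fun_prop

/-- The quadratic term in Fourier variables. -/
noncomputable def Q (u v : E → ℝ) (ξ : E) : ℝ := ∫ η, S ξ η * (u η * v (ξ - η))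

lemma Q_pt {μ a b : ℝ} {u v : E → ℝ} (ha : 0 ≤ a)
    (hu : ∀ ξ, |u ξ| ≤ a * W μ ξ) (hv : ∀ ξ, |v ξ| ≤ b * W μ ξ) (ξ η : E) :
    |S ξ η * (u η * v (ξ - η))| ≤ a * b * F μ ξ η := by
  rw [abs_mul, abs_mul]
  calc |S ξ η| * (|u η| * |v (ξ - η)|)
      ≤ (‖ξ‖ ^ 2 / (2 * ‖η‖ * ‖ξ - η‖)) * ((a * W μ η) * (b * W μ (ξ - η))) := by
        have h1 := S_bound ξ η
        have h2 := hu η
        have h3 := hv (ξ - η)
        have h4 : 0 ≤ a * W μ η := mul_nonneg ha (W_nonneg _ _)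
        have h5 : |u η| * |v (ξ - η)| ≤ (a * W μ η) * (b * W μ (ξ - η)) :=
          mul_le_mul h2 h3 (abs_nonneg _) h4
        exact mul_le_mul h1 h5 (by positivity) (by positivity)
    _ = a * b * F μ ξ η := by unfold F; ring

lemma Q_integrable {μ a b : ℝ} {u v : E → ℝ} (hμ : 0 < μ) (ha : 0 ≤ a)
    (mu : Measurable u) (mv : Measurable v)
    (hu : ∀ ξ, |u ξ| ≤ a * W μ ξ) (hv : ∀ ξ, |v ξ| ≤ b * W μ ξ) (ξ : E) :
    Integrable (fun η => S ξ η * (u η * v (ξ - η))) := by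
  have h0 := (integrable_F hμ ξ).const_mul (a * b)
  have h1 : Measurable fun η => S ξ η := measurable_S_right ξ
  have h2 : Measurable fun η : E => v (ξ - η) := mv.comp (by fun_prop)
  have hm : AEStronglyMeasurable (fun η => S ξ η * (u η * v (ξ - η))) volume :=
    (h1.mul (mu.mul h2)).aestronglyMeasurable
  have hb : ∀ᵐ η : E, ‖S ξ η * (u η * v (ξ - η))‖ ≤ a * b * F μ ξ η := by
    refine Eventually.of_forall fun η => ?_
    rw [Real.norm_eq_abs]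
    exact Q_pt ha hu hv ξ η
  exact Integrable.mono' h0 hm hb

lemma Q_bound {μ a b : ℝ} {u v : E → ℝ} (hμ : 0 < μ) (ha : 0 ≤ a) (hb : 0 ≤ b)
    (hu : ∀ ξ, |u ξ| ≤ a * W μ ξ) (hv : ∀ ξ, |v ξ| ≤ b * W μ ξ) (ξ : E) :
    |Q u v ξ| ≤ a * b * (CF * (‖ξ‖ ^ (3 / 2 : ℝ) * W μ ξ) / μ) := by
  unfold Q
  calc |∫ η, S ξ η * (u η * v (ξ - η))| ≤ ∫ η, a * b * F μ ξ η := by
        have h0 := (integrable_F hμ ξ).const_mul (a * b)
        have hb : ∀ᵐ η : E, ‖S ξ η * (u η * v (ξ - η))‖ ≤ a * b * F μ ξ η := by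
          refine Eventually.of_forall fun η => ?_
          rw [Real.norm_eq_abs]
          exact Q_pt ha hu hv ξ η
        rw [← Real.norm_eq_abs]
        exact norm_integral_le_of_norm_le h0 hb
    _ = a * b * ∫ η, F μ ξ η := integral_const_mul _ _
    _ ≤ _ := by
        have := integral_F_le hμ ξ
        gcongr

lemma Q_neg {u v : E → ℝ} (hu : ∀ ξ, u (-ξ) = u ξ) (hv : ∀ ξ, v (-ξ) = v ξ) (ξ : E) :
    Q u v (-ξ) = Q u v ξ := by
  unfold Q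
  rw [← integral_neg_eq_self]
  congr with η
  rw [S_neg, hu]
  congr 2
  rw [← hv]
  congr 1
  abel

lemma Q_comm (u v : E → ℝ) (ξ : E) : Q u v ξ = Q v u ξ := by
  unfold Q
  rw [← integral_sub_left_eq_self _ volume ξ]
  congr with η
  rw [S_symm, sub_sub_cancel]
  ring

lemma Q_sub {μ a b : ℝ} {u v : E → ℝ} (hμ : 0 < μ) (ha : 0 ≤ a) (hb : 0 ≤ b)
    (mu : Measurable u) (mv : Measurable v)
    (hu : ∀ ξ, |u ξ| ≤ a * W μ ξ) (hv : ∀ ξ, |v ξ| ≤ b * W μ ξ) (ξ : E) :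
    Q u u ξ - Q v v ξ = Q (fun ξ => u ξ - v ξ) u ξ + Q v (fun ξ => u ξ - v ξ) ξ := by
  unfold Q
  have i1 := Q_integrable hμ ha mu mu hu hu ξ
  have i2 := Q_integrable hμ hb mv mv hv hv ξ
  have i3 := Q_integrable hμ hb mv mu hv hu ξ
  have e1 : ∫ η, S ξ η * ((u η - v η) * u (ξ - η)) =
      (∫ η, S ξ η * (u η * u (ξ - η))) - ∫ η, S ξ η * (v η * u (ξ - η)) := by
    rw [← integral_sub i1 i3]
    congr with η
    ring
  have e2 : ∫ η, S ξ η * (v η * (u (ξ - η) - v (ξ - η))) =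
      (∫ η, S ξ η * (v η * u (ξ - η))) - ∫ η, S ξ η * (v η * v (ξ - η)) := by
    rw [← integral_sub i3 i2]
    congr with η
    ring
  rw [e1, e2]
  ring

/-- Jointly measurable functions dominated by `ε W_{m(t)}(ξ)`. -/
structure Dom (μ₀ ε : ℝ) (u : ℝ → E → ℝ) : Prop where
  meas : StronglyMeasurable (fun p : ℝ × E => u p.1 p.2)
  bd : ∀ t, 0 ≤ t → ∀ ξ, |u t ξ| ≤ ε * W (m μ₀ t) ξ

lemma Dom.meas' {μ₀ ε : ℝ} {u : ℝ → E → ℝ} (h : Dom μ₀ ε u) (t : ℝ) : Measurable (u t) := by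
  have h1 : Measurable (Prod.mk t : E → ℝ × E) := measurable_prodMk_left
  exact h.meas.measurable.comp h1

lemma Dom.mono {μ₀ ε δ : ℝ} {u : ℝ → E → ℝ} (h : Dom μ₀ ε u) (hd : ε ≤ δ) : Dom μ₀ δ u :=
  ⟨h.meas, fun t ht ξ => (h.bd t ht ξ).trans (mul_le_mul_of_nonneg_right hd (W_nonneg _ _))⟩

lemma Dom.add {μ₀ ε δ : ℝ} {u v : ℝ → E → ℝ} (h : Dom μ₀ ε u) (h' : Dom μ₀ δ v) :
    Dom μ₀ (ε + δ) (fun t ξ => u t ξ + v t ξ) :=
  ⟨h.meas.add h'.meas, fun t ht ξ => (abs_add_le _ _).trans (by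
    rw [add_mul]; exact add_le_add (h.bd t ht ξ) (h'.bd t ht ξ))⟩

lemma Dom.sub {μ₀ ε δ : ℝ} {u v : ℝ → E → ℝ} (h : Dom μ₀ ε u) (h' : Dom μ₀ δ v) :
    Dom μ₀ (ε + δ) (fun t ξ => u t ξ - v t ξ) :=
  ⟨h.meas.sub h'.meas, fun t ht ξ => (abs_sub _ _).trans (by
    rw [add_mul]; exact add_le_add (h.bd t ht ξ) (h'.bd t ht ξ))⟩

lemma Q_meas {u v : ℝ → E → ℝ} (hu : StronglyMeasurable (fun p : ℝ × E => u p.1 p.2))
    (hv : StronglyMeasurable (fun p : ℝ × E => v p.1 p.2)) :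
    StronglyMeasurable (fun p : ℝ × E => Q (u p.1) (v p.1) p.2) := by
  have h1 : Measurable fun q : (ℝ × E) × E => S q.1.2 q.2 := measurable_S3
  have h2 : Measurable fun q : (ℝ × E) × E => u q.1.1 q.2 :=
    hu.measurable.comp (by fun_prop : Measurable fun q : (ℝ × E) × E => (q.1.1, q.2))
  have h3 : Measurable fun q : (ℝ × E) × E => v q.1.1 (q.1.2 - q.2) :=
    hv.measurable.comp (by fun_prop : Measurable fun q : (ℝ × E) × E => (q.1.1, q.1.2 - q.2))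
  have key : StronglyMeasurable (Function.uncurry (fun (p : ℝ × E) (η : E) =>
      S p.2 η * (u p.1 η * v p.1 (p.2 - η)))) := (h1.mul (h2.mul h3)).stronglyMeasurable
  exact key.integral_prod_right (ν := volume)

attribute [irreducible] Q

/-- The Duhamel term. -/
noncomputable def N (u v : ℝ → E → ℝ) (t : ℝ) (ξ : E) : ℝ :=
  ∫ s in Ioc 0 t, Real.exp (-(lam ξ * (t - s))) * Q (u s) (v s) ξ

lemma N_meas {u v : ℝ → E → ℝ} (hu : StronglyMeasurable (fun p : ℝ × E => u p.1 p.2))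
    (hv : StronglyMeasurable (fun p : ℝ × E => v p.1 p.2)) :
    StronglyMeasurable (fun p : ℝ × E => N u v p.1 p.2) := by
  have e : ∀ p : ℝ × E, N u v p.1 p.2 = ∫ s, (fun (p : ℝ × E) (s : ℝ) => (Ioc 0 p.1).indicator
      (fun s => Real.exp (-(lam p.2 * (p.1 - s))) * Q (u s) (v s) p.2) s) p s := by
    intro p
    unfold N
    rw [← integral_indicator measurableSet_Ioc]
  have key : StronglyMeasurable (Function.uncurry (fun (p : ℝ × E) (s : ℝ) => (Ioc 0 p.1).indicator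
      (fun s => Real.exp (-(lam p.2 * (p.1 - s))) * Q (u s) (v s) p.2) s)) := by
    have e2 : (Function.uncurry (fun (p : ℝ × E) (s : ℝ) => (Ioc 0 p.1).indicator
      (fun s => Real.exp (-(lam p.2 * (p.1 - s))) * Q (u s) (v s) p.2) s)) =
      {q : (ℝ × E) × ℝ | 0 < q.2 ∧ q.2 ≤ q.1.1}.indicator
      (fun q => Real.exp (-(lam q.1.2 * (q.1.1 - q.2))) * Q (u q.2) (v q.2) q.1.2) := by
      ext q
      obtain ⟨p, s⟩ := q
      simp only [Function.uncurry_apply_pair, indicator_apply, mem_Ioc, mem_ofPred_eq]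
    rw [e2]
    refine StronglyMeasurable.indicator ?_ ?_
    · have h1 : Measurable fun q : (ℝ × E) × ℝ => Real.exp (-(lam q.1.2 * (q.1.1 - q.2))) := by
        have := continuous_lam.measurable
        fun_prop
      have h2 : Measurable fun q : (ℝ × E) × ℝ => Q (u q.2) (v q.2) q.1.2 :=
        (Q_meas hu hv).measurable.comp (by fun_prop : Measurable fun q : (ℝ × E) × ℝ => (q.2, q.1.2))
      exact (h1.mul h2).stronglyMeasurable
    · have m1 : MeasurableSet {q : (ℝ × E) × ℝ | 0 < q.2} :=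
        measurableSet_lt measurable_const measurable_snd
      have m2 : MeasurableSet {q : (ℝ × E) × ℝ | q.2 ≤ q.1.1} :=
        measurableSet_le measurable_snd (measurable_fst.comp measurable_fst)
      exact m1.inter m2
  have h := key.integral_prod_right (ν := volume)
  simp_rw [e]
  exact h

lemma inv_m_le {μ₀ s : ℝ} (h : 0 < μ₀) (hs : 0 < s) : 1 / m μ₀ s ≤ s ^ (-(1 / 4) : ℝ) := by
  rw [Real.rpow_neg hs.le, ← one_div]
  apply one_div_le_one_div_of_le (by positivity)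
  unfold m
  rw [abs_of_pos hs]
  linarith

lemma N_pt {μ₀ a b : ℝ} {u v : ℝ → E → ℝ} (hμ : 0 < μ₀) (ha : 0 ≤ a) (hb : 0 ≤ b)
    (hu : Dom μ₀ a u) (hv : Dom μ₀ b v) (t : ℝ) (ξ : E) (s : ℝ) (hs : s ∈ Ioc 0 t) :
    |Real.exp (-(lam ξ * (t - s))) * Q (u s) (v s) ξ| ≤
      (a * b * (CF * Real.exp 1) * W (m μ₀ t) ξ) *
      (Real.exp (-((t - s) * ‖ξ‖ ^ 2)) * (‖ξ‖ ^ (3 / 2 : ℝ) * s ^ (-(1 / 4) : ℝ))) := by
  rw [abs_mul, abs_of_pos (Real.exp_pos _)]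
  have h1 := Q_bound (m_pos hμ s) ha hb (hu.bd s hs.1.le) (hv.bd s hs.1.le) ξ
  have h2 := heat_W μ₀ hs.1.le hs.2 ξ
  have h3 := inv_m_le hμ hs.1
  have hC := CF_pos
  have hW := W_nonneg (m μ₀ t) ξ
  have hW' := W_nonneg (m μ₀ s) ξ
  have hm := m_pos hμ s
  have h6 : 0 ≤ a * b * CF * ‖ξ‖ ^ (3 / 2 : ℝ) := by positivity
  have h7 : 0 ≤ 1 / m μ₀ s := by positivity
  have h8 : 0 ≤ Real.exp 1 * Real.exp (-((t - s) * ‖ξ‖ ^ 2)) * W (m μ₀ t) ξ := by positivity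
  calc Real.exp (-(lam ξ * (t - s))) * |Q (u s) (v s) ξ|
      ≤ Real.exp (-(lam ξ * (t - s))) * (a * b * (CF * (‖ξ‖ ^ (3 / 2 : ℝ) * W (m μ₀ s) ξ) / m μ₀ s)) :=
        mul_le_mul_of_nonneg_left h1 (Real.exp_pos _).le
    _ = (a * b * CF * ‖ξ‖ ^ (3 / 2 : ℝ)) * (Real.exp (-(lam ξ * (t - s))) * W (m μ₀ s) ξ) *
        (1 / m μ₀ s) := by ring
    _ ≤ (a * b * CF * ‖ξ‖ ^ (3 / 2 : ℝ)) *
        (Real.exp 1 * Real.exp (-((t - s) * ‖ξ‖ ^ 2)) * W (m μ₀ t) ξ) * s ^ (-(1 / 4) : ℝ) :=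
        mul_le_mul (mul_le_mul_of_nonneg_left h2 h6) h3 h7 (mul_nonneg h6 h8)
    _ = _ := by ring

lemma N_integrable {μ₀ a b : ℝ} {u v : ℝ → E → ℝ} (hμ : 0 < μ₀) (ha : 0 ≤ a) (hb : 0 ≤ b)
    (hu : Dom μ₀ a u) (hv : Dom μ₀ b v) (t : ℝ) (ξ : E) :
    IntegrableOn (fun s => Real.exp (-(lam ξ * (t - s))) * Q (u s) (v s) ξ) (Ioc 0 t) := by
  have h0 := (time_integrable ‖ξ‖ t).const_mul (a * b * (CF * Real.exp 1) * W (m μ₀ t) ξ)
  have h2 : Measurable fun s : ℝ => Q (u s) (v s) ξ := by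
    have h1 : Measurable (fun s : ℝ => (s, ξ)) := measurable_prodMk_right
    exact (Q_meas hu.meas hv.meas).measurable.comp h1
  have hm : AEStronglyMeasurable (fun s => Real.exp (-(lam ξ * (t - s))) * Q (u s) (v s) ξ)
      (volume.restrict (Ioc 0 t)) :=
    ((by fun_prop : Measurable fun s : ℝ => Real.exp (-(lam ξ * (t - s)))).mul
      h2).aestronglyMeasurable
  have hb' : ∀ᵐ s ∂(volume.restrict (Ioc 0 t)),
      ‖Real.exp (-(lam ξ * (t - s))) * Q (u s) (v s) ξ‖ ≤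
        (a * b * (CF * Real.exp 1) * W (m μ₀ t) ξ) *
      (Real.exp (-((t - s) * ‖ξ‖ ^ 2)) * (‖ξ‖ ^ (3 / 2 : ℝ) * s ^ (-(1 / 4) : ℝ))) := by
    filter_upwards [ae_restrict_mem measurableSet_Ioc] with s hs
    rw [Real.norm_eq_abs]
    exact N_pt hμ ha hb hu hv t ξ s hs
  exact Integrable.mono' h0 hm hb'

/-- The constant of the bilinear estimate. -/
noncomputable def C0 : ℝ := CF * Real.exp 1 * 3

lemma C0_pos : 0 < C0 := by unfold C0; have := CF_pos; positivity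

lemma N_dom {μ₀ a b : ℝ} {u v : ℝ → E → ℝ} (hμ : 0 < μ₀) (ha : 0 ≤ a) (hb : 0 ≤ b)
    (hu : Dom μ₀ a u) (hv : Dom μ₀ b v) : Dom μ₀ (C0 * (a * b)) (N u v) := by
  refine ⟨N_meas hu.meas hv.meas, fun t ht ξ => ?_⟩
  have hC := CF_pos
  have hW := W_nonneg (m μ₀ t) ξ
  have hi := (time_integrable ‖ξ‖ t).const_mul (a * b * (CF * Real.exp 1) * W (m μ₀ t) ξ)
  calc |N u v t ξ| ≤ ∫ s in Ioc 0 t, (a * b * (CF * Real.exp 1) * W (m μ₀ t) ξ) *
      (Real.exp (-((t - s) * ‖ξ‖ ^ 2)) * (‖ξ‖ ^ (3 / 2 : ℝ) * s ^ (-(1 / 4) : ℝ))) := by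
        unfold N
        rw [← Real.norm_eq_abs]
        refine norm_integral_le_of_norm_le hi ?_
        filter_upwards [ae_restrict_mem measurableSet_Ioc] with s hs
        rw [Real.norm_eq_abs]
        exact N_pt hμ ha hb hu hv t ξ s hs
    _ = (a * b * (CF * Real.exp 1) * W (m μ₀ t) ξ) * ∫ s in Ioc 0 t,
      (Real.exp (-((t - s) * ‖ξ‖ ^ 2)) * (‖ξ‖ ^ (3 / 2 : ℝ) * s ^ (-(1 / 4) : ℝ))) :=
        integral_const_mul _ _
    _ ≤ (a * b * (CF * Real.exp 1) * W (m μ₀ t) ξ) * 3 := by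
        have := time_int_le (norm_nonneg ξ) ht
        gcongr
    _ = _ := by unfold C0; ring

lemma N_sub {μ₀ a b : ℝ} {u v : ℝ → E → ℝ} (hμ : 0 < μ₀) (ha : 0 ≤ a) (hb : 0 ≤ b)
    (hu : Dom μ₀ a u) (hv : Dom μ₀ b v) (t : ℝ) (ξ : E) :
    N u u t ξ - N v v t ξ = N (fun t ξ => u t ξ - v t ξ) u t ξ + N v (fun t ξ => u t ξ - v t ξ) t ξ := by
  unfold N
  have hd := hu.sub hv
  rw [← integral_sub (N_integrable hμ ha ha hu hu t ξ) (N_integrable hμ hb hb hv hv t ξ),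
    ← integral_add (N_integrable hμ (by positivity) ha hd hu t ξ)
      (N_integrable hμ hb (by positivity) hv hd t ξ)]
  refine setIntegral_congr_fun measurableSet_Ioc fun s hs => ?_
  have := Q_sub (m_pos hμ s) ha hb (hu.meas' s) (hv.meas' s) (hu.bd s hs.1.le) (hv.bd s hs.1.le) ξ
  rw [← mul_sub, this]
  ring

lemma N_neg {u v : ℝ → E → ℝ} (hu : ∀ t ξ, u t (-ξ) = u t ξ) (hv : ∀ t ξ, v t (-ξ) = v t ξ)
    (t : ℝ) (ξ : E) : N u v t (-ξ) = N u v t ξ := by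
  unfold N
  have e : lam (-ξ) = lam ξ := by unfold lam; rw [norm_neg]
  simp_rw [fun s => Q_neg (hu s) (hv s) ξ, e]

attribute [irreducible] N

end H459R3.KS
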