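import Pool.Agent.H459R3.KS.Synth

/-!
The nonlinear term in physical space.
-/

set_option autoImplicit false

open MeasureTheory Set Filter Topology
open scoped InnerProductSpace Real FourierTransform Convolution

namespace H459R3.KS

/-- The synthesis of a function of frequency. -/
noncomputable def Ft (f : E → ℝ) (x : E) : ℂ := ∫ ξ, ((f ξ : ℝ) : ℂ) * ee x ξ

lemma Z_eq_Ft (f : ℝ → E → ℝ) (t : ℝ) (x : E) : Z f (t, x) = Ft (f t) x := rfl

lemma fourier_neg (f : E → ℂ) (x : E) : 𝓕 f (-x) = ∫ ξ, f ξ * ee x ξ := by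
  rw [Real.fourier_eq']
  congr with ξ
  rw [smul_eq_mul, mul_comm]
  congr 1
  unfold ee
  congr 1
  rw [inner_neg_right]
  push_cast
  ring

lemma ofReal_integrable {f : E → ℝ} (hf : Integrable f) : Integrable fun ξ => ((f ξ : ℝ) : ℂ) :=
  hf.ofReal

lemma conv_eq (f g : E → ℝ) (ξ : E) :
    ((fun ξ => ((f ξ : ℝ) : ℂ)) ⋆[ContinuousLinearMap.mul ℂ ℂ] (fun ξ => ((g ξ : ℝ) : ℂ))) ξ =
      ((∫ η, f η * g (ξ - η) : ℝ) : ℂ) := by
  rw [convolution_def, ← integral_complex_ofReal]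
  congr with η
  simp

lemma Ft_conv {f g : E → ℝ} (hf : Integrable f) (hg : Integrable g) (x : E) :
    ∫ ξ, ((∫ η, f η * g (ξ - η) : ℝ) : ℂ) * ee x ξ = Ft f x * Ft g x := by
  have h := Real.fourier_mul_convolution_eq (ofReal_integrable hf) (ofReal_integrable hg) (-x)
  rw [fourier_neg, fourier_neg, fourier_neg] at h
  simp_rw [conv_eq] at h
  exact h

lemma conv_integrable {f g : E → ℝ} (hf : Integrable f) (hg : Integrable g) (x : E) :
    Integrable fun ξ => ((∫ η, f η * g (ξ - η) : ℝ) : ℂ) * ee x ξ := by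
  have h := Integrable.integrable_convolution (ContinuousLinearMap.mul ℂ ℂ)
    (ofReal_integrable hf) (ofReal_integrable hg)
  have h1 : Integrable fun ξ => ((∫ η, f η * g (ξ - η) : ℝ) : ℂ) := by
    refine h.congr (Eventually.of_forall fun ξ => ?_)
    exact conv_eq f g ξ
  refine h1.mul_bdd (c := 1) (continuous_ee_right x).aestronglyMeasurable ?_
  exact Eventually.of_forall fun ξ => (norm_ee x ξ).le

/-- The singular one dimensional weight with exponent `-1/2`. -/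
lemma integrable_k2 {c : ℝ} (hc : 0 < c) :
    Integrable fun r : ℝ => |r| ^ (-(1 / 2) : ℝ) * Real.exp (-c * |r| ^ (1 / 2 : ℝ)) := by
  have h := integrableOn_rpow_mul_exp_neg_mul_rpow (p := 1 / 2) (s := -(1 / 2)) (b := c)
    (by norm_num) (by norm_num) hc
  set k : ℝ → ℝ := fun r : ℝ => |r| ^ (-(1 / 2) : ℝ) * Real.exp (-c * |r| ^ (1 / 2 : ℝ)) with hk
  have h1 : IntegrableOn k (Ioi 0) := by
    refine h.congr_fun (fun x hx => ?_) measurableSet_Ioi
    simp only [hk, abs_of_pos (mem_Ioi.1 hx)]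
  have h2 : IntegrableOn k (Iic 0) := by
    have : IntegrableOn (fun x => k (-x)) (Iic 0) := by
      have h3 := (integrableOn_Ici_iff_integrableOn_Ioi (by simp)).2 h1
      have h4 : IntegrableOn k (Ici (-0)) := by simpa using h3
      exact h4.comp_neg_Iic
    refine this.congr_fun (fun x _ => ?_) measurableSet_Iic
    simp [hk]
  have := h2.union h1
  rwa [Iic_union_Ioi, integrableOn_univ] at this

lemma integrable_W_div {μ : ℝ} (hμ : 0 < μ) : Integrable fun ξ : E => W μ ξ / ‖ξ‖ := by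
  have h : Integrable fun ξ : E => H (ξ 0) *
      (|ξ 1| ^ (-(1 / 2) : ℝ) * Real.exp (-(μ / 2) * |ξ 1| ^ (1 / 2 : ℝ))) *
      (|ξ 2| ^ (-(1 / 2) : ℝ) * Real.exp (-(μ / 2) * |ξ 2| ^ (1 / 2 : ℝ))) := by
    refine integrable_prod3 (f := ![H,
      fun r => |r| ^ (-(1 / 2) : ℝ) * Real.exp (-(μ / 2) * |r| ^ (1 / 2 : ℝ)),
      fun r => |r| ^ (-(1 / 2) : ℝ) * Real.exp (-(μ / 2) * |r| ^ (1 / 2 : ℝ))]) fun i => ?_
    fin_cases i
    · exact integrable_H
    · exact integrable_k2 (by positivity)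
    · exact integrable_k2 (by positivity)
  refine Integrable.mono' h ?_ ?_
  · exact ((continuous_W μ).measurable.div measurable_norm).aestronglyMeasurable
  · filter_upwards [ae_coord 1, ae_coord 2] with ξ h1 h2
    have p1 : 0 < |ξ 1| := abs_pos.2 h1
    have p2 : 0 < |ξ 2| := abs_pos.2 h2
    have pξ : 0 < ‖ξ‖ := p1.trans_le (abs_coord_le ξ 1)
    rw [Real.norm_of_nonneg (div_nonneg (W_nonneg _ _) (norm_nonneg _)), div_eq_mul_inv]
    have e1 : |ξ 1| ^ (-(1 / 2) : ℝ) ≥ ‖ξ‖ ^ (-(1 / 2) : ℝ) :=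
      Real.rpow_le_rpow_of_nonpos p1 (abs_coord_le ξ 1) (by norm_num)
    have e2 : |ξ 2| ^ (-(1 / 2) : ℝ) ≥ ‖ξ‖ ^ (-(1 / 2) : ℝ) :=
      Real.rpow_le_rpow_of_nonpos p2 (abs_coord_le ξ 2) (by norm_num)
    have e3 : ‖ξ‖⁻¹ = ‖ξ‖ ^ (-(1 / 2) : ℝ) * ‖ξ‖ ^ (-(1 / 2) : ℝ) := by
      rw [← Real.rpow_add pξ, ← Real.rpow_neg_one]; norm_num
    have e4 : ‖ξ‖⁻¹ ≤ |ξ 1| ^ (-(1 / 2) : ℝ) * |ξ 2| ^ (-(1 / 2) : ℝ) := by
      rw [e3]; exact mul_le_mul e1 e2 (by positivity) (by positivity)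
    have hW := W_le_prod hμ.le ξ
    have hH := H_nonneg (ξ 0)
    calc W μ ξ * ‖ξ‖⁻¹ ≤ (H (ξ 0) * Real.exp (-(μ / 2) * |ξ 1| ^ (1 / 2 : ℝ)) *
      Real.exp (-(μ / 2) * |ξ 2| ^ (1 / 2 : ℝ))) *
        (|ξ 1| ^ (-(1 / 2) : ℝ) * |ξ 2| ^ (-(1 / 2) : ℝ)) :=
        mul_le_mul hW e4 (by positivity) (by positivity)
      _ = _ := by ring

/-- Frequency profiles: measurable functions dominated by a weight. -/
structure Prof (g : E → ℝ) : Prop where
  meas : Measurable g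
  bd : ∃ C μ, 0 ≤ C ∧ 0 < μ ∧ ∀ ξ, |g ξ| ≤ C * W μ ξ

lemma Prof.integrable {g : E → ℝ} (hg : Prof g) : Integrable g := by
  obtain ⟨C, μ, hC, hμ, h⟩ := hg.bd
  refine Integrable.mono' ((integrable_W hμ).const_mul C) hg.meas.aestronglyMeasurable ?_
  exact Eventually.of_forall fun ξ => by rw [Real.norm_eq_abs]; exact h ξ

lemma Prof.integrable_div {g : E → ℝ} (hg : Prof g) : Integrable fun ξ => g ξ / ‖ξ‖ := by
  obtain ⟨C, μ, hC, hμ, h⟩ := hg.bd
  refine Integrable.mono' ((integrable_W_div hμ).const_mul C)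
    (hg.meas.div measurable_norm).aestronglyMeasurable ?_
  refine Eventually.of_forall fun ξ => ?_
  rw [Real.norm_eq_abs, abs_div, abs_of_nonneg (norm_nonneg ξ), ← mul_div_assoc]
  exact div_le_div_of_nonneg_right (h ξ) (norm_nonneg _)

/-- `A_i = ξ_i g`. -/
noncomputable def Ai (g : E → ℝ) (i : Fin 3) (ξ : E) : ℝ := ξ i * g ξ

/-- `B_i = ξ_i |ξ|⁻² g`. -/
noncomputable def Bi (g : E → ℝ) (i : Fin 3) (ξ : E) : ℝ := ξ i / ‖ξ‖ ^ 2 * g ξ

lemma Prof.Ai {g : E → ℝ} (hg : Prof g) (i : Fin 3) : Prof (KS.Ai g i) := by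
  refine ⟨(meas_coord i).mul hg.meas, ?_⟩
  obtain ⟨C, μ, hC, hμ, h⟩ := hg.bd
  obtain ⟨D, hD, hW⟩ := pow_W 1 hμ
  refine ⟨C * D, μ / 2, by positivity, by positivity, fun ξ => ?_⟩
  unfold KS.Ai
  rw [abs_mul]
  have h1 : |ξ i| ≤ (1 + ‖ξ‖) ^ 1 := by
    have := abs_coord_le ξ i
    rw [pow_one]; linarith
  calc |ξ i| * |g ξ| ≤ (1 + ‖ξ‖) ^ 1 * (C * W μ ξ) :=
        mul_le_mul h1 (h ξ) (abs_nonneg _) (by positivity)
    _ = C * ((1 + ‖ξ‖) ^ 1 * W μ ξ) := by ring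
    _ ≤ C * (D * W (μ / 2) ξ) := mul_le_mul_of_nonneg_left (hW ξ) hC
    _ = _ := by ring

lemma Bi_bound (g : E → ℝ) (i : Fin 3) (ξ : E) : |Bi g i ξ| ≤ |g ξ / ‖ξ‖| := by
  unfold Bi
  rcases eq_or_ne ξ 0 with rfl | hξ
  · simp
  have pξ : 0 < ‖ξ‖ := norm_pos_iff.2 hξ
  rw [abs_mul, abs_div, abs_div, abs_of_nonneg (by positivity : (0 : ℝ) ≤ ‖ξ‖ ^ 2),
    abs_of_nonneg pξ.le, div_mul_eq_mul_div, div_le_div_iff₀ (by positivity) pξ]
  calc |ξ i| * |g ξ| * ‖ξ‖ ≤ ‖ξ‖ * |g ξ| * ‖ξ‖ := by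
        apply mul_le_mul_of_nonneg_right _ pξ.le
        exact mul_le_mul_of_nonneg_right (abs_coord_le ξ i) (abs_nonneg _)
    _ = _ := by ring

lemma Prof.Bi_integrable {g : E → ℝ} (hg : Prof g) (i : Fin 3) : Integrable (Bi g i) := by
  refine Integrable.mono hg.integrable_div ?_ ?_
  · unfold Bi
    exact (((meas_coord i).div (measurable_norm.pow_const 2)).mul hg.meas).aestronglyMeasurable
  · exact Eventually.of_forall fun ξ => by
      rw [Real.norm_eq_abs, Real.norm_eq_abs]; exact Bi_bound g i ξ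

/-- The unsymmetrised kernel. -/
noncomputable def T (ξ η : E) : ℝ := ⟪ξ, η⟫_ℝ / ‖η‖ ^ 2

lemma T_integrable {g : E → ℝ} (hg : Prof g) (ξ : E) :
    Integrable fun η => T ξ η * (g η * g (ξ - η)) := by
  obtain ⟨C, μ, hC, hμ, h⟩ := hg.bd
  have h1 : Integrable fun η => (‖ξ‖ * C) * (g η / ‖η‖) := hg.integrable_div.const_mul _
  refine Integrable.mono h1 ?_ ?_
  · have m1 : Measurable fun η : E => g (ξ - η) := hg.meas.comp (by fun_prop)
    have m2 : Measurable fun η : E => T ξ η := by unfold T; fun_prop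
    exact (m2.mul (hg.meas.mul m1)).aestronglyMeasurable
  · refine Eventually.of_forall fun η => ?_
    rw [Real.norm_eq_abs, Real.norm_eq_abs, abs_mul, abs_mul, abs_mul, abs_mul]
    have h2 : |g (ξ - η)| ≤ C := (h _).trans (by
      have := W_le_one hμ.le (ξ - η)
      nlinarith)
    have h3 : |T ξ η| * |g η| ≤ ‖ξ‖ * |g η / ‖η‖| := by
      unfold T
      rcases eq_or_ne η 0 with rfl | hη
      · simp
      have pη : 0 < ‖η‖ := norm_pos_iff.2 hη
      rw [abs_div, abs_div, abs_of_nonneg (by positivity : (0 : ℝ) ≤ ‖η‖ ^ 2),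
        abs_of_nonneg pη.le, div_mul_eq_mul_div, ← mul_div_assoc,
        div_le_div_iff₀ (by positivity) pη]
      calc |⟪ξ, η⟫_ℝ| * |g η| * ‖η‖ ≤ (‖ξ‖ * ‖η‖) * |g η| * ‖η‖ := by
            apply mul_le_mul_of_nonneg_right _ pη.le
            exact mul_le_mul_of_nonneg_right (abs_real_inner_le_norm ξ η) (abs_nonneg _)
        _ = _ := by ring
    calc |T ξ η| * (|g η| * |g (ξ - η)|) = (|T ξ η| * |g η|) * |g (ξ - η)| := by ring
      _ ≤ (‖ξ‖ * |g η / ‖η‖|) * C := mul_le_mul h3 h2 (abs_nonneg _) (by positivity)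
      _ = |‖ξ‖| * |C| * |g η / ‖η‖| := by
          rw [abs_of_nonneg (norm_nonneg ξ), abs_of_nonneg hC]; ring

lemma Q_eq_T {g : E → ℝ} (hg : Prof g) (ξ : E) :
    Q g g ξ = ∫ η, T ξ η * (g η * g (ξ - η)) := by
  have h1 : ∫ η, T ξ (ξ - η) * (g (ξ - η) * g (ξ - (ξ - η))) =
      ∫ η, T ξ η * (g η * g (ξ - η)) :=
    integral_sub_left_eq_self (fun η => T ξ η * (g η * g (ξ - η))) volume ξ
  have i1 := T_integrable hg ξ
  have i2 : Integrable fun η => T ξ (ξ - η) * (g (ξ - η) * g (ξ - (ξ - η))) :=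
    i1.comp_sub_left ξ
  have h2 : Q g g ξ = ∫ η, (1 / 2 : ℝ) * (T ξ η * (g η * g (ξ - η)) +
      T ξ (ξ - η) * (g (ξ - η) * g (ξ - (ξ - η)))) := by
    unfold Q
    refine integral_congr_ae ?_
    filter_upwards [ae_ne 0, ae_ne ξ] with η h3 h4
    rw [S_eq h3 h4.symm, sub_sub_cancel]
    unfold T
    ring
  rw [h2, integral_const_mul, integral_add i1 i2, h1]
  ring

lemma prod_integrable_of {f g : E → ℝ} (hf : Integrable f) (hg : Prof g) (ξ : E) :
    Integrable fun η => f η * g (ξ - η) := by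
  obtain ⟨C, μ, hC, hμ, h⟩ := hg.bd
  refine hf.mul_bdd (c := C) ((hg.meas.comp (by fun_prop)).aestronglyMeasurable) ?_
  refine Eventually.of_forall fun η => ?_
  rw [Real.norm_eq_abs]
  refine (h _).trans ?_
  have := W_le_one hμ.le (ξ - η)
  nlinarith

lemma Q_eq_conv {g : E → ℝ} (hg : Prof g) (ξ : E) :
    Q g g ξ = (∫ η, g η * g (ξ - η)) + ∑ i, ∫ η, Bi g i η * Ai g i (ξ - η) := by
  rw [Q_eq_T hg, ← integral_finset_sum _ fun i _ =>
      prod_integrable_of (hg.Bi_integrable i) (hg.Ai i) ξ, ← integral_add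
      (prod_integrable_of hg.integrable hg ξ) (integrable_finset_sum _ fun i _ =>
      prod_integrable_of (hg.Bi_integrable i) (hg.Ai i) ξ)]
  refine integral_congr_ae ?_
  filter_upwards [ae_ne 0] with η h3
  have p : ‖η‖ ≠ 0 := norm_ne_zero_iff.2 h3
  have e1 : ∑ i, Bi g i η * Ai g i (ξ - η) = ⟪η, ξ - η⟫_ℝ / ‖η‖ ^ 2 * (g η * g (ξ - η)) := by
    unfold Bi Ai
    simp only [Fin.sum_univ_three, PiLp.inner_apply, RCLike.inner_apply, conj_trivial]
    ring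
  have e2 : ⟪η, ξ - η⟫_ℝ = ⟪ξ, η⟫_ℝ - ‖η‖ ^ 2 := by
    rw [inner_sub_right, real_inner_self_eq_norm_sq, real_inner_comm]
  rw [e1, e2]
  unfold T
  field_simp
  ring

/-- The nonlinear term in physical space. -/
lemma Ft_Q {g : E → ℝ} (hg : Prof g) (x : E) :
    Ft (Q g g) x = Ft g x ^ 2 + ∑ i, Ft (Bi g i) x * Ft (Ai g i) x := by
  have h1 : Ft (Q g g) x = ∫ ξ, (((∫ η, g η * g (ξ - η) : ℝ) : ℂ) * ee x ξ +
      ∑ i, ((∫ η, Bi g i η * Ai g i (ξ - η) : ℝ) : ℂ) * ee x ξ) := by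
    unfold Ft
    congr with ξ
    rw [Q_eq_conv hg]
    push_cast
    rw [add_mul, Finset.sum_mul]
  rw [h1, integral_add (conv_integrable hg.integrable hg.integrable x)
    (integrable_finset_sum _ fun i _ => conv_integrable (hg.Bi_integrable i) (hg.Ai i).integrable x),
    integral_finset_sum _ fun i _ => conv_integrable (hg.Bi_integrable i) (hg.Ai i).integrable x,
    Ft_conv hg.integrable hg.integrable, sq]
  congr 1
  refine Finset.sum_congr rfl fun i _ => ?_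
  exact Ft_conv (hg.Bi_integrable i) (hg.Ai i).integrable x

end H459R3.KS
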