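import Pool.Agent.H459R3.KS.Oper

/-!
Picard iteration.
-/

set_option autoImplicit false

open MeasureTheory Set Filter Topology
open scoped InnerProductSpace Real

namespace H459R3.KS

/-- The free evolution. -/
noncomputable def U (w0 : E → ℝ) (t : ℝ) (ξ : E) : ℝ := Real.exp (-(lam ξ * t)) * w0 ξ

lemma m_zero (μ₀ : ℝ) : m μ₀ 0 = μ₀ := by
  unfold m
  rw [abs_zero, Real.zero_rpow (by norm_num), add_zero]

/-- Admissible data in Fourier variables. -/
structure Data (μ₀ a : ℝ) (w0 : E → ℝ) : Prop where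
  mu : 0 < μ₀
  a0 : 0 ≤ a
  small : C0 * (2 * Real.exp 1 * a) ≤ 1 / 4
  meas : Measurable w0
  even : ∀ ξ, w0 (-ξ) = w0 ξ
  bd : ∀ ξ, |w0 ξ| ≤ a * W μ₀ ξ

variable {μ₀ a : ℝ} {w0 : E → ℝ}

lemma U_dom (h : Data μ₀ a w0) : Dom μ₀ (Real.exp 1 * a) (U w0) := by
  constructor
  · unfold U
    have h1 : Measurable fun p : ℝ × E => w0 p.2 := h.meas.comp measurable_snd
    have h2 : Measurable fun p : ℝ × E => Real.exp (-(lam p.2 * p.1)) := by
      have := continuous_lam.measurable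
      fun_prop
    exact (h2.mul h1).stronglyMeasurable
  · intro t ht ξ
    unfold U
    rw [abs_mul, abs_of_pos (Real.exp_pos _)]
    have h1 := heat_W μ₀ le_rfl ht ξ
    rw [m_zero, sub_zero] at h1
    have h2 := h.bd ξ
    have h3 : Real.exp (-(t * ‖ξ‖ ^ 2)) ≤ 1 := by
      apply Real.exp_le_one_iff.2
      have : 0 ≤ t * ‖ξ‖ ^ 2 := by positivity
      linarith
    have h4 := W_nonneg (m μ₀ t) ξ
    have h5 := h.a0
    calc Real.exp (-(lam ξ * t)) * |w0 ξ| ≤ Real.exp (-(lam ξ * t)) * (a * W μ₀ ξ) :=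
          mul_le_mul_of_nonneg_left h2 (Real.exp_pos _).le
      _ = a * (Real.exp (-(lam ξ * t)) * W μ₀ ξ) := by ring
      _ ≤ a * (Real.exp 1 * Real.exp (-(t * ‖ξ‖ ^ 2)) * W (m μ₀ t) ξ) :=
          mul_le_mul_of_nonneg_left h1 h5
      _ ≤ a * (Real.exp 1 * 1 * W (m μ₀ t) ξ) := by
          apply mul_le_mul_of_nonneg_left _ h5
          apply mul_le_mul_of_nonneg_right _ h4
          exact mul_le_mul_of_nonneg_left h3 (Real.exp_pos _).le
      _ = _ := by ring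

/-- The Picard iterates. -/
noncomputable def wseq (w0 : E → ℝ) : ℕ → ℝ → E → ℝ
  | 0 => U w0
  | k + 1 => fun t ξ => U w0 t ξ + N (wseq w0 k) (wseq w0 k) t ξ

lemma wseq_dom (h : Data μ₀ a w0) (k : ℕ) : Dom μ₀ (2 * Real.exp 1 * a) (wseq w0 k) := by
  have hε : 0 ≤ 2 * Real.exp 1 * a := by have := h.a0; positivity
  induction k with
  | zero =>
    refine (U_dom h).mono ?_
    have := mul_nonneg (Real.exp_pos 1).le h.a0
    linarith
  | succ k ih =>
    have h1 := (U_dom h).add (N_dom h.mu hε hε ih ih)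
    refine h1.mono ?_
    have h2 : C0 * ((2 * Real.exp 1 * a) * (2 * Real.exp 1 * a)) ≤ 1 / 4 * (2 * Real.exp 1 * a) := by
      rw [← mul_assoc]
      exact mul_le_mul_of_nonneg_right h.small hε
    linarith

lemma wseq_diff (h : Data μ₀ a w0) (k : ℕ) : Dom μ₀ (2 * Real.exp 1 * a / 2 ^ k)
    (fun t ξ => wseq w0 (k + 1) t ξ - wseq w0 k t ξ) := by
  have hε : 0 ≤ 2 * Real.exp 1 * a := by have := h.a0; positivity
  set ε := 2 * Real.exp 1 * a with hεd
  have hs : C0 * ε ≤ 1 / 4 := h.small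
  induction k with
  | zero =>
    have h1 := (wseq_dom h 0)
    have h2 := N_dom h.mu hε hε h1 h1
    have h3 : (fun t ξ => wseq w0 (0 + 1) t ξ - wseq w0 0 t ξ) = N (wseq w0 0) (wseq w0 0) := by
      funext t ξ
      simp only [wseq]
      ring
    rw [h3]
    refine h2.mono ?_
    have h4 : C0 * (ε * ε) ≤ 1 / 4 * ε := by
      rw [← mul_assoc]; exact mul_le_mul_of_nonneg_right hs hε
    simp only [pow_zero, div_one]
    linarith
  | succ k ih =>
    have h1 := wseq_dom h (k + 1)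
    have h2 := wseq_dom h k
    have hk : 0 ≤ ε / 2 ^ k := by positivity
    have h3 := (N_dom h.mu hk hε ih h1).add (N_dom h.mu hε hk h2 ih)
    have h4 : (fun t ξ => wseq w0 (k + 1 + 1) t ξ - wseq w0 (k + 1) t ξ) =
        (fun t ξ => N (fun t ξ => wseq w0 (k + 1) t ξ - wseq w0 k t ξ) (wseq w0 (k + 1)) t ξ +
          N (wseq w0 k) (fun t ξ => wseq w0 (k + 1) t ξ - wseq w0 k t ξ) t ξ) := by
      funext t ξ
      rw [← N_sub h.mu hε hε h1 h2 t ξ]
      simp only [wseq]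
      ring
    rw [h4]
    refine h3.mono ?_
    have h5 : C0 * (ε / 2 ^ k * ε) + C0 * (ε * (ε / 2 ^ k)) = 2 * (C0 * ε) * (ε / 2 ^ k) := by ring
    rw [h5, pow_succ]
    have h6 : 2 * (C0 * ε) * (ε / 2 ^ k) ≤ 2 * (1 / 4) * (ε / 2 ^ k) := by
      apply mul_le_mul_of_nonneg_right _ hk
      linarith
    refine h6.trans (le_of_eq ?_)
    field_simp
    norm_num

lemma wseq_of_neg {t : ℝ} (ht : t < 0) (ξ : E) (k : ℕ) : wseq w0 k t ξ = U w0 t ξ := by
  cases k with
  | zero => rfl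
  | succ k =>
    simp only [wseq]
    unfold N
    rw [Ioc_eq_empty_of_le ht.le]
    simp

lemma wseq_cauchy (h : Data μ₀ a w0) (t : ℝ) (ξ : E) :
    ∃ l, Tendsto (fun k => wseq w0 k t ξ) atTop (𝓝 l) := by
  rcases lt_or_ge t 0 with ht | ht
  · exact ⟨U w0 t ξ, by simp_rw [wseq_of_neg ht ξ]; exact tendsto_const_nhds⟩
  · refine cauchySeq_tendsto_of_complete ?_
    refine cauchySeq_of_le_geometric_two (C := 2 * (2 * Real.exp 1 * a * W (m μ₀ t) ξ)) fun k => ?_
    rw [dist_comm, Real.dist_eq]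
    refine ((wseq_diff h k).bd t ht ξ).trans (le_of_eq ?_)
    ring

/-- The solution in Fourier variables. -/
noncomputable def sol (w0 : E → ℝ) (t : ℝ) (ξ : E) : ℝ :=
  limUnder atTop fun k => wseq w0 k t ξ

lemma sol_tendsto (h : Data μ₀ a w0) (t : ℝ) (ξ : E) :
    Tendsto (fun k => wseq w0 k t ξ) atTop (𝓝 (sol w0 t ξ)) :=
  tendsto_nhds_limUnder (wseq_cauchy h t ξ)

lemma sol_dom (h : Data μ₀ a w0) : Dom μ₀ (2 * Real.exp 1 * a) (sol w0) := by
  constructor
  · refine stronglyMeasurable_of_tendsto atTop (f := fun k (p : ℝ × E) => wseq w0 k p.1 p.2)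
      (fun k => (wseq_dom h k).meas) ?_
    rw [tendsto_pi_nhds]
    exact fun p => sol_tendsto h p.1 p.2
  · intro t ht ξ
    exact le_of_tendsto (sol_tendsto h t ξ).abs
      (Eventually.of_forall fun k => (wseq_dom h k).bd t ht ξ)

lemma sol_diff (h : Data μ₀ a w0) (k : ℕ) : Dom μ₀ (2 * (2 * Real.exp 1 * a) / 2 ^ k)
    (fun t ξ => sol w0 t ξ - wseq w0 k t ξ) := by
  refine ⟨(sol_dom h).meas.sub (wseq_dom h k).meas, fun t ht ξ => ?_⟩
  have h1 : ∀ j, dist (wseq w0 j t ξ) (wseq w0 (j + 1) t ξ) ≤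
      2 * (2 * Real.exp 1 * a * W (m μ₀ t) ξ) / 2 / 2 ^ j := by
    intro j
    rw [dist_comm, Real.dist_eq]
    refine ((wseq_diff h j).bd t ht ξ).trans (le_of_eq ?_)
    ring
  have := dist_le_of_le_geometric_two_of_tendsto h1 (sol_tendsto h t ξ) k
  rw [dist_comm, Real.dist_eq] at this
  refine this.trans (le_of_eq ?_)
  ring

lemma sol_eq (h : Data μ₀ a w0) {t : ℝ} (ht : 0 ≤ t) (ξ : E) :
    sol w0 t ξ = U w0 t ξ + N (sol w0) (sol w0) t ξ := by
  have hε : 0 ≤ 2 * Real.exp 1 * a := by have := h.a0; positivity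
  set ε := 2 * Real.exp 1 * a with hεd
  have hlim : Tendsto (fun k => wseq w0 (k + 1) t ξ) atTop
      (𝓝 (U w0 t ξ + N (sol w0) (sol w0) t ξ)) := by
    have hb : ∀ k, |wseq w0 (k + 1) t ξ - (U w0 t ξ + N (sol w0) (sol w0) t ξ)| ≤
        (4 * (C0 * ε * ε) * W (m μ₀ t) ξ) / 2 ^ k := by
      intro k
      have hk : 0 ≤ 2 * ε / 2 ^ k := by positivity
      have e1 : wseq w0 (k + 1) t ξ - (U w0 t ξ + N (sol w0) (sol w0) t ξ) =
          -(N (sol w0) (sol w0) t ξ - N (wseq w0 k) (wseq w0 k) t ξ) := by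
        simp only [wseq]; ring
      rw [e1, abs_neg, N_sub h.mu hε hε (sol_dom h) (wseq_dom h k) t ξ]
      have h3 := ((N_dom h.mu hk hε (sol_diff h k) (sol_dom h)).add
        (N_dom h.mu hε hk (wseq_dom h k) (sol_diff h k))).bd t ht ξ
      refine h3.trans (le_of_eq ?_)
      ring
    rw [tendsto_iff_norm_sub_tendsto_zero]
    refine squeeze_zero (g := fun k : ℕ => (4 * (C0 * ε * ε) * W (m μ₀ t) ξ) / 2 ^ k)
      (fun k => norm_nonneg _) (fun k => by rw [Real.norm_eq_abs]; exact hb k) ?_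
    have : Tendsto (fun k : ℕ => (4 * (C0 * ε * ε) * W (m μ₀ t) ξ) * (1 / 2 : ℝ) ^ k) atTop
        (𝓝 ((4 * (C0 * ε * ε) * W (m μ₀ t) ξ) * 0)) :=
      (tendsto_pow_atTop_nhds_zero_of_lt_one (by norm_num) (by norm_num)).const_mul _
    rw [mul_zero] at this
    refine this.congr fun k => ?_
    simp only [div_eq_mul_inv, one_mul, inv_pow]
  exact tendsto_nhds_unique ((tendsto_add_atTop_iff_nat 1).2 (sol_tendsto h t ξ)) hlim

lemma wseq_even (h : Data μ₀ a w0) (k : ℕ) (t : ℝ) (ξ : E) : wseq w0 k t (-ξ) = wseq w0 k t ξ := by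
  have hU : ∀ t ξ, U w0 t (-ξ) = U w0 t ξ := by
    intro t ξ
    unfold U
    rw [h.even]
    congr 3
    unfold lam
    rw [norm_neg]
  induction k generalizing t ξ with
  | zero => exact hU t ξ
  | succ k ih =>
    simp only [wseq]
    rw [hU, N_neg ih ih]

lemma sol_even (h : Data μ₀ a w0) (t : ℝ) (ξ : E) : sol w0 t (-ξ) = sol w0 t ξ := by
  refine tendsto_nhds_unique (sol_tendsto h t (-ξ)) ?_
  simp_rw [wseq_even h]
  exact sol_tendsto h t ξ

lemma sol_zero (h : Data μ₀ a w0) (ξ : E) : sol w0 0 ξ = w0 ξ := by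
  rw [sol_eq h le_rfl]
  unfold U N
  simp

attribute [irreducible] sol

end H459R3.KS
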