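import Pool.Agent.H459R3.KS.Grad

/-!
Positivity of the density.
-/

set_option autoImplicit false

open MeasureTheory Set Filter Topology
open scoped InnerProductSpace Real FourierTransform

namespace H459R3.KS

variable {μ₀ a : ℝ} {w0 : E → ℝ}

lemma Ft_tendsto (g : E → ℝ) : Tendsto (Ft g) (cocompact E) (𝓝 0) := by
  have h1 := tendsto_integral_exp_inner_smul_cocompact (fun ξ : E => ((g ξ : ℝ) : ℂ))
  have h2 : Tendsto (fun x : E => -x) (cocompact E) (cocompact E) :=
    (Homeomorph.neg E).isClosedEmbedding.tendsto_cocompact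
  have h3 := h1.comp h2
  refine h3.congr fun x => ?_
  exact fourier_neg (fun ξ : E => ((g ξ : ℝ) : ℂ)) x

lemma sol_lip (h : Data μ₀ a w0) : ∃ C μ, 0 ≤ C ∧ 0 < μ ∧ ∀ s t, 0 ≤ s → s ≤ t → ∀ ξ,
    |sol w0 t ξ - sol w0 s ξ| ≤ (t - s) * (C * W μ ξ) := by
  obtain ⟨C, μ, hC, hμ, hb⟩ := (sol_sym1 h).s1.bd
  refine ⟨C, μ, hC, hμ, fun s t hs hst ξ => ?_⟩
  rcases hst.eq_or_lt with rfl | hlt
  · simp
  obtain ⟨c, hc, hc2⟩ := exists_hasDerivAt_eq_slope (fun t => sol w0 t ξ) (fun t => w1 w0 t ξ) hlt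
    ((sol_contOn h ξ).mono fun r hr => hs.trans hr.1)
    (fun r hr => sol_der h (hs.trans_lt hr.1) ξ)
  have h1 := hb c (hs.trans_lt hc.1) ξ
  have hts : 0 < t - s := sub_pos.2 hlt
  rw [hc2, abs_div, abs_of_pos hts, div_le_iff₀ hts] at h1
  linarith

lemma nn_lip (h : Data μ₀ a w0) : ∃ K, 0 ≤ K ∧ ∀ s t, 0 ≤ s → 0 ≤ t → ∀ x,
    |nn w0 t x - nn w0 s x| ≤ K * |t - s| := by
  obtain ⟨C, μ, hC, hμ, hb⟩ := sol_lip h
  have key : ∀ s t, 0 ≤ s → s ≤ t → ∀ x, |nn w0 t x - nn w0 s x| ≤ (C * ∫ ξ, W μ ξ) * |t - s| := by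
    intro s t hs hst x
    have i1 : Integrable fun ξ => ((sol w0 t ξ : ℝ) : ℂ) * ee x ξ := by
      obtain ⟨C, μ, hC, hμ, hb⟩ := (sol_prof h (hs.trans hst)).bd
      exact Z_integrable (sol_prof h (hs.trans hst)).meas hμ hb x
    have i2 : Integrable fun ξ => ((sol w0 s ξ : ℝ) : ℂ) * ee x ξ := by
      obtain ⟨C, μ, hC, hμ, hb⟩ := (sol_prof h hs).bd
      exact Z_integrable (sol_prof h hs).meas hμ hb x
    have e : Ft (sol w0 t) x - Ft (sol w0 s) x =
        ∫ ξ, (((sol w0 t ξ : ℝ) : ℂ) * ee x ξ - ((sol w0 s ξ : ℝ) : ℂ) * ee x ξ) :=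
      (integral_sub i1 i2).symm
    unfold nn
    rw [← Complex.sub_re, e]
    refine (Complex.abs_re_le_norm _).trans ?_
    have h2 : ∀ ξ, ‖((sol w0 t ξ : ℝ) : ℂ) * ee x ξ - ((sol w0 s ξ : ℝ) : ℂ) * ee x ξ‖ ≤
        (t - s) * (C * W μ ξ) := by
      intro ξ
      rw [← sub_mul, norm_mul, norm_ee, mul_one, ← Complex.ofReal_sub, Complex.norm_real,
        Real.norm_eq_abs]
      exact hb s t hs hst ξ
    refine (norm_integral_le_of_norm_le (((integrable_W hμ).const_mul C).const_mul (t - s))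
      (Eventually.of_forall h2)).trans (le_of_eq ?_)
    rw [integral_const_mul, integral_const_mul, abs_of_nonneg (sub_nonneg.2 hst)]
    ring
  have hK : 0 ≤ C * ∫ ξ, W μ ξ := mul_nonneg hC (integral_nonneg fun ξ => W_nonneg μ ξ)
  refine ⟨C * ∫ ξ, W μ ξ, hK, fun s t hs ht x => ?_⟩
  rcases le_total s t with hst | hst
  · exact key s t hs hst x
  · rw [abs_sub_comm, abs_sub_comm t s]
    exact key t s ht hst x

lemma nn_continuousOn (h : Data μ₀ a w0) :
    ContinuousOn (fun p : ℝ × E => nn w0 p.1 p.2) (Ici 0 ×ˢ univ) := by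
  have h1 : ContinuousOn (fun p : ℝ × E => ∫ ξ, ((sol w0 p.1 ξ : ℝ) : ℂ) * ee p.2 ξ)
      (Ici 0 ×ˢ univ) := by
    refine continuousOn_of_dominated (bound := fun ξ => 2 * Real.exp 1 * a * W μ₀ ξ) ?_ ?_ ?_ ?_
    · intro p hp
      obtain ⟨C, μ, hC, hμ, hb⟩ := (sol_prof h hp.1).bd
      exact (Z_integrable (sol_prof h hp.1).meas hμ hb p.2).aestronglyMeasurable
    · intro p hp
      refine Eventually.of_forall fun ξ => ?_
      rw [norm_mul, norm_ee, mul_one, Complex.norm_real, Real.norm_eq_abs]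
      exact sol_bd h hp.1 ξ
    · exact (integrable_W h.mu).const_mul _
    · refine Eventually.of_forall fun ξ => ?_
      refine ContinuousOn.mul ?_ ?_
      · have h1 : ContinuousOn (fun t => ((sol w0 t ξ : ℝ) : ℂ)) (Ici 0) :=
          Complex.continuous_ofReal.comp_continuousOn (sol_contOn h ξ)
        exact h1.comp continuousOn_fst (fun p hp => hp.1)
      · exact ((continuous_ee_left ξ).comp continuous_snd).continuousOn
  exact Complex.continuous_re.comp_continuousOn h1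

lemma nn_decay (h : Data μ₀ a w0) {T c : ℝ} (hc : 0 < c) :
    ∀ᶠ x in cocompact E, ∀ t ∈ Icc 0 T, |nn w0 t x| < c := by
  obtain ⟨K, hK, hL⟩ := nn_lip h
  have hr : 0 < c / (2 * (K + 1)) := by positivity
  obtain ⟨s, hs, hcov⟩ := (isCompact_Icc (a := (0 : ℝ)) (b := T)).elim_nhds_subcover
    (fun t => Metric.ball t (c / (2 * (K + 1)))) (fun t _ => Metric.ball_mem_nhds t hr)
  have h1 : ∀ᶠ x in cocompact E, ∀ t ∈ s, |nn w0 t x| < c / 2 := by
    rw [Finset.eventually_all]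
    intro t _
    have h2 : Tendsto (fun x => nn w0 t x) (cocompact E) (𝓝 0) := by
      have := (Complex.continuous_re.tendsto 0).comp (Ft_tendsto (sol w0 t))
      rw [Complex.zero_re] at this
      exact this
    have h3 := (tendsto_order.1 h2.abs).2 (c / 2) (by rw [abs_zero]; positivity)
    exact h3
  filter_upwards [h1] with x hx t ht
  obtain ⟨t', ht', htt⟩ := mem_iUnion₂.1 (hcov ht)
  have h4 := hL t' t (hs t' ht').1 ht.1 x
  have h5 := hx t' ht'
  have h6 : |t - t'| < c / (2 * (K + 1)) := by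
    rw [Metric.mem_ball, Real.dist_eq] at htt; exact htt
  have h7 : K * |t - t'| ≤ c / 2 := by
    have : K * |t - t'| ≤ (K + 1) * (c / (2 * (K + 1))) :=
      mul_le_mul (by linarith) h6.le (abs_nonneg _) (by linarith)
    refine this.trans (le_of_eq ?_)
    field_simp
  calc |nn w0 t x| ≤ |nn w0 t x - nn w0 t' x| + |nn w0 t' x| := by
        have := abs_add_le (nn w0 t x - nn w0 t' x) (nn w0 t' x)
        simpa using this
    _ < c := by linarith

/-- Second derivative test along a line. -/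
lemma second_nonneg {f f' : ℝ → ℝ} {d : ℝ} (hf : ∀ r, HasDerivAt f (f' r) r)
    (hf' : HasDerivAt f' d 0) (hmin : IsLocalMin f 0) : 0 ≤ d := by
  by_contra hd
  push Not at hd
  have e1 : deriv f = f' := funext fun r => (hf r).deriv
  have h1 : deriv (deriv f) 0 < 0 := by rw [e1, hf'.deriv]; exact hd
  have h2 : deriv f 0 = 0 := hmin.deriv_eq_zero
  have h3 := isLocalMax_of_deriv_deriv_neg h1 h2 (hf 0).continuousAt
  have h4 : f =ᶠ[𝓝 0] fun _ : ℝ => f 0 := by
    filter_upwards [hmin, h3] with r hr1 hr2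
    exact le_antisymm hr2 hr1
  have h5 : deriv f =ᶠ[𝓝 0] deriv fun _ : ℝ => f 0 := h4.deriv
  have h6 : deriv (deriv f) 0 = deriv (deriv fun _ : ℝ => f 0) 0 := h5.deriv_eq
  simp at h6
  linarith

lemma nn_second_nonneg (h : Data μ₀ a w0) {t : ℝ} (ht : 0 < t) (x : E)
    (hmin : ∀ y, nn w0 t x ≤ nn w0 t y) (j : Fin 3) :
    0 ≤ iteratedFDeriv ℝ 2 (nn w0 t) x
      ![EuclideanSpace.single j (1 : ℝ), EuclideanSpace.single j (1 : ℝ)] := by
  rw [nn_second h ht x j]
  have hl : ∀ r : ℝ, HasDerivAt (fun r : ℝ => x + r • (EuclideanSpace.single j (1 : ℝ) : E))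
      (EuclideanSpace.single j (1 : ℝ) : E) r := by
    intro r
    have := ((hasDerivAt_id r).smul_const (EuclideanSpace.single j (1 : ℝ) : E)).const_add x
    simpa using this
  refine second_nonneg (f := fun r => nn w0 t (x + r • (EuclideanSpace.single j (1 : ℝ) : E)))
    (f' := fun r => (2 * π * Complex.I * Ft (Ai (sol w0 t) j)
      (x + r • (EuclideanSpace.single j (1 : ℝ) : E))).re) ?_ ?_ ?_
  · intro r
    have h1 := (nn_x_der h ht (x + r • (EuclideanSpace.single j (1 : ℝ) : E))).comp_hasDerivAt r (hl r)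
    convert! h1 using 1
    simp only [ContinuousLinearMap.sum_apply, ContinuousLinearMap.smul_apply, smul_eq_mul]
    fin_cases j <;> simp [Fin.sum_univ_three]
  · have h0 := re_x_der ((sol_sym1 h).co j) ht (2 * π * Complex.I)
      (x + (0 : ℝ) • (EuclideanSpace.single j (1 : ℝ) : E))
    have h1 := h0.comp_hasDerivAt 0 (hl 0)
    rw [zero_smul, add_zero] at h1
    convert! h1 using 1
    simp only [ContinuousLinearMap.sum_apply, ContinuousLinearMap.smul_apply, smul_eq_mul]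
    have e : Ai (co j (sol w0) t) = Ai (Ai (sol w0 t) j) := rfl
    rw [e]
    fin_cases j <;> simp [Fin.sum_univ_three]
  · refine Eventually.of_forall fun r => ?_
    simp only [zero_smul, add_zero]
    exact hmin _

/-- The minimum principle. -/
lemma nn_nonneg (h : Data μ₀ a w0) (h0 : ∀ x, 0 ≤ nn w0 0 x) {t : ℝ} (ht : 0 ≤ t) (x : E) :
    0 ≤ nn w0 t x := by
  by_contra hneg
  push Not at hneg
  set c := nn w0 t x with hc
  -- the sublevel set
  have hdec := nn_decay h (T := t) (c := -c) (by linarith)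
  rw [Filter.eventually_iff, Filter.mem_cocompact] at hdec
  obtain ⟨K, hK, hKs⟩ := hdec
  have hcomp : IsCompact (Icc 0 t ×ˢ K) := isCompact_Icc.prod hK
  have hin : ∀ s ∈ Icc 0 t, ∀ y, nn w0 s y ≤ c → y ∈ K := by
    intro s hs y hy
    by_contra hyK
    have h1 := hKs hyK s hs
    rw [abs_lt] at h1
    linarith [h1.1]
  have hxK : x ∈ K := hin t ⟨ht, le_rfl⟩ x le_rfl
  obtain ⟨⟨t0, x0⟩, hm, hmin⟩ := hcomp.exists_isMinOn ⟨(t, x), ⟨⟨ht, le_rfl⟩, hxK⟩⟩
    ((nn_continuousOn h).mono fun p hp => ⟨hp.1.1, mem_univ _⟩)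
  have hmin' := isMinOn_iff.1 hmin
  have hle : nn w0 t0 x0 ≤ c := hmin' (t, x) ⟨⟨ht, le_rfl⟩, hxK⟩
  have hglob : ∀ s ∈ Icc 0 t, ∀ y, nn w0 t0 x0 ≤ nn w0 s y := by
    intro s hs y
    by_cases hy : nn w0 s y ≤ c
    · exact hmin' (s, y) ⟨hs, hin s hs y hy⟩
    · push Not at hy
      exact hle.trans hy.le
  have ht0 : 0 < t0 := by
    rcases hm.1.1.eq_or_lt with h1 | h1
    · exfalso
      have := h0 x0
      simp only at h1
      rw [h1] at this
      linarith
    · exact h1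
  have hpde := nn_pde h ht0 x0
  have hx0 : fderiv ℝ (nn w0 t0) x0 = 0 := by
    refine IsLocalMin.fderiv_eq_zero (Eventually.of_forall fun y => ?_)
    exact hglob t0 hm.1 y
  have hlap : 0 ≤ ∑ j : Fin 3, iteratedFDeriv ℝ 2 (nn w0 t0) x0
      ![EuclideanSpace.single j (1 : ℝ), EuclideanSpace.single j (1 : ℝ)] :=
    Finset.sum_nonneg fun j _ => nn_second_nonneg h ht0 x0 (fun y => hglob t0 hm.1 y) j
  have htime : deriv (fun s => nn w0 s x0) t0 ≤ 0 := by
    have hd : HasDerivAt (fun s => nn w0 s x0) (deriv (fun s => nn w0 s x0) t0) t0 := by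
      have := Complex.reCLM.hasFDerivAt.comp_hasDerivAt t0 (Ft_t_der (sol_sym1 h) ht0 x0)
      exact this.differentiableAt.hasDerivAt
    have h2 := (hasDerivWithinAt_iff_tendsto_slope' (s := Iio t0) (by simp)).1
      (hd.hasDerivWithinAt (s := Iio t0))
    refine le_of_tendsto h2 ?_
    have h3 : Ioo 0 t0 ∈ 𝓝[<] t0 := Ioo_mem_nhdsLT ht0
    filter_upwards [h3] with s hs
    rw [slope_def_field]
    have h4 := hglob s ⟨hs.1.le, hs.2.le.trans hm.1.2⟩ x0
    exact div_nonpos_of_nonneg_of_nonpos (sub_nonneg.2 h4) (sub_nonpos.2 hs.2.le)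
  rw [hx0] at hpde
  simp only [ContinuousLinearMap.zero_apply, sub_zero] at hpde
  have hsq : 0 < nn w0 t0 x0 ^ 2 := by
    have : nn w0 t0 x0 < 0 := hle.trans_lt hneg
    exact even_two.pow_pos this.ne
  linarith

end H459R3.KS
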