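import Pool.Agent.H459R3.KS.L1

/-!
The Riesz kernel formula for the gradient of the potential.
-/

set_option autoImplicit false

open MeasureTheory Set Filter Topology
open scoped InnerProductSpace Real FourierTransform

namespace H459R3.KS

/-! ### One dimensional integrals -/

lemma J1_int {r : ℝ} (hr : 0 < r) :
    IntegrableOn (fun s : ℝ => s ^ (1 / 2 : ℝ) * Real.exp (-s * r ^ 2)) (Ioi 0) := by
  have h := integrableOn_rpow_mul_exp_neg_mul_rpow (p := 1) (s := 1 / 2) (b := r ^ 2)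
    (by norm_num) (by norm_num) (by positivity)
  refine h.congr_fun (fun s hs => ?_) measurableSet_Ioi
  simp only [Real.rpow_one]
  congr 2
  ring

lemma J1_val {r : ℝ} (hr : 0 < r) :
    ∫ s in Ioi (0 : ℝ), s ^ (1 / 2 : ℝ) * Real.exp (-s * r ^ 2) = √π / 2 / r ^ 3 := by
  have h := Real.integral_rpow_mul_exp_neg_mul_Ioi (a := 3 / 2) (r := r ^ 2) (by norm_num)
    (by positivity)
  have e1 : ∫ s in Ioi (0 : ℝ), s ^ (1 / 2 : ℝ) * Real.exp (-s * r ^ 2) =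
      ∫ t in Ioi (0 : ℝ), t ^ ((3 / 2 : ℝ) - 1) * Real.exp (-(r ^ 2 * t)) := by
    refine setIntegral_congr_fun measurableSet_Ioi fun s _ => ?_
    congr 2
    · norm_num
    · ring
  rw [e1, h]
  have e2 : Real.Gamma (3 / 2) = √π / 2 := by
    have : (3 / 2 : ℝ) = 1 / 2 + 1 := by norm_num
    rw [this, Real.Gamma_add_one (by norm_num), Real.Gamma_one_half_eq]
    ring
  have e3 : (1 / r ^ 2) ^ (3 / 2 : ℝ) = 1 / r ^ 3 := by
    rw [Real.div_rpow (by norm_num) (by positivity), Real.one_rpow, ← Real.rpow_natCast r 2,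
      ← Real.rpow_mul hr.le, ← Real.rpow_natCast r 3]
    norm_num
  rw [e2, e3]
  ring

lemma J2_int {A : ℝ} (hA : 0 < A) :
    IntegrableOn (fun s : ℝ => s ^ (-2 : ℝ) * Real.exp (-(A / s))) (Ioi 0) := by
  have h := (integrableOn_Ioi_comp_rpow_iff' (fun y : ℝ => Real.exp (-A * y)) (p := -1)
    (by norm_num)).2 (integrableOn_exp_mul_Ioi (by linarith) 0)
  refine h.congr_fun (fun s hs => ?_) measurableSet_Ioi
  simp only [smul_eq_mul]
  rw [Real.rpow_neg_one]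
  congr 2
  · norm_num
  · field_simp

lemma J2_val {A : ℝ} (hA : 0 < A) :
    ∫ s in Ioi (0 : ℝ), s ^ (-2 : ℝ) * Real.exp (-(A / s)) = 1 / A := by
  have h := integral_comp_rpow_Ioi (fun y : ℝ => Real.exp (-A * y)) (p := -1) (by norm_num)
  have h2 : ∫ y in Ioi (0 : ℝ), Real.exp (-A * y) = 1 / A := by
    rw [integral_exp_mul_Ioi (by linarith) 0]
    simp
  rw [h2] at h
  rw [← h]
  refine setIntegral_congr_fun measurableSet_Ioi fun s _ => ?_
  simp only [smul_eq_mul]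
  rw [Real.rpow_neg_one]
  have : |(-1 : ℝ)| = 1 := by norm_num
  rw [this, one_mul]
  congr 2
  · norm_num
  · field_simp

/-! ### Local integrability of the inverse square -/

lemma integrable_k3 : Integrable fun r : ℝ => |r| ^ (-(2 / 3) : ℝ) * Real.exp (-1 * |r| ^ (1 : ℝ)) := by
  have h := integrableOn_rpow_mul_exp_neg_mul_rpow (p := 1) (s := -(2 / 3)) (b := 1)
    (by norm_num) (by norm_num) (by norm_num)
  set k : ℝ → ℝ := fun r : ℝ => |r| ^ (-(2 / 3) : ℝ) * Real.exp (-1 * |r| ^ (1 : ℝ)) with hk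
  have h1 : IntegrableOn k (Ioi 0) := by
    refine h.congr_fun (fun x hx => ?_) measurableSet_Ioi
    simp only [hk, abs_of_pos (mem_Ioi.1 hx)]
  have h2 : IntegrableOn k (Iic 0) := by
    have : IntegrableOn (fun x => k (-x)) (Iic 0) := by
      have h3 := (integrableOn_Ici_iff_integrableOn_Ioi (by simp)).2 h1
      have h4 : IntegrableOn k (Ici (-0)) := by simpa using h3
      exact h4.comp_neg_Iic
    refine this.congr_fun (fun x _ => ?_) measurableSet_Iic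
    simp [hk]
  have := h2.union h1
  rwa [Iic_union_Ioi, integrableOn_univ] at this

lemma inv_sq_bound : ∃ hh : E → ℝ, Integrable hh ∧ (∀ z, 0 ≤ hh z) ∧
    ∀ᵐ z : E, ‖z‖ ≤ 1 → 1 / ‖z‖ ^ 2 ≤ hh z := by
  set k : ℝ → ℝ := fun r : ℝ => |r| ^ (-(2 / 3) : ℝ) * Real.exp (-1 * |r| ^ (1 : ℝ)) with hk
  have hi : Integrable fun z : E => k (z 0) * k (z 1) * k (z 2) := by
    refine integrable_prod3 (f := ![k, k, k]) fun i => ?_
    fin_cases i <;> exact integrable_k3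
  refine ⟨fun z => Real.exp 3 * (k (z 0) * k (z 1) * k (z 2)), hi.const_mul _, fun z => ?_, ?_⟩
  · simp only [hk]; positivity
  filter_upwards [ae_coord 0, ae_coord 1, ae_coord 2] with z h0 h1 h2 hz
  have key : ∀ i : Fin 3, z i ≠ 0 → ‖z‖ ^ (-(2 / 3) : ℝ) ≤ Real.exp 1 * k (z i) := by
    intro i hi0
    have p : 0 < |z i| := abs_pos.2 hi0
    have hle := abs_coord_le z i
    have e1 : ‖z‖ ^ (-(2 / 3) : ℝ) ≤ |z i| ^ (-(2 / 3) : ℝ) :=
      Real.rpow_le_rpow_of_nonpos p hle (by norm_num)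
    have e2 : 1 ≤ Real.exp 1 * Real.exp (-1 * |z i| ^ (1 : ℝ)) := by
      rw [← Real.exp_add]
      apply Real.one_le_exp
      rw [Real.rpow_one]
      linarith
    simp only [hk]
    calc ‖z‖ ^ (-(2 / 3) : ℝ) ≤ |z i| ^ (-(2 / 3) : ℝ) * 1 := by rw [mul_one]; exact e1
      _ ≤ |z i| ^ (-(2 / 3) : ℝ) * (Real.exp 1 * Real.exp (-1 * |z i| ^ (1 : ℝ))) :=
          mul_le_mul_of_nonneg_left e2 (by positivity)
      _ = _ := by ring
  have pz : 0 < ‖z‖ := (abs_pos.2 h0).trans_le (abs_coord_le z 0)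
  have e3 : 1 / ‖z‖ ^ 2 = ‖z‖ ^ (-(2 / 3) : ℝ) * ‖z‖ ^ (-(2 / 3) : ℝ) * ‖z‖ ^ (-(2 / 3) : ℝ) := by
    rw [← Real.rpow_add pz, ← Real.rpow_add pz, one_div, ← Real.rpow_natCast, ← Real.rpow_neg pz.le]
    norm_num
  have hp : 0 ≤ ‖z‖ ^ (-(2 / 3) : ℝ) := by positivity
  have hk0 : ∀ r, 0 ≤ k r := fun r => by simp only [hk]; positivity
  have he : (0 : ℝ) ≤ Real.exp 1 := (Real.exp_pos 1).le
  rw [e3]
  calc ‖z‖ ^ (-(2 / 3) : ℝ) * ‖z‖ ^ (-(2 / 3) : ℝ) * ‖z‖ ^ (-(2 / 3) : ℝ)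
      ≤ (Real.exp 1 * k (z 0)) * (Real.exp 1 * k (z 1)) * (Real.exp 1 * k (z 2)) :=
        mul_le_mul (mul_le_mul (key 0 h0) (key 1 h1) hp (mul_nonneg he (hk0 _))) (key 2 h2) hp
          (mul_nonneg (mul_nonneg he (hk0 _)) (mul_nonneg he (hk0 _)))
    _ = (Real.exp 1 * Real.exp 1 * Real.exp 1) * (k (z 0) * k (z 1) * k (z 2)) := by ring
    _ = Real.exp 3 * (k (z 0) * k (z 1) * k (z 2)) := by
        rw [← Real.exp_add, ← Real.exp_add]
        norm_num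

/-- `n(y)/|x-y|²` is integrable for bounded integrable `n`. -/
lemma pot_integrable {n : E → ℝ} (hn : Integrable n) {M : ℝ} (hM : ∀ y, |n y| ≤ M) (x : E) :
    Integrable fun y => n y / ‖x - y‖ ^ 2 := by
  obtain ⟨hh, hhi, hh0, hhb⟩ := inv_sq_bound
  have hM0 : 0 ≤ M := (abs_nonneg _).trans (hM 0)
  have i1 : Integrable fun y => M * hh (x - y) + |n y| :=
    ((hhi.comp_sub_left x).const_mul M).add hn.abs
  refine Integrable.mono' i1 ?_ ?_
  · exact (hn.aestronglyMeasurable.aemeasurable.div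
      (by fun_prop : Measurable fun y : E => ‖x - y‖ ^ 2).aemeasurable).aestronglyMeasurable
  · filter_upwards [ae_sub_left x hhb] with y hy
    rw [Real.norm_eq_abs, abs_div, abs_of_nonneg (by positivity : (0 : ℝ) ≤ ‖x - y‖ ^ 2)]
    rcases le_total ‖x - y‖ 1 with h1 | h1
    · have h2 := hy h1
      calc |n y| / ‖x - y‖ ^ 2 = |n y| * (1 / ‖x - y‖ ^ 2) := by ring
        _ ≤ M * hh (x - y) := mul_le_mul (hM y) h2 (by positivity) hM0
        _ ≤ M * hh (x - y) + |n y| := by linarith [abs_nonneg (n y)]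
    · have h2 : |n y| / ‖x - y‖ ^ 2 ≤ |n y| := by
        apply div_le_self (abs_nonneg _)
        exact one_le_pow₀ h1
      have h3 : 0 ≤ M * hh (x - y) := mul_nonneg hM0 (hh0 _)
      linarith

/-! ### The Fourier transform of `z_i e^{-s|z|²}` -/

/-- `z_i e^{-s|z|²}`. -/
noncomputable def KK (s : ℝ) (i : Fin 3) (z : E) : ℝ := z i * Real.exp (-s * ‖z‖ ^ 2)

lemma continuous_KK (s : ℝ) (i : Fin 3) : Continuous (KK s i) := by unfold KK; fun_prop

lemma integrable_norm_gauss {s : ℝ} (hs : 0 < s) :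
    Integrable fun z : E => ‖z‖ * Real.exp (-s * ‖z‖ ^ 2) := by
  have h := (integrable_gauss (by positivity : 0 < s / 2)).const_mul (1 + 2 / s)
  refine Integrable.mono' h (by fun_prop) (Eventually.of_forall fun z => ?_)
  rw [Real.norm_of_nonneg (by positivity)]
  have e1 : Real.exp (-s * ‖z‖ ^ 2) = Real.exp (-(s / 2) * ‖z‖ ^ 2) * Real.exp (-(s / 2) * ‖z‖ ^ 2) := by
    rw [← Real.exp_add]; congr 1; ring
  have e2 : ‖z‖ * Real.exp (-(s / 2) * ‖z‖ ^ 2) ≤ 1 + 2 / s := by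
    have e3 : Real.exp (-(s / 2) * ‖z‖ ^ 2) * Real.exp ((s / 2) * ‖z‖ ^ 2) = 1 := by
      rw [← Real.exp_add]; simp
    have e4 := Real.add_one_le_exp ((s / 2) * ‖z‖ ^ 2)
    have e5 : ‖z‖ ≤ (1 + 2 / s) * Real.exp ((s / 2) * ‖z‖ ^ 2) := by
      calc ‖z‖ ≤ 1 + ‖z‖ ^ 2 := by nlinarith [sq_nonneg (‖z‖ - 1), norm_nonneg z]
        _ ≤ (1 + 2 / s) * ((s / 2) * ‖z‖ ^ 2 + 1) := by
            have : (1 + 2 / s) * ((s / 2) * ‖z‖ ^ 2 + 1) =
              1 + ‖z‖ ^ 2 + (s / 2) * ‖z‖ ^ 2 + 2 / s := by field_simp; ring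
            rw [this]
            have : 0 ≤ (s / 2) * ‖z‖ ^ 2 + 2 / s := by positivity
            linarith
        _ ≤ _ := mul_le_mul_of_nonneg_left e4 (by positivity)
    calc ‖z‖ * Real.exp (-(s / 2) * ‖z‖ ^ 2)
        ≤ ((1 + 2 / s) * Real.exp ((s / 2) * ‖z‖ ^ 2)) * Real.exp (-(s / 2) * ‖z‖ ^ 2) :=
          mul_le_mul_of_nonneg_right e5 (Real.exp_pos _).le
      _ = (1 + 2 / s) * (Real.exp (-(s / 2) * ‖z‖ ^ 2) * Real.exp ((s / 2) * ‖z‖ ^ 2)) := by ring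
      _ = 1 + 2 / s := by rw [e3, mul_one]
  calc ‖z‖ * Real.exp (-s * ‖z‖ ^ 2) = (‖z‖ * Real.exp (-(s / 2) * ‖z‖ ^ 2)) *
        Real.exp (-(s / 2) * ‖z‖ ^ 2) := by rw [e1]; ring
    _ ≤ (1 + 2 / s) * Real.exp (-(s / 2) * ‖z‖ ^ 2) :=
        mul_le_mul_of_nonneg_right e2 (Real.exp_pos _).le

lemma KK_bound (s : ℝ) (i : Fin 3) (z : E) : |KK s i z| ≤ ‖z‖ * Real.exp (-s * ‖z‖ ^ 2) := by
  unfold KK
  rw [abs_mul, abs_of_pos (Real.exp_pos _)]
  exact mul_le_mul_of_nonneg_right (abs_coord_le z i) (Real.exp_pos _).le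

lemma integrable_KK {s : ℝ} (hs : 0 < s) (i : Fin 3) : Integrable (KK s i) := by
  refine Integrable.mono' (integrable_norm_gauss hs) (continuous_KK s i).aestronglyMeasurable
    (Eventually.of_forall fun z => ?_)
  rw [Real.norm_eq_abs]
  exact KK_bound s i z

lemma inner_single' (v : E) (i : Fin 3) : ⟪v, (EuclideanSpace.single i (1 : ℝ) : E)⟫_ℝ = v i := by
  rw [EuclideanSpace.inner_single_right]
  simp

lemma fourier_KK {s : ℝ} (hs : 0 < s) (i : Fin 3) (ξ : E) :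
    ∫ z, ((KK s i z : ℝ) : ℂ) * ee (-ξ) z =
      -(Complex.I * ((π / s * ξ i * (gc s * Real.exp (-(π ^ 2 / s) * ‖ξ‖ ^ 2)) : ℝ) : ℂ)) := by
  set G : E → ℂ := fun z => Complex.exp (-(s : ℂ) * (‖z‖ : ℂ) ^ 2) with hG
  have hGr : ∀ z, G z = ((Real.exp (-s * ‖z‖ ^ 2) : ℝ) : ℂ) := by
    intro z; simp only [hG]; push_cast; rfl
  have i1 : Integrable G := by
    have : G = fun z => ((Real.exp (-s * ‖z‖ ^ 2) : ℝ) : ℂ) := funext hGr
    rw [this]; exact (integrable_gauss hs).ofReal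
  have i2 : Integrable fun z => ‖z‖ * ‖G z‖ := by
    refine (integrable_norm_gauss hs).congr (Eventually.of_forall fun z => ?_)
    simp only
    rw [hGr, Complex.norm_real, Real.norm_of_nonneg (Real.exp_pos _).le]
  have h1 := Real.hasFDerivAt_fourier i1 i2 ξ
  have hF : 𝓕 G = fun w => ((gc s * Real.exp (-(π ^ 2 / s) * ‖w‖ ^ 2) : ℝ) : ℂ) :=
    funext fun w => fourier_gauss hs w
  have h2 : HasFDerivAt (fun w : E => gc s * Real.exp (-(π ^ 2 / s) * ‖w‖ ^ 2))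
      (gc s • (Real.exp (-(π ^ 2 / s) * ‖ξ‖ ^ 2) • ((-(π ^ 2 / s)) • (2 • innerSL ℝ ξ)))) ξ :=
    ((((hasStrictFDerivAt_norm_sq ξ).hasFDerivAt).const_mul (-(π ^ 2 / s))).exp).const_mul (gc s)
  have h3 := Complex.ofRealCLM.hasFDerivAt.comp ξ h2
  rw [hF] at h1
  have h4 := h1.unique h3
  have h5 := congrArg (fun L : E →L[ℝ] ℂ => L (EuclideanSpace.single i (1 : ℝ))) h4
  rw [Real.fourier_eq] at h5
  have i3 : Integrable fun v : E => 𝐞 (-⟪v, ξ⟫_ℝ) • VectorFourier.fourierSMulRight (innerSL ℝ) G v := by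
    refine (Real.fourierIntegral_convergent_iff ξ).2 ?_
    refine Integrable.mono' (i2.const_mul (2 * π * ‖innerSL (E := E) ℝ‖)) ?_
      (Eventually.of_forall fun v => ?_)
    · exact i1.aestronglyMeasurable.fourierSMulRight
    · exact (VectorFourier.norm_fourierSMulRight_le (innerSL ℝ) G v).trans (le_of_eq (by ring))
  rw [ContinuousLinearMap.integral_apply i3] at h5
  have e1 : ∀ v : E, (𝐞 (-⟪v, ξ⟫_ℝ) • VectorFourier.fourierSMulRight (innerSL ℝ) G v)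
      (EuclideanSpace.single i (1 : ℝ)) =
      (-(2 * π * Complex.I)) * (((KK s i v : ℝ) : ℂ) * ee (-ξ) v) := by
    intro v
    have e2 : ((𝐞 (-⟪v, ξ⟫_ℝ) : Circle) : ℂ) = ee (-ξ) v := by
      rw [Real.fourierChar_apply]
      unfold ee
      congr 1
      rw [inner_neg_right]
      push_cast
      ring
    have e3 : (𝐞 (-⟪v, ξ⟫_ℝ) • VectorFourier.fourierSMulRight (innerSL ℝ) G v)
      (EuclideanSpace.single i (1 : ℝ)) = ((𝐞 (-⟪v, ξ⟫_ℝ) : Circle) : ℂ) *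
        (VectorFourier.fourierSMulRight (innerSL ℝ) G v (EuclideanSpace.single i (1 : ℝ))) := rfl
    rw [e3, e2, VectorFourier.fourierSMulRight_apply, hGr]
    have e4 : (innerSL ℝ v) (EuclideanSpace.single i (1 : ℝ)) = v i := by
      rw [innerSL_apply_apply]; exact inner_single' v i
    rw [e4]
    unfold KK
    simp only [Complex.real_smul, smul_eq_mul]
    push_cast
    ring
  simp_rw [e1] at h5
  rw [integral_const_mul] at h5
  have e5 : (Complex.ofRealCLM ∘SL (gc s • (Real.exp (-(π ^ 2 / s) * ‖ξ‖ ^ 2) •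
      ((-(π ^ 2 / s)) • (2 • innerSL ℝ ξ))))) (EuclideanSpace.single i (1 : ℝ)) =
      ((gc s * (Real.exp (-(π ^ 2 / s) * ‖ξ‖ ^ 2) * ((-(π ^ 2 / s)) * (2 * ξ i))) : ℝ) : ℂ) := by
    have e6 := inner_single' ξ i
    simp [innerSL_apply_apply, e6]
  rw [e5] at h5
  have hne : (-(2 * π * Complex.I) : ℂ) ≠ 0 := by
    simp [Real.pi_ne_zero, Complex.I_ne_zero]
  apply mul_left_cancel₀ hne
  rw [h5]
  have hI := Complex.I_mul_I
  push_cast
  have hs' : (s : ℂ) ≠ 0 := by exact_mod_cast hs.ne'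
  field_simp
  linear_combination (-((gc s : ℂ) * (ξ i : ℂ))) * hI

end H459R3.KS
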