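import Pool.Agent.H459R3.KS.Riesz

/-!
The Riesz kernel formula for the gradient of the potential, continued.
-/

set_option autoImplicit false

open MeasureTheory Set Filter Topology
open scoped InnerProductSpace Real FourierTransform

namespace H459R3.KS

lemma ee_neg_swap (z ξ : E) : ee (-z) ξ = ee (-ξ) z := by
  unfold ee
  rw [inner_neg_right, inner_neg_right, real_inner_comm]

lemma ee_sub_left (x z ξ : E) : ee (x - z) ξ = ee x ξ * ee (-ξ) z := by
  rw [← ee_neg_swap, ee_swap, sub_eq_add_neg, ee_add, ee_swap ξ x, ee_swap ξ (-z)]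

lemma V_eq {g : E → ℝ} (hg : Prof g) {s : ℝ} (hs : 0 < s) (x : E) (i : Fin 3) :
    ∫ y, (Ft g y).re * KK s i (x - y) =
      (∫ ξ, (-Complex.I) * (((π / s * ξ i * (gc s * Real.exp (-(π ^ 2 / s) * ‖ξ‖ ^ 2)) : ℝ) : ℂ) *
        (((g ξ : ℝ) : ℂ) * ee x ξ))).re := by
  have i0 : Integrable (fun p : E × E => ((KK s i p.1 : ℝ) : ℂ) *
      ((g p.2 : ℝ) : ℂ)) (volume.prod volume) :=
    (integrable_KK hs i).ofReal.mul_prod hg.integrable.ofReal
  have i1 : Integrable (fun p : E × E => (((KK s i p.1 : ℝ) : ℂ) *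
      ((g p.2 : ℝ) : ℂ)) * ee (x - p.1) p.2) (volume.prod volume) := by
    refine i0.mul_bdd (c := 1) ?_ (Eventually.of_forall fun p => (norm_ee _ _).le)
    exact (continuous_ee.comp (by fun_prop : Continuous fun p : E × E => (x - p.1, p.2))).aestronglyMeasurable
  have e1 : ∀ z, ∫ ξ, (((KK s i z : ℝ) : ℂ) * ((g ξ : ℝ) : ℂ)) * ee (x - z) ξ =
      ((KK s i z : ℝ) : ℂ) * Ft g (x - z) := by
    intro z
    unfold Ft
    rw [← integral_const_mul]
    congr with ξ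
    ring
  have i2 : Integrable fun z => ((KK s i z : ℝ) : ℂ) * Ft g (x - z) := by
    refine i1.integral_prod_left.congr (Eventually.of_forall fun z => ?_)
    exact e1 z
  have e2 : ∫ y, (Ft g y).re * KK s i (x - y) = ∫ z, (Ft g (x - z)).re * KK s i z := by
    have := integral_sub_left_eq_self (fun y => (Ft g y).re * KK s i (x - y)) volume x
    rw [← this]
    congr with z
    rw [sub_sub_cancel]
  have e3 : ∫ z, (Ft g (x - z)).re * KK s i z = (∫ z, ((KK s i z : ℝ) : ℂ) * Ft g (x - z)).re := by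
    have := integral_re i2
    simp only [RCLike.re_to_complex] at this
    rw [← this]
    congr with z
    rw [Complex.re_ofReal_mul, mul_comm]
  rw [e2, e3]
  congr 1
  simp_rw [← e1]
  rw [integral_integral_swap i1]
  congr with ξ
  have e4 : ∫ z, (((KK s i z : ℝ) : ℂ) * ((g ξ : ℝ) : ℂ)) * ee (x - z) ξ =
      (((g ξ : ℝ) : ℂ) * ee x ξ) * ∫ z, ((KK s i z : ℝ) : ℂ) * ee (-ξ) z := by
    rw [← integral_const_mul]
    congr with z
    rw [ee_sub_left]
    ring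
  rw [e4, fourier_KK hs]
  ring

lemma theta_eq {s : ℝ} (hs : 0 < s) (ξ : E) (i : Fin 3) :
    2 / √π * s ^ (1 / 2 : ℝ) * (π / s * ξ i * (gc s * Real.exp (-(π ^ 2 / s) * ‖ξ‖ ^ 2))) =
      (2 * π ^ 2 * ξ i) * (s ^ (-2 : ℝ) * Real.exp (-(π ^ 2 * ‖ξ‖ ^ 2 / s))) := by
  have hpi := Real.pi_pos
  have e1 : gc s = π ^ (3 / 2 : ℝ) * s ^ (-(3 / 2) : ℝ) := by
    unfold gc
    rw [Real.div_rpow hpi.le hs.le, Real.rpow_neg hs.le, div_eq_mul_inv]
  have e2 : s ^ (1 / 2 : ℝ) * (1 / s) * s ^ (-(3 / 2) : ℝ) = s ^ (-2 : ℝ) := by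
    have e0 : (1 / s : ℝ) = s ^ (-1 : ℝ) := by rw [Real.rpow_neg_one, one_div]
    rw [e0, ← Real.rpow_add hs, ← Real.rpow_add hs]
    norm_num
  have e3 : π ^ (3 / 2 : ℝ) = π * √π := by
    rw [Real.sqrt_eq_rpow]
    nth_rewrite 2 [← Real.rpow_one π]
    rw [← Real.rpow_add hpi]
    norm_num
  have e4 : -(π ^ 2 / s) * ‖ξ‖ ^ 2 = -(π ^ 2 * ‖ξ‖ ^ 2 / s) := by ring
  rw [e1, e3, e4, ← e2]
  have : √π ≠ 0 := by positivity
  field_simp

/-- The Riesz kernel formula in coordinates. -/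
lemma riesz {g : E → ℝ} (hg : Prof g) (hn : Integrable fun y => (Ft g y).re)
    {M : ℝ} (hM : ∀ y, |(Ft g y).re| ≤ M) (x : E) (i : Fin 3) :
    ∫ y, (Ft g y).re / ‖x - y‖ ^ 3 * (x - y) i = (-(2 * Complex.I) * Ft (Bi g i) x).re := by
  set n : E → ℝ := fun y => (Ft g y).re with hnd
  have hpi : 0 < √π := by positivity
  -- the integrand as a time integral
  have hA : ∀ y, n y / ‖x - y‖ ^ 3 * (x - y) i =
      ∫ s in Ioi (0 : ℝ), 2 / √π * s ^ (1 / 2 : ℝ) * (n y * KK s i (x - y)) := by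
    intro y
    rcases eq_or_ne (x - y) 0 with hz | hz
    · rw [hz]; simp [KK]
    have hr : 0 < ‖x - y‖ := norm_pos_iff.2 hz
    have e1 : ∫ s in Ioi (0 : ℝ), 2 / √π * s ^ (1 / 2 : ℝ) * (n y * KK s i (x - y)) =
        ∫ s in Ioi (0 : ℝ), (2 / √π * (n y * (x - y) i)) *
          (s ^ (1 / 2 : ℝ) * Real.exp (-s * ‖x - y‖ ^ 2)) := by
      refine setIntegral_congr_fun measurableSet_Ioi fun s _ => ?_
      unfold KK
      ring
    rw [e1, integral_const_mul, J1_val hr]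
    field_simp
  have hAi : ∀ y, IntegrableOn (fun s => 2 / √π * s ^ (1 / 2 : ℝ) * (n y * KK s i (x - y)))
      (Ioi 0) := by
    intro y
    rcases eq_or_ne (x - y) 0 with hz | hz
    · have : (fun s : ℝ => 2 / √π * s ^ (1 / 2 : ℝ) * (n y * KK s i (x - y))) = fun _ => 0 := by
        funext s; rw [hz]; simp [KK]
      rw [this]
      exact integrableOn_zero
    have hr : 0 < ‖x - y‖ := norm_pos_iff.2 hz
    refine IntegrableOn.congr_fun ((J1_int hr).const_mul (2 / √π * (n y * (x - y) i)))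
      (fun s _ => ?_) measurableSet_Ioi
    unfold KK
    ring
  have hmn : Measurable fun s : ℝ => s ^ (1 / 2 : ℝ) := by fun_prop
  -- integrability on the product
  have hΦ : Integrable (fun p : E × ℝ => 2 / √π * p.2 ^ (1 / 2 : ℝ) * (n p.1 * KK p.2 i (x - p.1)))
      (volume.prod (volume.restrict (Ioi 0))) := by
    have hmeas : AEStronglyMeasurable (fun p : E × ℝ => 2 / √π * p.2 ^ (1 / 2 : ℝ) *
        (n p.1 * KK p.2 i (x - p.1))) (volume.prod (volume.restrict (Ioi 0))) := by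
      have m1 : AEStronglyMeasurable (fun p : E × ℝ => n p.1)
          (volume.prod (volume.restrict (Ioi 0))) := hn.aestronglyMeasurable.comp_fst
      have m2 : Measurable fun p : E × ℝ => KK p.2 i (x - p.1) := by
        unfold KK
        fun_prop
      have m3 : Measurable fun p : E × ℝ => 2 / √π * p.2 ^ (1 / 2 : ℝ) :=
        (hmn.comp measurable_snd).const_mul _
      exact m3.aestronglyMeasurable.mul (m1.mul m2.aestronglyMeasurable)
    rw [integrable_prod_iff hmeas]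
    refine ⟨Eventually.of_forall fun y => hAi y, ?_⟩
    have hnorm : ∀ y, ∫ s in Ioi (0 : ℝ), ‖2 / √π * s ^ (1 / 2 : ℝ) * (n y * KK s i (x - y))‖ =
        |n y| / ‖x - y‖ ^ 3 * |(x - y) i| := by
      intro y
      rcases eq_or_ne (x - y) 0 with hz | hz
      · rw [hz]; simp [KK]
      have hr : 0 < ‖x - y‖ := norm_pos_iff.2 hz
      have e1 : ∫ s in Ioi (0 : ℝ), ‖2 / √π * s ^ (1 / 2 : ℝ) * (n y * KK s i (x - y))‖ =
          ∫ s in Ioi (0 : ℝ), (2 / √π * (|n y| * |(x - y) i|)) *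
            (s ^ (1 / 2 : ℝ) * Real.exp (-s * ‖x - y‖ ^ 2)) := by
        refine setIntegral_congr_fun measurableSet_Ioi fun s hs => ?_
        have hs0 : (0 : ℝ) < s := hs
        unfold KK
        rw [norm_mul, norm_mul, norm_mul, norm_mul, Real.norm_of_nonneg (by positivity : 0 ≤ 2 / √π),
          Real.norm_of_nonneg (by positivity : 0 ≤ s ^ (1 / 2 : ℝ)),
          Real.norm_of_nonneg (Real.exp_pos _).le, Real.norm_eq_abs, Real.norm_eq_abs]
        ring
      rw [e1, integral_const_mul, J1_val hr]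
      field_simp
    have hdom := pot_integrable hn hM x
    refine Integrable.mono hdom ?_ ?_
    · exact hmeas.norm.integral_prod_right'
    · refine Eventually.of_forall fun y => ?_
      have e2 : ∫ s in Ioi (0 : ℝ), ‖2 / √π * (y, s).2 ^ (1 / 2 : ℝ) *
          (n (y, s).1 * KK (y, s).2 i (x - (y, s).1))‖ = |n y| / ‖x - y‖ ^ 3 * |(x - y) i| := hnorm y
      rw [e2]
      rw [Real.norm_of_nonneg (by positivity), Real.norm_eq_abs, abs_div,
        abs_of_nonneg (by positivity : (0 : ℝ) ≤ ‖x - y‖ ^ 2)]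
      rcases eq_or_ne (x - y) 0 with hz | hz
      · rw [hz]; simp
      have hr : 0 < ‖x - y‖ := norm_pos_iff.2 hz
      have h1 := abs_coord_le (x - y) i
      calc |n y| / ‖x - y‖ ^ 3 * |(x - y) i| ≤ |n y| / ‖x - y‖ ^ 3 * ‖x - y‖ :=
            mul_le_mul_of_nonneg_left h1 (by positivity)
        _ = |n y| / ‖x - y‖ ^ 2 := by field_simp
  -- the frequency side
  have hΘ : Integrable (fun p : ℝ × E => (-Complex.I) *
      ((((2 * π ^ 2 * p.2 i) * (p.1 ^ (-2 : ℝ) * Real.exp (-(π ^ 2 * ‖p.2‖ ^ 2 / p.1))) : ℝ) : ℂ) *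
        (((g p.2 : ℝ) : ℂ) * ee x p.2))) ((volume.restrict (Ioi 0)).prod volume) := by
    have hmeas : AEStronglyMeasurable (fun p : ℝ × E => (-Complex.I) *
      ((((2 * π ^ 2 * p.2 i) * (p.1 ^ (-2 : ℝ) * Real.exp (-(π ^ 2 * ‖p.2‖ ^ 2 / p.1))) : ℝ) : ℂ) *
        (((g p.2 : ℝ) : ℂ) * ee x p.2))) ((volume.restrict (Ioi 0)).prod volume) := by
      have m1 : Measurable fun p : ℝ × E => (2 * π ^ 2 * p.2 i) *
          (p.1 ^ (-2 : ℝ) * Real.exp (-(π ^ 2 * ‖p.2‖ ^ 2 / p.1))) := by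
        have : Measurable fun p : ℝ × E => p.2 i := (meas_coord i).comp measurable_snd
        fun_prop
      have m2 : Measurable fun p : ℝ × E => ((g p.2 : ℝ) : ℂ) * ee x p.2 :=
        ((Complex.measurable_ofReal.comp hg.meas).mul (continuous_ee_right x).measurable).comp
          measurable_snd
      exact ((Complex.measurable_ofReal.comp m1).mul m2).const_mul _ |>.aestronglyMeasurable
    rw [integrable_prod_iff' hmeas]
    have hval : ∀ᵐ ξ : E, ∫ s in Ioi (0 : ℝ), ‖(-Complex.I) *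
      ((((2 * π ^ 2 * ξ i) * (s ^ (-2 : ℝ) * Real.exp (-(π ^ 2 * ‖ξ‖ ^ 2 / s))) : ℝ) : ℂ) *
        (((g ξ : ℝ) : ℂ) * ee x ξ))‖ = 2 * |Bi g i ξ| := by
      filter_upwards [ae_ne 0] with ξ hξ
      have hr : 0 < π ^ 2 * ‖ξ‖ ^ 2 := by
        have : 0 < ‖ξ‖ := norm_pos_iff.2 hξ
        positivity
      have e1 : ∫ s in Ioi (0 : ℝ), ‖(-Complex.I) *
          ((((2 * π ^ 2 * ξ i) * (s ^ (-2 : ℝ) * Real.exp (-(π ^ 2 * ‖ξ‖ ^ 2 / s))) : ℝ) : ℂ) *
          (((g ξ : ℝ) : ℂ) * ee x ξ))‖ = ∫ s in Ioi (0 : ℝ), (2 * π ^ 2 * |ξ i| * |g ξ|) *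
          (s ^ (-2 : ℝ) * Real.exp (-(π ^ 2 * ‖ξ‖ ^ 2 / s))) := by
        refine setIntegral_congr_fun measurableSet_Ioi fun s hs => ?_
        have hs0 : (0 : ℝ) < s := hs
        rw [norm_mul, norm_mul, norm_mul, norm_ee, norm_neg, Complex.norm_I, Complex.norm_real,
          Complex.norm_real, norm_mul, norm_mul, Real.norm_of_nonneg (by positivity : 0 ≤ 2 * π ^ 2),
          Real.norm_of_nonneg (by positivity : 0 ≤ s ^ (-2 : ℝ) * Real.exp (-(π ^ 2 * ‖ξ‖ ^ 2 / s))),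
          Real.norm_eq_abs, Real.norm_eq_abs]
        ring
      rw [e1, integral_const_mul, J2_val hr]
      unfold Bi
      rw [abs_mul, abs_div, abs_of_nonneg (by positivity : (0 : ℝ) ≤ ‖ξ‖ ^ 2)]
      have : ‖ξ‖ ≠ 0 := norm_ne_zero_iff.2 hξ
      field_simp
    refine ⟨?_, ?_⟩
    · filter_upwards [ae_ne 0] with ξ hξ
      have hr : 0 < π ^ 2 * ‖ξ‖ ^ 2 := by
        have : 0 < ‖ξ‖ := norm_pos_iff.2 hξ
        positivity
      have h1 : Integrable (fun s : ℝ => (2 * π ^ 2 * ξ i) *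
          (s ^ (-2 : ℝ) * Real.exp (-(π ^ 2 * ‖ξ‖ ^ 2 / s)))) (volume.restrict (Ioi 0)) :=
        Integrable.const_mul (J2_int hr) _
      exact (h1.ofReal.mul_const _).const_mul _
    · have h2 : Integrable fun ξ => 2 * |Bi g i ξ| := (hg.Bi_integrable i).abs.const_mul 2
      refine h2.congr ?_
      filter_upwards [hval] with ξ hξ
      exact hξ.symm
  -- assembling
  have s1 : ∫ y, n y / ‖x - y‖ ^ 3 * (x - y) i =
      ∫ s in Ioi (0 : ℝ), ∫ y, 2 / √π * s ^ (1 / 2 : ℝ) * (n y * KK s i (x - y)) := by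
    simp_rw [hA]
    exact integral_integral_swap hΦ
  have s2 : ∀ s ∈ Ioi (0 : ℝ), ∫ y, 2 / √π * s ^ (1 / 2 : ℝ) * (n y * KK s i (x - y)) =
      (∫ ξ, (-Complex.I) *
      ((((2 * π ^ 2 * ξ i) * (s ^ (-2 : ℝ) * Real.exp (-(π ^ 2 * ‖ξ‖ ^ 2 / s))) : ℝ) : ℂ) *
        (((g ξ : ℝ) : ℂ) * ee x ξ))).re := by
    intro s hs
    rw [integral_const_mul, V_eq hg hs x i, ← Complex.re_ofReal_mul, ← integral_const_mul]
    congr 2
    funext ξ
    rw [← theta_eq hs ξ i]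
    push_cast
    ring
  rw [s1, setIntegral_congr_fun measurableSet_Ioi s2]
  have s3 := integral_re hΘ.integral_prod_left
  simp only [RCLike.re_to_complex] at s3
  rw [s3, integral_integral_swap (f := fun (s : ℝ) (ξ : E) => (-Complex.I) *
      ((((2 * π ^ 2 * ξ i) * (s ^ (-2 : ℝ) * Real.exp (-(π ^ 2 * ‖ξ‖ ^ 2 / s))) : ℝ) : ℂ) *
        (((g ξ : ℝ) : ℂ) * ee x ξ))) hΘ]
  congr 1
  unfold Ft
  rw [← integral_const_mul]
  refine integral_congr_ae ?_
  filter_upwards [ae_ne 0] with ξ hξ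
  have hr : 0 < π ^ 2 * ‖ξ‖ ^ 2 := by
    have : 0 < ‖ξ‖ := norm_pos_iff.2 hξ
    positivity
  have hn0 : ‖ξ‖ ≠ 0 := norm_ne_zero_iff.2 hξ
  rw [integral_const_mul, integral_mul_const, integral_complex_ofReal, integral_const_mul,
    J2_val hr]
  have e5 : 2 * π ^ 2 * ξ i * (1 / (π ^ 2 * ‖ξ‖ ^ 2)) = 2 * (ξ i / ‖ξ‖ ^ 2) := by field_simp
  rw [e5]
  unfold Bi
  push_cast
  ring

end H459R3.KS
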