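import Pool.Agent.H459R3.KS.Sym

/-!
Time regularity of the solution in Fourier variables.
-/

set_option autoImplicit false

open MeasureTheory Set Filter Topology
open scoped InnerProductSpace Real

namespace H459R3.KS

variable {μ₀ a : ℝ} {w0 : E → ℝ}

lemma sol_bd (h : Data μ₀ a w0) {t : ℝ} (ht : 0 ≤ t) (ξ : E) :
    |sol w0 t ξ| ≤ 2 * Real.exp 1 * a * W μ₀ ξ := by
  have hε : 0 ≤ 2 * Real.exp 1 * a := by have := h.a0; positivity
  exact ((sol_dom h).bd t ht ξ).trans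
    (mul_le_mul_of_nonneg_left (W_anti (m_ge μ₀ t) ξ) hε)

/-- The quadratic term along the solution. -/
noncomputable def qq (w0 : E → ℝ) (t : ℝ) (ξ : E) : ℝ := Q (sol w0 t) (sol w0 t) ξ

lemma qq_meas (h : Data μ₀ a w0) (ξ : E) : Measurable fun s => qq w0 s ξ := by
  have h1 : Measurable (fun s : ℝ => (s, ξ)) := measurable_prodMk_right
  exact (Q_meas (sol_dom h).meas (sol_dom h).meas).measurable.comp h1

lemma qq_bd (h : Data μ₀ a w0) (ξ : E) : ∃ K, 0 ≤ K ∧ ∀ t, 0 ≤ t → |qq w0 t ξ| ≤ K := by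
  have hε : 0 ≤ 2 * Real.exp 1 * a := by have := h.a0; positivity
  have hμ := h.mu
  have hC := CF_pos
  have hW := W_nonneg μ₀ ξ
  refine ⟨(2 * Real.exp 1 * a) * (2 * Real.exp 1 * a) *
    (CF * (‖ξ‖ ^ (3 / 2 : ℝ) * W μ₀ ξ) / μ₀), by positivity, fun t ht => ?_⟩
  exact Q_bound h.mu hε hε (fun ξ => sol_bd h ht ξ) (fun ξ => sol_bd h ht ξ) ξ

lemma sol_rep (h : Data μ₀ a w0) {t : ℝ} (ht : 0 ≤ t) (ξ : E) :
    sol w0 t ξ = Real.exp (-(lam ξ * t)) *
      (w0 ξ + ∫ s in (0 : ℝ)..t, Real.exp (lam ξ * s) * qq w0 s ξ) := by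
  rw [sol_eq h ht, mul_add]
  unfold U N qq
  rw [intervalIntegral.integral_of_le ht, ← integral_const_mul]
  congr 1
  refine setIntegral_congr_fun measurableSet_Ioc fun s _ => ?_
  rw [← mul_assoc, ← Real.exp_add]
  congr 2
  ring

lemma int_qq (h : Data μ₀ a w0) (ξ : E) (b : ℝ) :
    IntegrableOn (fun s => Real.exp (lam ξ * s) * qq w0 s ξ) (Icc 0 b) := by
  obtain ⟨K, hK, hq⟩ := qq_bd h ξ
  have hm : Measurable fun s => Real.exp (lam ξ * s) * qq w0 s ξ :=
    (by fun_prop : Measurable fun s => Real.exp (lam ξ * s)).mul (qq_meas h ξ)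
  have h1 : IntegrableOn (fun _ : ℝ => Real.exp (lam ξ * b) * K) (Icc 0 b) :=
    continuous_const.integrableOn_Icc
  refine Integrable.mono' h1 hm.aestronglyMeasurable ?_
  filter_upwards [ae_restrict_mem measurableSet_Icc] with s hs
  rw [Real.norm_eq_abs, abs_mul, abs_of_pos (Real.exp_pos _)]
  refine mul_le_mul ?_ (hq s hs.1) (abs_nonneg _) (Real.exp_pos _).le
  exact Real.exp_le_exp.2 (mul_le_mul_of_nonneg_left hs.2 (lam_nonneg ξ))

lemma sol_contOn (h : Data μ₀ a w0) (ξ : E) : ContinuousOn (fun t => sol w0 t ξ) (Ici 0) := by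
  have h1 : ContinuousOn (fun t => Real.exp (-(lam ξ * t)) *
      (w0 ξ + ∫ s in (0 : ℝ)..t, Real.exp (lam ξ * s) * qq w0 s ξ)) (Ici 0) := by
    refine ContinuousOn.mul (by fun_prop) (continuousOn_const.add ?_)
    intro x hx
    have hx0 : (0 : ℝ) ≤ x := hx
    have h2 : IntegrableOn (fun s => Real.exp (lam ξ * s) * qq w0 s ξ) (uIcc 0 (x + 1)) := by
      rw [uIcc_of_le (by linarith)]; exact int_qq h ξ (x + 1)
    have h3 := intervalIntegral.continuousOn_primitive_interval h2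
    rw [uIcc_of_le (by linarith)] at h3
    refine (h3 x ⟨hx0, by linarith⟩).mono_of_mem_nhdsWithin ?_
    rw [← Ici_inter_Iic]
    exact inter_mem self_mem_nhdsWithin (mem_nhdsWithin_of_mem_nhds (Iic_mem_nhds (by linarith)))
  exact h1.congr fun t ht => sol_rep h ht ξ

lemma sol_sym0 (h : Data μ₀ a w0) : Sym0 (sol w0) := by
  have hε : 0 ≤ 2 * Real.exp 1 * a := by have := h.a0; positivity
  exact ⟨fun t _ => (sol_dom h).meas' t, fun ξ => (sol_contOn h ξ).mono Ioi_subset_Ici_self,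
    2 * Real.exp 1 * a, μ₀, hε, h.mu, fun t ht ξ => sol_bd h ht.le ξ⟩

/-- First time derivative of the solution. -/
noncomputable def w1 (w0 : E → ℝ) (t : ℝ) (ξ : E) : ℝ := -lam ξ * sol w0 t ξ + qq w0 t ξ

/-- Time derivative of the quadratic term. -/
noncomputable def qq1 (w0 : E → ℝ) (t : ℝ) (ξ : E) : ℝ :=
  Q (w1 w0 t) (sol w0 t) ξ + Q (sol w0 t) (w1 w0 t) ξ

/-- Second time derivative of the solution. -/
noncomputable def w2 (w0 : E → ℝ) (t : ℝ) (ξ : E) : ℝ := -lam ξ * w1 w0 t ξ + qq1 w0 t ξ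

lemma lam_poly (ξ : E) : |-lam ξ| ≤ 4 * π ^ 2 * (1 + ‖ξ‖) ^ 2 := by
  rw [abs_neg, abs_of_nonneg (lam_nonneg ξ)]
  unfold lam
  have h1 : ‖ξ‖ ^ 2 ≤ (1 + ‖ξ‖) ^ 2 := by
    apply pow_le_pow_left₀ (norm_nonneg _)
    linarith
  exact mul_le_mul_of_nonneg_left h1 (by positivity)

lemma meas_neg_lam : Measurable fun ξ : E => -lam ξ := continuous_lam.measurable.neg

lemma sol_der (h : Data μ₀ a w0) {t : ℝ} (ht : 0 < t) (ξ : E) :
    HasDerivAt (fun t => sol w0 t ξ) (w1 w0 t ξ) t := by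
  have hq : Sym0 (qq w0) := (sol_sym0 h).Q (sol_sym0 h)
  have hm : Measurable fun s => Real.exp (lam ξ * s) * qq w0 s ξ :=
    (by fun_prop : Measurable fun s => Real.exp (lam ξ * s)).mul (qq_meas h ξ)
  have hi : IntervalIntegrable (fun s => Real.exp (lam ξ * s) * qq w0 s ξ) volume 0 t := by
    rw [intervalIntegrable_iff_integrableOn_Icc_of_le ht.le]
    exact int_qq h ξ t
  have hc : ContinuousAt (fun s => Real.exp (lam ξ * s) * qq w0 s ξ) t := by
    refine ContinuousAt.mul (by fun_prop) ?_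
    exact (hq.cont ξ).continuousAt (Ioi_mem_nhds ht)
  have h1 := intervalIntegral.integral_hasDerivAt_right hi
    (hm.stronglyMeasurable.stronglyMeasurableAtFilter) hc
  have h2 : HasDerivAt (fun t : ℝ => Real.exp (-(lam ξ * t))) (Real.exp (-(lam ξ * t)) * -lam ξ) t := by
    have h3 : HasDerivAt (fun t : ℝ => -(lam ξ * t)) (-lam ξ) t := by
      have := (hasDerivAt_id' t).const_mul (-lam ξ)
      rw [mul_one] at this
      exact this.congr_of_eventuallyEq (Eventually.of_forall fun s => by ring)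
    exact h3.exp
  have h4 := h2.mul (h1.const_add (w0 ξ))
  have h5 : (fun t => sol w0 t ξ) =ᶠ[𝓝 t] fun t => Real.exp (-(lam ξ * t)) *
      (w0 ξ + ∫ s in (0 : ℝ)..t, Real.exp (lam ξ * s) * qq w0 s ξ) := by
    filter_upwards [Ioi_mem_nhds ht] with s hs
    exact sol_rep h hs.le ξ
  refine HasDerivAt.congr_of_eventuallyEq ?_ h5
  convert! h4 using 1
  unfold w1
  rw [sol_rep h ht.le ξ]
  have e : Real.exp (-(lam ξ * t)) * (Real.exp (lam ξ * t) * qq w0 t ξ) = qq w0 t ξ := by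
    rw [← mul_assoc, ← Real.exp_add]
    simp
  rw [e]
  ring

lemma sol_sym1 (h : Data μ₀ a w0) : Sym1 (sol w0) (w1 w0) :=
  ⟨sol_sym0 h, ((sol_sym0 h).mul_poly meas_neg_lam lam_poly).add ((sol_sym0 h).Q (sol_sym0 h)),
    fun _ ht ξ => sol_der h ht ξ⟩

lemma qq_sym1 (h : Data μ₀ a w0) : Sym1 (qq w0) (qq1 w0) := (sol_sym1 h).Q (sol_sym1 h)

lemma w1_sym1 (h : Data μ₀ a w0) : Sym1 (w1 w0) (w2 w0) := by
  have h1 := ((sol_sym1 h).mul_poly meas_neg_lam lam_poly).add (qq_sym1 h)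
  exact h1

end H459R3.KS
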