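import Pool.Agent.H459R3.KS.Picard

/-!
Symbols: functions of time and frequency with stretched exponential decay.
-/

set_option autoImplicit false

open MeasureTheory Set Filter Topology
open scoped InnerProductSpace Real

namespace H459R3.KS

lemma integrable_exp_sqrt {c : ℝ} (hc : 0 < c) :
    Integrable fun r : ℝ => Real.exp (-c * |r| ^ (1 / 2 : ℝ)) := by
  have h := integrableOn_rpow_mul_exp_neg_mul_rpow (p := 1 / 2) (s := 0) (b := c)
    (by norm_num) (by norm_num) hc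
  have h1 : IntegrableOn (fun r : ℝ => Real.exp (-c * |r| ^ (1 / 2 : ℝ))) (Ioi 0) := by
    refine h.congr_fun (fun x hx => ?_) measurableSet_Ioi
    simp only [abs_of_pos (mem_Ioi.1 hx), Real.rpow_zero, one_mul]
  have h2 : IntegrableOn (fun r : ℝ => Real.exp (-c * |r| ^ (1 / 2 : ℝ))) (Iic 0) := by
    have : IntegrableOn (fun x => (fun r : ℝ => Real.exp (-c * |r| ^ (1 / 2 : ℝ))) (-x)) (Iic 0) := by
      have h3 := (integrableOn_Ici_iff_integrableOn_Ioi (by simp)).2 h1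
      have h4 : IntegrableOn (fun r : ℝ => Real.exp (-c * |r| ^ (1 / 2 : ℝ))) (Ici (-0)) := by
        simpa using h3
      exact h4.comp_neg_Iic
    refine this.congr_fun (fun x _ => ?_) measurableSet_Iic
    simp
  have := h2.union h1
  rwa [Iic_union_Ioi, integrableOn_univ] at this

lemma W_le_prod {μ : ℝ} (hμ : 0 ≤ μ) (ξ : E) :
    W μ ξ ≤ H (ξ 0) * Real.exp (-(μ / 2) * |ξ 1| ^ (1 / 2 : ℝ)) *
      Real.exp (-(μ / 2) * |ξ 2| ^ (1 / 2 : ℝ)) := by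
  unfold W
  rw [mul_assoc, ← Real.exp_add]
  apply mul_le_mul_of_nonneg_left _ (H_nonneg _)
  apply Real.exp_le_exp.2
  have h2 : |ξ 1| ^ (1 / 2 : ℝ) ≤ √‖ξ‖ := by
    rw [← Real.sqrt_eq_rpow]; exact Real.sqrt_le_sqrt (abs_coord_le ξ 1)
  have h3 : |ξ 2| ^ (1 / 2 : ℝ) ≤ √‖ξ‖ := by
    rw [← Real.sqrt_eq_rpow]; exact Real.sqrt_le_sqrt (abs_coord_le ξ 2)
  nlinarith [mul_le_mul_of_nonneg_left h2 hμ, mul_le_mul_of_nonneg_left h3 hμ]

lemma integrable_W {μ : ℝ} (hμ : 0 < μ) : Integrable (W μ) := by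
  have h : Integrable fun ξ : E => H (ξ 0) * Real.exp (-(μ / 2) * |ξ 1| ^ (1 / 2 : ℝ)) *
      Real.exp (-(μ / 2) * |ξ 2| ^ (1 / 2 : ℝ)) := by
    refine integrable_prod3 (f := ![H, fun r => Real.exp (-(μ / 2) * |r| ^ (1 / 2 : ℝ)),
      fun r => Real.exp (-(μ / 2) * |r| ^ (1 / 2 : ℝ))]) fun i => ?_
    fin_cases i
    · exact integrable_H
    · exact integrable_exp_sqrt (by positivity)
    · exact integrable_exp_sqrt (by positivity)
  refine Integrable.mono' h (continuous_W μ).aestronglyMeasurable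
    (Eventually.of_forall fun ξ => ?_)
  rw [Real.norm_of_nonneg (W_nonneg _ _)]
  exact W_le_prod hμ.le ξ

/-- Polynomial growth is absorbed by the weight. -/
lemma pow_W (l : ℕ) {μ : ℝ} (hμ : 0 < μ) :
    ∃ C, 0 ≤ C ∧ ∀ ξ : E, (1 + ‖ξ‖) ^ l * W μ ξ ≤ C * W (μ / 2) ξ := by
  refine ⟨2 ^ l * (1 + (2 * l).factorial / (μ / 2) ^ (2 * l)), by positivity, fun ξ => ?_⟩
  have hr := norm_nonneg ξ
  set r := ‖ξ‖ with hrd
  have h1 : (1 + r) ^ l ≤ 2 ^ l * (1 + r ^ l) := by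
    have h3 : 1 + r ≤ 2 * max 1 r := by
      have := le_max_left 1 r
      have := le_max_right 1 r
      linarith
    calc (1 + r) ^ l ≤ (2 * max 1 r) ^ l := by gcongr
      _ = 2 ^ l * (max 1 r) ^ l := mul_pow _ _ _
      _ ≤ 2 ^ l * (1 + r ^ l) := by
          apply mul_le_mul_of_nonneg_left _ (by positivity)
          rcases le_total 1 r with h | h
          · rw [max_eq_right h]; linarith
          · rw [max_eq_left h, one_pow]; have : 0 ≤ r ^ l := by positivity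
            linarith
  have h2 : r ^ l ≤ (2 * l).factorial / (μ / 2) ^ (2 * l) * Real.exp (μ / 2 * √r) := by
    have h3 := Real.pow_div_factorial_le_exp (μ / 2 * √r) (by positivity) (2 * l)
    have h4 : (μ / 2 * √r) ^ (2 * l) = (μ / 2) ^ (2 * l) * r ^ l := by
      rw [mul_pow, pow_mul √r 2 l, Real.sq_sqrt hr]
    rw [h4] at h3
    rw [div_mul_eq_mul_div, le_div_iff₀ (by positivity)]
    rw [div_le_iff₀ (by positivity)] at h3
    linarith
  have h5 : 1 ≤ Real.exp (μ / 2 * √r) := Real.one_le_exp (by positivity)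
  have h6 : (1 + r) ^ l ≤ 2 ^ l * (1 + (2 * l).factorial / (μ / 2) ^ (2 * l)) *
      Real.exp (μ / 2 * √r) := by
    refine h1.trans ?_
    rw [mul_assoc]
    apply mul_le_mul_of_nonneg_left _ (by positivity)
    rw [add_mul, one_mul]
    exact add_le_add h5 h2
  have h7 : Real.exp (μ / 2 * √r) * W μ ξ = W (μ / 2) ξ := by
    unfold W
    rw [mul_comm, mul_assoc, ← Real.exp_add, ← hrd]
    congr 2
    ring
  calc (1 + r) ^ l * W μ ξ ≤ (2 ^ l * (1 + (2 * l).factorial / (μ / 2) ^ (2 * l)) *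
      Real.exp (μ / 2 * √r)) * W μ ξ := mul_le_mul_of_nonneg_right h6 (W_nonneg _ _)
    _ = _ := by rw [← h7]; ring

/-- Symbols of order `0`. -/
structure Sym0 (f : ℝ → E → ℝ) : Prop where
  meas : ∀ t, 0 < t → Measurable (f t)
  cont : ∀ ξ, ContinuousOn (fun t => f t ξ) (Ioi 0)
  bd : ∃ C μ, 0 ≤ C ∧ 0 < μ ∧ ∀ t, 0 < t → ∀ ξ, |f t ξ| ≤ C * W μ ξ

lemma Sym0.add {f g : ℝ → E → ℝ} (hf : Sym0 f) (hg : Sym0 g) : Sym0 (fun t ξ => f t ξ + g t ξ) := by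
  refine ⟨fun t ht => (hf.meas t ht).add (hg.meas t ht), fun ξ => (hf.cont ξ).add (hg.cont ξ), ?_⟩
  obtain ⟨C, μ, hC, hμ, h⟩ := hf.bd
  obtain ⟨C', μ', hC', hμ', h'⟩ := hg.bd
  refine ⟨C + C', min μ μ', by positivity, lt_min hμ hμ', fun t ht ξ => ?_⟩
  have h1 := mul_le_mul_of_nonneg_left (W_anti (min_le_left μ μ') ξ) hC
  have h2 := mul_le_mul_of_nonneg_left (W_anti (min_le_right μ μ') ξ) hC'
  refine (abs_add_le _ _).trans ?_
  rw [add_mul]
  exact add_le_add ((h t ht ξ).trans h1) ((h' t ht ξ).trans h2)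

lemma Sym0.mul_poly {f : ℝ → E → ℝ} (hf : Sym0 f) {p : E → ℝ} (mp : Measurable p) {K : ℝ} {l : ℕ}
    (hp : ∀ ξ, |p ξ| ≤ K * (1 + ‖ξ‖) ^ l) : Sym0 (fun t ξ => p ξ * f t ξ) := by
  refine ⟨fun t ht => mp.mul (hf.meas t ht), fun ξ => (hf.cont ξ).const_mul _ , ?_⟩
  obtain ⟨C, μ, hC, hμ, h⟩ := hf.bd
  obtain ⟨D, hD, hW⟩ := pow_W l hμ
  have hK : 0 ≤ K := by
    have := (abs_nonneg _).trans (hp 0)
    have h0 : 0 < (1 + ‖(0 : E)‖) ^ l := by positivity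
    exact nonneg_of_mul_nonneg_left this h0
  refine ⟨K * C * D, μ / 2, by positivity, by positivity, fun t ht ξ => ?_⟩
  rw [abs_mul]
  calc |p ξ| * |f t ξ| ≤ (K * (1 + ‖ξ‖) ^ l) * (C * W μ ξ) :=
        mul_le_mul (hp ξ) (h t ht ξ) (abs_nonneg _) (by positivity)
    _ = K * C * ((1 + ‖ξ‖) ^ l * W μ ξ) := by ring
    _ ≤ K * C * (D * W (μ / 2) ξ) := mul_le_mul_of_nonneg_left (hW ξ) (by positivity)
    _ = _ := by ring

lemma rpow_le_pow2 (ξ : E) : ‖ξ‖ ^ (3 / 2 : ℝ) ≤ (1 + ‖ξ‖) ^ 2 := by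
  calc ‖ξ‖ ^ (3 / 2 : ℝ) ≤ (1 + ‖ξ‖) ^ (3 / 2 : ℝ) :=
        Real.rpow_le_rpow (norm_nonneg _) (by linarith) (by norm_num)
    _ ≤ (1 + ‖ξ‖) ^ (2 : ℝ) :=
        Real.rpow_le_rpow_of_exponent_le (by linarith [norm_nonneg ξ]) (by norm_num)
    _ = _ := by rw [← Real.rpow_natCast]; norm_num

/-- Common bounds for two symbols. -/
lemma Sym0.common {f g : ℝ → E → ℝ} (hf : Sym0 f) (hg : Sym0 g) :
    ∃ C μ, 0 ≤ C ∧ 0 < μ ∧ (∀ t, 0 < t → ∀ ξ, |f t ξ| ≤ C * W μ ξ) ∧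
      (∀ t, 0 < t → ∀ ξ, |g t ξ| ≤ C * W μ ξ) := by
  obtain ⟨C, μ, hC, hμ, h⟩ := hf.bd
  obtain ⟨C', μ', hC', hμ', h'⟩ := hg.bd
  refine ⟨max C C', min μ μ', le_max_of_le_left hC, lt_min hμ hμ', fun t ht ξ => ?_, fun t ht ξ => ?_⟩
  · exact (h t ht ξ).trans (mul_le_mul (le_max_left _ _) (W_anti (min_le_left μ μ') ξ)
      (W_nonneg _ _) (le_max_of_le_left hC))
  · exact (h' t ht ξ).trans (mul_le_mul (le_max_right _ _) (W_anti (min_le_right μ μ') ξ)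
      (W_nonneg _ _) (le_max_of_le_left hC))

lemma Q_meas1 {u v : E → ℝ} (hu : Measurable u) (hv : Measurable v) : Measurable (Q u v) := by
  have h1 : StronglyMeasurable (fun p : ℝ × E => u p.2) :=
    (hu.comp measurable_snd).stronglyMeasurable
  have h2 : StronglyMeasurable (fun p : ℝ × E => v p.2) :=
    (hv.comp measurable_snd).stronglyMeasurable
  have h3 := Q_meas (u := fun _ => u) (v := fun _ => v) h1 h2
  have h4 : Measurable (Prod.mk (0 : ℝ) : E → ℝ × E) := measurable_prodMk_left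
  exact h3.measurable.comp h4

lemma Sym0.Q {f g : ℝ → E → ℝ} (hf : Sym0 f) (hg : Sym0 g) :
    Sym0 (fun t ξ => KS.Q (f t) (g t) ξ) := by
  obtain ⟨C, μ, hC, hμ, h, h'⟩ := hf.common hg
  refine ⟨fun t ht => Q_meas1 (hf.meas t ht) (hg.meas t ht), fun ξ => ?_, ?_⟩
  · unfold KS.Q
    refine continuousOn_of_dominated (bound := fun η => C * C * F μ ξ η) ?_ ?_ ?_ ?_
    · intro t ht
      exact (Q_integrable hμ hC (hf.meas t ht) (hg.meas t ht) (h t ht) (h' t ht) ξ).aestronglyMeasurable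
    · intro t ht
      refine Eventually.of_forall fun η => ?_
      rw [Real.norm_eq_abs]
      exact Q_pt hC (h t ht) (h' t ht) ξ η
    · exact (integrable_F hμ ξ).const_mul _
    · refine Eventually.of_forall fun η => ?_
      exact continuousOn_const.mul ((hf.cont η).mul (hg.cont (ξ - η)))
  · obtain ⟨D, hD, hW⟩ := pow_W 2 hμ
    have hCF := CF_pos
    refine ⟨C * C * (CF * D / μ), μ / 2, by positivity, by positivity, fun t ht ξ => ?_⟩
    refine (Q_bound hμ hC hC (h t ht) (h' t ht) ξ).trans ?_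
    have h1 : ‖ξ‖ ^ (3 / 2 : ℝ) * W μ ξ ≤ D * W (μ / 2) ξ :=
      (mul_le_mul_of_nonneg_right (rpow_le_pow2 ξ) (W_nonneg _ _)).trans (hW ξ)
    calc C * C * (CF * (‖ξ‖ ^ (3 / 2 : ℝ) * W μ ξ) / μ) ≤ C * C * (CF * (D * W (μ / 2) ξ) / μ) := by
          apply mul_le_mul_of_nonneg_left _ (by positivity)
          apply div_le_div_of_nonneg_right _ hμ.le
          exact mul_le_mul_of_nonneg_left h1 hCF.le
      _ = _ := by ring

/-- Symbols with a time derivative. -/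
structure Sym1 (f f' : ℝ → E → ℝ) : Prop where
  s0 : Sym0 f
  s1 : Sym0 f'
  der : ∀ t, 0 < t → ∀ ξ, HasDerivAt (fun t => f t ξ) (f' t ξ) t

lemma Sym1.mul_poly {f f' : ℝ → E → ℝ} (hf : Sym1 f f') {p : E → ℝ} (mp : Measurable p) {K : ℝ}
    {l : ℕ} (hp : ∀ ξ, |p ξ| ≤ K * (1 + ‖ξ‖) ^ l) :
    Sym1 (fun t ξ => p ξ * f t ξ) (fun t ξ => p ξ * f' t ξ) :=
  ⟨hf.s0.mul_poly mp hp, hf.s1.mul_poly mp hp, fun t ht ξ => (hf.der t ht ξ).const_mul _⟩

lemma Sym1.add {f f' g g' : ℝ → E → ℝ} (hf : Sym1 f f') (hg : Sym1 g g') :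
    Sym1 (fun t ξ => f t ξ + g t ξ) (fun t ξ => f' t ξ + g' t ξ) :=
  ⟨hf.s0.add hg.s0, hf.s1.add hg.s1, fun t ht ξ => (hf.der t ht ξ).add (hg.der t ht ξ)⟩

lemma Sym1.Q {f f' g g' : ℝ → E → ℝ} (hf : Sym1 f f') (hg : Sym1 g g') :
    Sym1 (fun t ξ => KS.Q (f t) (g t) ξ) (fun t ξ => KS.Q (f' t) (g t) ξ + KS.Q (f t) (g' t) ξ) := by
  refine ⟨hf.s0.Q hg.s0, (hf.s1.Q hg.s0).add (hf.s0.Q hg.s1), fun t ht ξ => ?_⟩
  obtain ⟨C, μ, hC, hμ, h1, h2⟩ := hf.s1.common hg.s0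
  obtain ⟨C', μ', hC', hμ', h1', h2'⟩ := hf.s0.common hg.s1
  have i1 := Q_integrable hμ hC (hf.s1.meas t ht) (hg.s0.meas t ht) (h1 t ht) (h2 t ht) ξ
  have i2 := Q_integrable hμ' hC' (hf.s0.meas t ht) (hg.s1.meas t ht) (h1' t ht) (h2' t ht) ξ
  have e : KS.Q (f' t) (g t) ξ + KS.Q (f t) (g' t) ξ =
      ∫ η, (S ξ η * (f' t η * g t (ξ - η)) + S ξ η * (f t η * g' t (ξ - η))) := by
    unfold KS.Q
    rw [integral_add i1 i2]
  rw [e]
  unfold KS.Q
  obtain ⟨K, ν, hK, hν, k1, k2⟩ := hf.s0.common hg.s0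
  refine (hasDerivAt_integral_of_dominated_loc_of_deriv_le (μ := volume)
    (F := fun s η => S ξ η * (f s η * g s (ξ - η)))
    (F' := fun s η => S ξ η * (f' s η * g s (ξ - η)) + S ξ η * (f s η * g' s (ξ - η)))
    (bound := fun η => C * C * F μ ξ η + C' * C' * F μ' ξ η) (x₀ := t) (s := Ioi 0)
    (Ioi_mem_nhds ht) ?_ ?_ ?_ ?_ ?_ ?_).2
  · filter_upwards [Ioi_mem_nhds ht] with s hs
    exact (Q_integrable hν hK (hf.s0.meas s hs) (hg.s0.meas s hs) (k1 s hs) (k2 s hs)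
      ξ).aestronglyMeasurable
  · exact Q_integrable hν hK (hf.s0.meas t ht) (hg.s0.meas t ht) (k1 t ht) (k2 t ht) ξ
  · exact (i1.add i2).aestronglyMeasurable
  · refine Eventually.of_forall fun η s hs => ?_
    refine (norm_add_le _ _).trans ?_
    rw [Real.norm_eq_abs, Real.norm_eq_abs]
    exact add_le_add (Q_pt hC (h1 s hs) (h2 s hs) ξ η) (Q_pt hC' (h1' s hs) (h2' s hs) ξ η)
  · exact ((integrable_F hμ ξ).const_mul _).add ((integrable_F hμ' ξ).const_mul _)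
  · refine Eventually.of_forall fun η s hs => ?_
    have := ((hf.der s hs η).mul (hg.der s hs (ξ - η))).const_mul (S ξ η)
    convert! this using 1
    ring

end H459R3.KS
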