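import Pool.Agent.H459R3.KS.SolReg

/-!
Fourier synthesis of symbols.
-/

set_option autoImplicit false

open MeasureTheory Set Filter Topology
open scoped InnerProductSpace Real

namespace H459R3.KS

/-- The linear form `p ↦ ⟪ξ, p.2⟫`. -/
noncomputable def phi (ξ : E) : ℝ × E →L[ℝ] ℂ :=
  Complex.ofRealCLM.comp ((innerSL ℝ ξ).comp (ContinuousLinearMap.snd ℝ ℝ E))

/-- The exponential `e^{2πi⟪ξ,x⟫}`. -/
noncomputable def ee (x ξ : E) : ℂ := Complex.exp (2 * π * Complex.I * ((⟪ξ, x⟫_ℝ : ℝ) : ℂ))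

lemma norm_ee (x ξ : E) : ‖ee x ξ‖ = 1 := by
  unfold ee
  have : (2 * π * Complex.I * ((⟪ξ, x⟫_ℝ : ℝ) : ℂ)) = ((2 * π * ⟪ξ, x⟫_ℝ : ℝ) : ℂ) * Complex.I := by
    push_cast; ring
  rw [this, Complex.norm_exp_ofReal_mul_I]

lemma continuous_ee : Continuous fun p : E × E => ee p.1 p.2 := by
  unfold ee
  fun_prop

lemma continuous_ee_right (x : E) : Continuous fun ξ : E => ee x ξ := by
  unfold ee
  fun_prop

lemma continuous_ee_left (ξ : E) : Continuous fun x : E => ee x ξ := by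
  unfold ee
  fun_prop

lemma ee_add (x ξ η : E) : ee x (ξ + η) = ee x ξ * ee x η := by
  unfold ee
  rw [← Complex.exp_add, inner_add_left]
  congr 1
  push_cast
  ring

lemma ee_hasFDerivAt (ξ : E) (p : ℝ × E) :
    HasFDerivAt (fun p : ℝ × E => ee p.2 ξ) (ee p.2 ξ • ((2 * π * Complex.I) • phi ξ)) p := by
  have h1 : HasFDerivAt (fun p : ℝ × E => (2 * π * Complex.I) * phi ξ p)
      ((2 * π * Complex.I) • phi ξ) p := (phi ξ).hasFDerivAt.const_mul _
  exact h1.cexp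

/-- The synthesis operator. -/
noncomputable def Z (f : ℝ → E → ℝ) (p : ℝ × E) : ℂ := ∫ ξ, ((f p.1 ξ : ℝ) : ℂ) * ee p.2 ξ

/-- The time-space domain. -/
def Om : Set (ℝ × E) := Ioi 0 ×ˢ univ

lemma isOpen_Om : IsOpen Om := isOpen_Ioi.prod isOpen_univ

lemma Z_integrable {g : E → ℝ} (hg : Measurable g) {C μ : ℝ} (hμ : 0 < μ)
    (hb : ∀ ξ, |g ξ| ≤ C * W μ ξ) (x : E) : Integrable fun ξ => ((g ξ : ℝ) : ℂ) * ee x ξ := by
  have h1 := (integrable_W hμ).const_mul C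
  refine Integrable.mono' h1 ?_ ?_
  · exact ((Complex.measurable_ofReal.comp hg).mul (continuous_ee_right x).measurable).aestronglyMeasurable
  · refine Eventually.of_forall fun ξ => ?_
    rw [norm_mul, norm_ee, mul_one, Complex.norm_real, Real.norm_eq_abs]
    exact hb ξ

lemma Z_cont {f : ℝ → E → ℝ} (hf : Sym0 f) : ContinuousOn (Z f) Om := by
  obtain ⟨C, μ, hC, hμ, h⟩ := hf.bd
  unfold Z
  refine continuousOn_of_dominated (bound := fun ξ => C * W μ ξ) ?_ ?_ ?_ ?_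
  · intro p hp
    exact (Z_integrable (hf.meas p.1 hp.1) hμ (h p.1 hp.1) p.2).aestronglyMeasurable
  · intro p hp
    refine Eventually.of_forall fun ξ => ?_
    rw [norm_mul, norm_ee, mul_one, Complex.norm_real, Real.norm_eq_abs]
    exact h p.1 hp.1 ξ
  · exact (integrable_W hμ).const_mul C
  · refine Eventually.of_forall fun ξ => ?_
    refine ContinuousOn.mul ?_ ?_
    · have h1 : ContinuousOn (fun t => ((f t ξ : ℝ) : ℂ)) (Ioi 0) :=
        Complex.continuous_ofReal.comp_continuousOn (hf.cont ξ)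
      exact h1.comp continuousOn_fst (fun p hp => hp.1)
    · exact ((continuous_ee_left ξ).comp continuous_snd).continuousOn

/-- Coordinate multipliers. -/
noncomputable def co (i : Fin 3) (f : ℝ → E → ℝ) : ℝ → E → ℝ := fun t ξ => ξ i * f t ξ

lemma meas_coord (i : Fin 3) : Measurable fun ξ : E => ξ i := by fun_prop

lemma coord_poly (i : Fin 3) (ξ : E) : |ξ i| ≤ 1 * (1 + ‖ξ‖) ^ 1 := by
  have := abs_coord_le ξ i
  rw [one_mul, pow_one]
  linarith

lemma Sym0.co {f : ℝ → E → ℝ} (hf : Sym0 f) (i : Fin 3) : Sym0 (KS.co i f) :=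
  hf.mul_poly (meas_coord i) (coord_poly i)

lemma Sym1.co {f f' : ℝ → E → ℝ} (hf : Sym1 f f') (i : Fin 3) : Sym1 (KS.co i f) (KS.co i f') :=
  hf.mul_poly (meas_coord i) (coord_poly i)

/-- Time direction. -/
noncomputable def L0 : ℂ →L[ℝ] (ℝ × E →L[ℝ] ℂ) :=
  ContinuousLinearMap.smulRightL ℝ (ℝ × E) ℂ (ContinuousLinearMap.fst ℝ ℝ E)

/-- Space directions. -/
noncomputable def L1 (i : Fin 3) : ℂ →L[ℝ] (ℝ × E →L[ℝ] ℂ) :=
  ContinuousLinearMap.smulRightL ℝ (ℝ × E) ℂ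
    ((EuclideanSpace.proj i : E →L[ℝ] ℝ).comp (ContinuousLinearMap.snd ℝ ℝ E))

lemma L0_apply (z : ℂ) (v : ℝ × E) : L0 z v = v.1 * z := by
  simp [L0, ContinuousLinearMap.smulRightL]

lemma L1_apply (i : Fin 3) (z : ℂ) (v : ℝ × E) : L1 i z v = v.2 i * z := by
  simp [L1, ContinuousLinearMap.smulRightL]

/-- The total derivative of the synthesis. -/
noncomputable def DZ (f f' : ℝ → E → ℝ) (p : ℝ × E) : ℝ × E →L[ℝ] ℂ :=
  L0 (Z f' p) + ∑ i, L1 i (2 * π * Complex.I * Z (co i f) p)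

lemma Z_der {f f' : ℝ → E → ℝ} (hf : Sym1 f f') {p : ℝ × E} (hp : p ∈ Om) :
    HasFDerivAt (Z f) (DZ f f' p) p := by
  obtain ⟨C, μ, hC, hμ, h⟩ := hf.s1.bd
  have hco : ∀ i : Fin 3, ∃ C μ, 0 ≤ C ∧ 0 < μ ∧ ∀ t, 0 < t → ∀ ξ, |co i f t ξ| ≤ C * W μ ξ :=
    fun i => (hf.s0.co i).bd
  choose D ν hD hν hb using hco
  obtain ⟨C', μ', hC', hμ', h'⟩ := hf.s0.bd
  have i1 : Integrable fun ξ => ((f' p.1 ξ : ℝ) : ℂ) * ee p.2 ξ :=
    Z_integrable (hf.s1.meas p.1 hp.1) hμ (h p.1 hp.1) p.2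
  have i2 : ∀ i, Integrable fun ξ => ((co i f p.1 ξ : ℝ) : ℂ) * ee p.2 ξ := fun i =>
    Z_integrable ((hf.s0.co i).meas p.1 hp.1) (hν i) (hb i p.1 hp.1) p.2
  have e : DZ f f' p = ∫ ξ, (L0 (((f' p.1 ξ : ℝ) : ℂ) * ee p.2 ξ) +
      ∑ i, L1 i (2 * π * Complex.I * (((co i f p.1 ξ : ℝ) : ℂ) * ee p.2 ξ))) := by
    rw [integral_add (L0.integrable_comp i1) (integrable_finset_sum _ fun i _ =>
      (L1 i).integrable_comp ((i2 i).const_mul _)), L0.integral_comp_comm i1,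
      integral_finset_sum _ fun i _ => (L1 i).integrable_comp ((i2 i).const_mul _)]
    unfold DZ Z
    congr 1
    refine Finset.sum_congr rfl fun i _ => ?_
    rw [(L1 i).integral_comp_comm ((i2 i).const_mul _), integral_const_mul]
  rw [e]
  refine hasFDerivAt_integral_of_dominated_of_fderiv_le (μ := volume)
    (F := fun p ξ => ((f p.1 ξ : ℝ) : ℂ) * ee p.2 ξ)
    (F' := fun p ξ => L0 (((f' p.1 ξ : ℝ) : ℂ) * ee p.2 ξ) +
      ∑ i, L1 i (2 * π * Complex.I * (((co i f p.1 ξ : ℝ) : ℂ) * ee p.2 ξ)))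
    (bound := fun ξ => ‖L0‖ * (C * W μ ξ) + ∑ i, ‖L1 i‖ * (2 * π * (D i * W (ν i) ξ)))
    (s := Om) (isOpen_Om.mem_nhds hp) ?_ ?_ ?_ ?_ ?_ ?_
  · filter_upwards [isOpen_Om.mem_nhds hp] with q hq
    exact (Z_integrable (hf.s0.meas q.1 hq.1) hμ' (h' q.1 hq.1) q.2).aestronglyMeasurable
  · exact Z_integrable (hf.s0.meas p.1 hp.1) hμ' (h' p.1 hp.1) p.2
  · exact ((L0.integrable_comp i1).add (integrable_finset_sum _ fun i _ =>
      (L1 i).integrable_comp ((i2 i).const_mul _))).aestronglyMeasurable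
  · refine Eventually.of_forall fun ξ q hq => ?_
    refine (norm_add_le _ _).trans (add_le_add ?_ ?_)
    · refine (L0.le_opNorm _).trans (mul_le_mul_of_nonneg_left ?_ (norm_nonneg _))
      rw [norm_mul, norm_ee, mul_one, Complex.norm_real, Real.norm_eq_abs]
      exact h q.1 hq.1 ξ
    · refine (norm_sum_le _ _).trans (Finset.sum_le_sum fun i _ => ?_)
      refine ((L1 i).le_opNorm _).trans (mul_le_mul_of_nonneg_left ?_ (norm_nonneg _))
      have e1 : ‖(2 * π * Complex.I : ℂ)‖ = 2 * π := by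
        simp [abs_of_pos Real.pi_pos]
      rw [norm_mul, e1, norm_mul, norm_ee, mul_one, Complex.norm_real, Real.norm_eq_abs]
      exact mul_le_mul_of_nonneg_left (hb i q.1 hq.1 ξ) (by positivity)
  · refine ((integrable_W hμ).const_mul C).const_mul _ |>.add
      (integrable_finset_sum _ fun i _ => ?_)
    exact (((integrable_W (hν i)).const_mul _).const_mul _).const_mul _
  · refine Eventually.of_forall fun ξ q hq => ?_
    have h1 : HasFDerivAt (fun p : ℝ × E => ((f p.1 ξ : ℝ) : ℂ)) (L0 ((f' q.1 ξ : ℝ) : ℂ)) q := by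
      have h2 : HasDerivAt (fun t => ((f t ξ : ℝ) : ℂ)) ((f' q.1 ξ : ℝ) : ℂ) q.1 :=
        (hf.der q.1 hq.1 ξ).ofReal_comp
      have h3 := h2.hasFDerivAt.comp q (hasFDerivAt_fst (𝕜 := ℝ) (E := ℝ) (F := E) (p := q))
      convert! h3 using 1
    have h4 := h1.mul (ee_hasFDerivAt ξ q)
    convert! h4 using 1
    ext v
    · simp [L0_apply, L1_apply, phi]
      ring
    · simp [L0_apply, L1_apply, phi, co, Fin.sum_univ_three, PiLp.inner_apply]
      ring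

lemma Z_diffOn {f f' : ℝ → E → ℝ} (hf : Sym1 f f') : DifferentiableOn ℝ (Z f) Om :=
  fun _ hp => (Z_der hf hp).differentiableAt.differentiableWithinAt

lemma DZ_contDiffOn {n : ℕ∞} {f f' : ℝ → E → ℝ} (h1 : ContDiffOn ℝ n (Z f') Om)
    (h2 : ∀ i, ContDiffOn ℝ n (Z (co i f)) Om) : ContDiffOn ℝ n (DZ f f') Om := by
  unfold DZ
  refine (L0.contDiff.comp_contDiffOn h1).add (ContDiffOn.sum fun i _ => ?_)
  exact (L1 i).contDiff.comp_contDiffOn (contDiffOn_const.mul (h2 i))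

lemma Z_C1 {f f' : ℝ → E → ℝ} (hf : Sym1 f f') : ContDiffOn ℝ 1 (Z f) Om := by
  have h0 : ContDiffOn ℝ (0 + 1) (Z f) Om := by
    rw [contDiffOn_succ_iff_fderiv_of_isOpen isOpen_Om]
    refine ⟨Z_diffOn hf, by simp, ?_⟩
    have h1 : ContDiffOn ℝ ((0 : ℕ∞) : WithTop ℕ∞) (DZ f f') Om :=
      DZ_contDiffOn (contDiffOn_zero.2 (Z_cont hf.s1))
        (fun i => contDiffOn_zero.2 (Z_cont (hf.s0.co i)))
    exact h1.congr fun p hp => (Z_der hf hp).fderiv
  simpa using h0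

lemma Z_C2 {f f' f'' : ℝ → E → ℝ} (hf : Sym1 f f') (hf' : Sym1 f' f'') :
    ContDiffOn ℝ 2 (Z f) Om := by
  have h0 : ContDiffOn ℝ (1 + 1) (Z f) Om := by
    rw [contDiffOn_succ_iff_fderiv_of_isOpen isOpen_Om]
    refine ⟨Z_diffOn hf, by simp, ?_⟩
    have h1 : ContDiffOn ℝ ((1 : ℕ∞) : WithTop ℕ∞) (DZ f f') Om :=
      DZ_contDiffOn (Z_C1 hf') (fun i => Z_C1 (hf.co i))
    exact h1.congr fun p hp => (Z_der hf hp).fderiv
  have e : (1 + 1 : WithTop ℕ∞) = 2 := by norm_num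
  rwa [e] at h0

end H459R3.KS
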