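import Pool.Agent.H459R3.KS.Conv

/-!
The time integral estimate.
-/

set_option autoImplicit false

open MeasureTheory Set Filter Topology
open scoped InnerProductSpace Real

namespace H459R3.KS

/-- The decay rate at time `t`. -/
noncomputable def m (μ₀ t : ℝ) : ℝ := μ₀ + |t| ^ (1 / 4 : ℝ)

lemma m_pos {μ₀ : ℝ} (h : 0 < μ₀) (t : ℝ) : 0 < m μ₀ t := by
  unfold m
  have : 0 ≤ |t| ^ (1 / 4 : ℝ) := by positivity
  linarith

lemma m_ge (μ₀ t : ℝ) : μ₀ ≤ m μ₀ t := by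
  unfold m
  have : 0 ≤ |t| ^ (1 / 4 : ℝ) := by positivity
  linarith

@[fun_prop]
lemma continuous_m (μ₀ : ℝ) : Continuous (m μ₀) := by
  unfold m
  have : Continuous fun t : ℝ => |t| ^ (1 / 4 : ℝ) :=
    (continuous_abs).rpow_const fun _ => Or.inr (by norm_num)
  fun_prop

/-- The symbol of the heat operator. -/
noncomputable def lam (ξ : E) : ℝ := 4 * π ^ 2 * ‖ξ‖ ^ 2

lemma lam_nonneg (ξ : E) : 0 ≤ lam ξ := by unfold lam; positivity

@[fun_prop]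
lemma continuous_lam : Continuous lam := by unfold lam; fun_prop

lemma rpow_quarter_le {x : ℝ} (hx : 0 ≤ x) : x ^ (1 / 4 : ℝ) ≤ 1 + x := by
  rcases le_total x 1 with h | h
  · have := Real.rpow_le_one hx h (by norm_num : (0 : ℝ) ≤ 1 / 4)
    linarith
  · have := Real.rpow_le_rpow_of_exponent_le h (by norm_num : (1 / 4 : ℝ) ≤ 1)
    rw [Real.rpow_one] at this
    linarith

lemma heat_W (μ₀ : ℝ) {s t : ℝ} (hs : 0 ≤ s) (hst : s ≤ t) (ξ : E) :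
    Real.exp (-(lam ξ * (t - s))) * W (m μ₀ s) ξ ≤
      Real.exp 1 * Real.exp (-((t - s) * ‖ξ‖ ^ 2)) * W (m μ₀ t) ξ := by
  unfold W
  have hH := H_nonneg (ξ 0)
  have key : Real.exp (-(lam ξ * (t - s))) * Real.exp (-(m μ₀ s * √‖ξ‖)) ≤
      Real.exp 1 * Real.exp (-((t - s) * ‖ξ‖ ^ 2)) * Real.exp (-(m μ₀ t * √‖ξ‖)) := by
    rw [← Real.exp_add, ← Real.exp_add, ← Real.exp_add]
    apply Real.exp_le_exp.2
    set x := (t - s) * ‖ξ‖ ^ 2 with hx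
    have hts : 0 ≤ t - s := sub_nonneg.2 hst
    have hx0 : 0 ≤ x := by positivity
    have h1 : m μ₀ t - m μ₀ s ≤ (t - s) ^ (1 / 4 : ℝ) := by
      unfold m
      rw [abs_of_nonneg hs, abs_of_nonneg (hs.trans hst)]
      have := Real.rpow_add_le_add_rpow hs hts (by norm_num : (0 : ℝ) ≤ 1 / 4) (by norm_num)
      rw [add_sub_cancel] at this
      linarith
    have h2 : (t - s) ^ (1 / 4 : ℝ) * √‖ξ‖ = x ^ (1 / 4 : ℝ) := by
      rw [hx, Real.mul_rpow hts (by positivity), ← Real.rpow_natCast, ← Real.rpow_mul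
        (norm_nonneg _), Real.sqrt_eq_rpow]
      norm_num
    have h3 : (m μ₀ t - m μ₀ s) * √‖ξ‖ ≤ 1 + x := by
      calc (m μ₀ t - m μ₀ s) * √‖ξ‖ ≤ (t - s) ^ (1 / 4 : ℝ) * √‖ξ‖ := by gcongr
        _ = x ^ (1 / 4 : ℝ) := h2
        _ ≤ 1 + x := rpow_quarter_le hx0
    have h4 : lam ξ * (t - s) = 4 * π ^ 2 * x := by rw [hx]; unfold lam; ring
    have h5 : 2 * x ≤ 4 * π ^ 2 * x := by
      have : (2 : ℝ) ≤ 4 * π ^ 2 := by nlinarith [Real.pi_gt_three]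
      gcongr
    rw [h4]
    nlinarith [h3]
  calc Real.exp (-(lam ξ * (t - s))) * (H (ξ 0) * Real.exp (-(m μ₀ s * √‖ξ‖)))
      = H (ξ 0) * (Real.exp (-(lam ξ * (t - s))) * Real.exp (-(m μ₀ s * √‖ξ‖))) := by ring
    _ ≤ H (ξ 0) * (Real.exp 1 * Real.exp (-((t - s) * ‖ξ‖ ^ 2)) * Real.exp (-(m μ₀ t * √‖ξ‖))) := by
        gcongr
    _ = _ := by ring

lemma time_integrable (ρ t : ℝ) :
    IntegrableOn (fun s => Real.exp (-((t - s) * ρ ^ 2)) * (ρ ^ (3 / 2 : ℝ) * s ^ (-(1 / 4) : ℝ)))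
      (Ioc 0 t) := by
  rcases le_or_gt t 0 with ht | ht
  · simp [Ioc_eq_empty_of_le ht]
  have h1 : IntegrableOn (fun s : ℝ => s ^ (-(1 / 4) : ℝ)) (Ioc 0 t) := by
    rw [← intervalIntegrable_iff_integrableOn_Ioc_of_le ht.le]
    exact intervalIntegral.intervalIntegrable_rpow' (by norm_num)
  have h2 : IntegrableOn (fun s : ℝ => (Real.exp (-((t - s) * ρ ^ 2)) * ρ ^ (3 / 2 : ℝ)) *
      s ^ (-(1 / 4) : ℝ)) (Ioc 0 t) := by
    have h3 : IntegrableOn (fun s : ℝ => (Real.exp (-((t - s) * ρ ^ 2)) * ρ ^ (3 / 2 : ℝ)) *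
        s ^ (-(1 / 4) : ℝ)) (Ioc 0 t) := by
      refine Integrable.bdd_mul (c := 1 * |ρ ^ (3 / 2 : ℝ)|) h1 ?_ ?_
      · exact (by fun_prop : Continuous fun s : ℝ =>
          Real.exp (-((t - s) * ρ ^ 2)) * ρ ^ (3 / 2 : ℝ)).aestronglyMeasurable
      · filter_upwards [ae_restrict_mem measurableSet_Ioc] with s hs
        rw [norm_mul, Real.norm_of_nonneg (Real.exp_pos _).le, Real.norm_eq_abs]
        gcongr
        apply Real.exp_le_one_iff.2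
        have : 0 ≤ (t - s) * ρ ^ 2 := mul_nonneg (by linarith [hs.2]) (by positivity)
        linarith
    exact h3
  refine h2.congr_fun (fun s _ => ?_) measurableSet_Ioc
  ring

lemma time_int_le {ρ t : ℝ} (hρ : 0 ≤ ρ) (ht : 0 ≤ t) :
    ∫ s in Ioc 0 t, Real.exp (-((t - s) * ρ ^ 2)) * (ρ ^ (3 / 2 : ℝ) * s ^ (-(1 / 4) : ℝ)) ≤ 3 := by
  rcases hρ.eq_or_lt with h0 | hρ
  · rw [← h0]
    have : ((0 : ℝ) ^ (3 / 2 : ℝ)) = 0 := Real.zero_rpow (by norm_num)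
    simp [this]
  set a : ℝ := (ρ ^ 2)⁻¹ with ha
  have ha0 : 0 < a := by positivity
  -- the two pieces
  have hA : ∫ s in Ioc 0 t, ρ ^ 2 * Real.exp (-((t - s) * ρ ^ 2)) ≤ 1 := by
    rw [← intervalIntegral.integral_of_le ht]
    have hd : ∀ s ∈ uIcc 0 t, HasDerivAt (fun s => Real.exp (-((t - s) * ρ ^ 2)))
        (ρ ^ 2 * Real.exp (-((t - s) * ρ ^ 2))) s := by
      intro s _
      have h1 : HasDerivAt (fun s => -((t - s) * ρ ^ 2)) (ρ ^ 2) s := by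
        have := (((hasDerivAt_id s).const_sub t).mul_const (ρ ^ 2)).neg
        convert! this using 1
        simp
      have := h1.exp
      rwa [mul_comm] at this
    rw [intervalIntegral.integral_eq_sub_of_hasDerivAt hd
      ((by fun_prop : Continuous fun s : ℝ => ρ ^ 2 * Real.exp (-((t - s) * ρ ^ 2))).intervalIntegrable
        _ _)]
    have := Real.exp_pos (-((t - 0) * ρ ^ 2))
    simp only [sub_self, zero_mul, neg_zero, Real.exp_zero]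
    linarith
  have hBi : IntegrableOn (fun s : ℝ => ρ ^ (3 / 2 : ℝ) * s ^ (-(1 / 4) : ℝ)) (Ioc 0 a) := by
    rw [← intervalIntegrable_iff_integrableOn_Ioc_of_le ha0.le]
    exact (intervalIntegral.intervalIntegrable_rpow' (by norm_num)).const_mul _
  have hB : ∫ s in Ioc 0 a, ρ ^ (3 / 2 : ℝ) * s ^ (-(1 / 4) : ℝ) = 4 / 3 := by
    rw [← intervalIntegral.integral_of_le ha0.le, intervalIntegral.integral_const_mul,
      integral_rpow (Or.inl (by norm_num)), Real.zero_rpow (by norm_num), ha]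
    have e1 : ((ρ ^ 2)⁻¹ : ℝ) ^ (-(1 / 4) + 1 : ℝ) = (ρ ^ (3 / 2 : ℝ))⁻¹ := by
      rw [Real.inv_rpow (by positivity), ← Real.rpow_natCast, ← Real.rpow_mul hρ.le]
      norm_num
    rw [e1]
    have : ρ ^ (3 / 2 : ℝ) ≠ 0 := by positivity
    field_simp
    norm_num
  have hBi' : IntegrableOn ((Ioc 0 a).indicator fun s : ℝ => ρ ^ (3 / 2 : ℝ) * s ^ (-(1 / 4) : ℝ))
      (Ioc 0 t) := ((integrable_indicator_iff measurableSet_Ioc).2 hBi).integrableOn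
  have hAi : IntegrableOn (fun s : ℝ => ρ ^ 2 * Real.exp (-((t - s) * ρ ^ 2))) (Ioc 0 t) :=
    (by fun_prop : Continuous fun s : ℝ => ρ ^ 2 * Real.exp (-((t - s) * ρ ^ 2))).integrableOn_Ioc
  have hpt : ∀ s ∈ Ioc 0 t, Real.exp (-((t - s) * ρ ^ 2)) * (ρ ^ (3 / 2 : ℝ) * s ^ (-(1 / 4) : ℝ)) ≤
      ρ ^ 2 * Real.exp (-((t - s) * ρ ^ 2)) +
        (Ioc 0 a).indicator (fun s : ℝ => ρ ^ (3 / 2 : ℝ) * s ^ (-(1 / 4) : ℝ)) s := by
    intro s hs
    have hs0 : 0 < s := hs.1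
    by_cases hsa : s ≤ a
    · rw [indicator_of_mem (mem_Ioc.2 ⟨hs.1, hsa⟩)]
      have h1 : Real.exp (-((t - s) * ρ ^ 2)) ≤ 1 := by
        apply Real.exp_le_one_iff.2
        have : 0 ≤ (t - s) * ρ ^ 2 := mul_nonneg (by linarith [hs.2]) (by positivity)
        linarith
      have h2 : 0 ≤ ρ ^ (3 / 2 : ℝ) * s ^ (-(1 / 4) : ℝ) := by positivity
      have h3 : 0 ≤ ρ ^ 2 * Real.exp (-((t - s) * ρ ^ 2)) := by positivity
      nlinarith
    · have hnm : s ∉ Ioc 0 a := fun h => hsa h.2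
      rw [indicator_of_notMem hnm, add_zero]
      push Not at hsa
      have h1 : s ^ (-(1 / 4) : ℝ) ≤ a ^ (-(1 / 4) : ℝ) :=
        Real.rpow_le_rpow_of_nonpos ha0 hsa.le (by norm_num)
      have h2 : a ^ (-(1 / 4) : ℝ) = ρ ^ (1 / 2 : ℝ) := by
        rw [ha, Real.inv_rpow (by positivity), ← Real.rpow_neg (by positivity),
          ← Real.rpow_natCast, ← Real.rpow_mul hρ.le]
        norm_num
      have h3 : ρ ^ (3 / 2 : ℝ) * ρ ^ (1 / 2 : ℝ) = ρ ^ 2 := by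
        rw [← Real.rpow_add hρ, ← Real.rpow_natCast]; norm_num
      calc Real.exp (-((t - s) * ρ ^ 2)) * (ρ ^ (3 / 2 : ℝ) * s ^ (-(1 / 4) : ℝ))
          ≤ Real.exp (-((t - s) * ρ ^ 2)) * (ρ ^ (3 / 2 : ℝ) * ρ ^ (1 / 2 : ℝ)) := by
            rw [h2] at h1; gcongr
        _ = ρ ^ 2 * Real.exp (-((t - s) * ρ ^ 2)) := by rw [h3]; ring
  have hC : ∫ s in Ioc 0 t, (Ioc 0 a).indicator (fun s : ℝ => ρ ^ (3 / 2 : ℝ) *
      s ^ (-(1 / 4) : ℝ)) s ≤ 4 / 3 := by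
    rw [← hB, ← integral_indicator (μ := volume) (s := Ioc 0 a) measurableSet_Ioc]
    refine setIntegral_le_integral ((integrable_indicator_iff measurableSet_Ioc).2 hBi) ?_
    refine Eventually.of_forall fun s => ?_
    refine indicator_nonneg (fun s hs => ?_) s
    have := hs.1
    positivity
  calc ∫ s in Ioc 0 t, Real.exp (-((t - s) * ρ ^ 2)) * (ρ ^ (3 / 2 : ℝ) * s ^ (-(1 / 4) : ℝ))
      ≤ ∫ s in Ioc 0 t, (ρ ^ 2 * Real.exp (-((t - s) * ρ ^ 2)) +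
        (Ioc 0 a).indicator (fun s : ℝ => ρ ^ (3 / 2 : ℝ) * s ^ (-(1 / 4) : ℝ)) s) :=
        setIntegral_mono_on (time_integrable ρ t) (hAi.add hBi') measurableSet_Ioc hpt
    _ = (∫ s in Ioc 0 t, ρ ^ 2 * Real.exp (-((t - s) * ρ ^ 2))) +
        ∫ s in Ioc 0 t, (Ioc 0 a).indicator (fun s : ℝ => ρ ^ (3 / 2 : ℝ) * s ^ (-(1 / 4) : ℝ)) s :=
        integral_add hAi hBi'
    _ ≤ 1 + 4 / 3 := add_le_add hA hC
    _ ≤ 3 := by norm_num

attribute [irreducible] m lam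

end H459R3.KS
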